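import Pool.Agent.Lib.MP_3ba922_nt.Fill

/-! Two-sided asymptotics of the radius near the negative real axis. -/

set_option autoImplicit false

namespace Pool.Agent.Lib.MP_3ba922_nt

open Finset Filter Topology Real

theorem sigmaC_conj (c : ℂ) (n : ℕ) :
    sigmaC ((starRingEnd ℂ) c) n = (starRingEnd ℂ) (sigmaC c n) := by
  rw [sigmaC, sigmaC, map_sum]
  refine sum_congr rfl fun d _ => ?_
  rw [Complex.cpow_conj _ _ (by rw [Complex.natCast_arg]; exact pi_pos.ne), Complex.conj_natCast]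

theorem ball_conj (c : ℂ) (R : ℝ)
    (h : Metric.ball (1 : ℂ) R ⊆ closure (sigmaC c '' {n | 1 ≤ n})) :
    Metric.ball (1 : ℂ) R ⊆ closure (sigmaC ((starRingEnd ℂ) c) '' {n | 1 ≤ n}) := by
  intro v hv
  have h1 : (starRingEnd ℂ) v ∈ Metric.ball (1 : ℂ) R := by
    rw [mem_ball_iff_norm] at hv ⊢
    rwa [← Complex.norm_conj, map_sub, map_one, Complex.conj_conj]
  rw [← Complex.conj_conj v]
  refine map_mem_closure Complex.continuous_conj (h h1) ?_
  rintro _ ⟨n, hn, rfl⟩
  exact ⟨n, hn, sigmaC_conj c n⟩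

theorem rad_conj (c : ℂ) : rad ((starRingEnd ℂ) c) = rad c := by
  unfold rad
  congr 1
  ext R
  exact and_congr_right fun _ => ⟨fun h => by simpa using ball_conj _ R h, ball_conj c R⟩

theorem rad_abs (c : ℂ) : rad ((c.re : ℝ) + (|c.im| : ℝ) * Complex.I) = rad c := by
  rcases abs_choice c.im with h | h <;> rw [h]
  · rw [Complex.re_add_im]
  · rw [← rad_conj c]
    congr 1
    apply Complex.ext <;> simp

theorem asym (δ : ℝ) (hδ : 0 < δ) (T ε : ℝ) (hε : 0 < ε) : ∃ L : ℝ, ∀ s t : ℝ, 1 + δ ≤ s →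
    0 < t → t ≤ T → L * t ≤ s →
      exp (-(π + ε) * (s * (s - 1)) / t) ≤ rad ((-s : ℝ) + (t : ℝ) * Complex.I) ∧
      rad ((-s : ℝ) + (t : ℝ) * Complex.I) ≤ exp (-(π - ε) * (s * (s - 1)) / t) := by
  have hpi := pi_gt_three
  set C := 1 + 1 / δ with hC
  have hC0 : 0 < C := by positivity
  set α := min (ε / 3) (1 / 2) with hα
  have hα0 : 0 < α := by positivity
  have hα1 : α ≤ 1 / 2 := min_le_right _ _
  have hα2 : α ≤ ε / 3 := min_le_left _ _
  obtain ⟨N, hN⟩ := exists_nat_ge (max 4 ((5 + C) * π / ε))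
  have hN4 : (4 : ℝ) ≤ N := (le_max_left _ _).trans hN
  have hNε := (le_max_right _ _).trans hN
  set κ := π / N with hκ
  have hκ0 : 0 < κ := by positivity
  have hNκ : N * κ = π := by rw [hκ]; field_simp
  have hκε : (5 + C) * κ ≤ ε := by
    rw [div_le_iff₀ hε] at hNε
    rw [hκ, ← mul_div_assoc, div_le_iff₀ (by linarith)]
    linarith
  have h4 : 4 * κ ≤ π := by nlinarith
  set β := κ / (N + 5) with hβ
  have hβ0 : 0 < β := by positivity
  set γ := exp (β / max T 1) with hγ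
  have hγ1 : 1 < γ := one_lt_exp_iff.mpr (by positivity)
  obtain ⟨y0, -, hy⟩ := theta_lower γ hγ1
  have sα : 0 < sin α := sin_pos_of_pos_of_lt_pi hα0 (by linarith)
  have sκ : 0 < sin κ := sin_pos_of_pos_of_lt_pi hκ0 (by linarith)
  have t1 : ∀ a : ℝ, 0 < a → ∀ K : ℝ, Tendsto (fun b : ℝ => K * exp (-b * a)) atTop (𝓝 0) :=
    fun a ha K => by
      simpa using (tendsto_exp_neg_atTop_nhds_zero.comp
        (tendsto_id.atTop_mul_const ha)).const_mul K
  have t2 : ∀ D : ℝ, Tendsto (fun b : ℝ => exp (-b * κ) * (1 + b * D)) atTop (𝓝 0) := fun D => by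
    have := (t1 κ hκ0 1).add (((tendsto_pow_mul_exp_neg_atTop_nhds_zero 1).comp
      (tendsto_id.atTop_mul_const hκ0)).const_mul (D / κ))
    rw [mul_zero, add_zero] at this
    refine this.congr fun b => ?_
    simp only [Function.comp, id, neg_mul]
    field_simp
  obtain ⟨b0, hb0⟩ := eventually_atTop.mp (((t1 α hα0 (24 * C)).eventually (ge_mem_nhds sα)).and
    (((t1 α hα0 (13 * C)).eventually (ge_mem_nhds
      (show 0 < 3 / 8 * exp (-(2 * C * log (C / (sin α / 12)))) by positivity))).and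
    ((tendsto_exp_atTop.eventually_ge_atTop y0).and
    ((tendsto_exp_neg_atTop_nhds_zero.eventually (ge_mem_nhds
      (show 0 < sin κ / 24 by positivity))).and
    ((t2 (π + (5 + C) * κ + C * (π + 4 * κ))).eventually (ge_mem_nhds
      (show 0 < sin κ ^ 2 * (γ - 1) / (8 * γ) by have := sub_pos.mpr hγ1; positivity)))))))
  refine ⟨max (2 * (2 * C * log (C / (sin α / 12)))) (C * b0), fun s t hs ht hT hL => ?_⟩
  have hs1 : 1 < s := by linarith
  have hC' : 1 + 1 / (s - 1) ≤ C :=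
    add_le_add_right (one_div_le_one_div_of_le hδ (by linarith)) 1
  have hsC : s ≤ C * (s - 1) := by
    have := mul_le_mul_of_nonneg_right hC' (sub_pos.mpr hs1).le
    rwa [add_mul, one_div, inv_mul_cancel₀ (sub_pos.mpr hs1).ne', one_mul, sub_add_cancel] at this
  have hL1 := (mul_le_mul_of_nonneg_right (le_max_left _ _) ht.le).trans hL
  have hL2 := (mul_le_mul_of_nonneg_right (le_max_right _ _) ht.le).trans hL
  obtain ⟨c1, c2, c3, c4, c5⟩ := hb0 ((s - 1) / t) (by
    rw [le_div_iff₀ ht]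
    exact le_of_mul_le_mul_left (a := C) (by linarith) hC0)
  have hg := gap s t α C hs1 ht hC' hα0 hα1 c1 c2 ((le_div_iff₀ ht).mpr hL1)
  have hf := fill_lower s t κ β γ C y0 (N + 4) hs1 ht hC' hβ0
    (by rw [hβ]; push_cast; field_simp; ring) (by push_cast; linarith) h4 hγ1
    (exp_le_exp.mpr (div_le_div_of_nonneg_left hβ0.le ht (hT.trans (le_max_left _ _)))) hy c3 c4 c5
  have hss : 0 ≤ s * (s - 1) := by nlinarith
  constructor
  · refine le_trans ?_ (le_csSup ⟨_, fun R hR => hg R hR.2⟩ ⟨(exp_pos _).le, hf⟩)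
    exact exp_le_exp.mpr (div_le_div_of_nonneg_right (by nlinarith) ht.le)
  · refine (Real.sSup_le (fun R hR => hg R hR.2) (exp_pos _).le).trans ?_
    exact exp_le_exp.mpr (div_le_div_of_nonneg_right (by nlinarith) ht.le)

end Pool.Agent.Lib.MP_3ba922_nt
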