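import Pool.Agent.Lib.MP_3ba922_nt.Defs
import Pool.Agent.Shared.PNTAP

/-! Euler factors, tail bounds, greedy filling. -/

set_option autoImplicit false

namespace Pool.Agent.Lib.MP_3ba922_nt

open Finset Filter Topology

def fk (z : ℂ) (k : ℕ) : ℂ := ∑ j ∈ range (k + 1), z ^ j

noncomputable def powC (c : ℂ) : ArithmeticFunction ℂ :=
  ⟨fun n => if n = 0 then 0 else (n : ℂ) ^ c, by simp⟩

theorem powC_mult (c : ℂ) : (powC c).IsMultiplicative := by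
  refine ⟨by simp [powC], fun {m n} _ => ?_⟩
  by_cases hm : m = 0
  · simp [powC, hm]
  by_cases hn : n = 0
  · simp [powC, hn]
  simp [powC, hm, hn, Complex.natCast_mul_natCast_cpow]

noncomputable def sigA (c : ℂ) : ArithmeticFunction ℂ :=
  ((ArithmeticFunction.zeta : ArithmeticFunction ℕ) : ArithmeticFunction ℂ) * powC c

theorem sigA_mult (c : ℂ) : (sigA c).IsMultiplicative :=
  ArithmeticFunction.isMultiplicative_zeta.natCast.mul (powC_mult c)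

theorem sigA_apply (c : ℂ) (n : ℕ) : sigA c n = sigmaC c n := by
  rw [sigA, ArithmeticFunction.coe_zeta_mul_apply, sigmaC]
  refine sum_congr rfl fun d hd => ?_
  simp [powC, (Nat.pos_of_mem_divisors hd).ne']

theorem sigmaC_prime_pow (c : ℂ) (p k : ℕ) (hp : p.Prime) :
    sigmaC c (p ^ k) = fk ((p : ℂ) ^ c) k := by
  rw [sigmaC, Nat.sum_divisors_prime_pow hp, fk]
  refine sum_congr rfl fun j _ => ?_
  rw [Nat.cast_pow, ← Complex.natCast_cpow_natCast_mul, Complex.cpow_nat_mul]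

theorem prod_mem (c : ℂ) (S : Finset ℕ) (hS : ∀ p ∈ S, p.Prime) (k : ℕ → ℕ) :
    ∏ p ∈ S, fk ((p : ℂ) ^ c) (k p) ∈ sigmaC c '' {n | 1 ≤ n} := by
  refine ⟨∏ p ∈ S, p ^ k p, Nat.succ_le_of_lt (prod_pos fun p hp => pow_pos (hS p hp).pos _), ?_⟩
  rw [← sigA_apply, (sigA_mult c).map_prod (fun p => p ^ k p) S (fun p hp q hq hpq =>
    Nat.Coprime.pow _ _ ((Nat.coprime_primes (hS p hp) (hS q hq)).mpr hpq))]
  exact prod_congr rfl fun p hp => by rw [sigA_apply, sigmaC_prime_pow c p _ (hS p hp)]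

theorem exists_prod (c : ℂ) (z : ℂ) (hz : z ∈ sigmaC c '' {n | 1 ≤ n}) :
    ∃ (S : Finset ℕ) (k : ℕ → ℕ), (∀ p ∈ S, p.Prime ∧ 1 ≤ k p) ∧
      z = ∏ p ∈ S, fk ((p : ℂ) ^ c) (k p) := by
  obtain ⟨n, hn, rfl⟩ := hz
  have hn0 : n ≠ 0 := Nat.one_le_iff_ne_zero.mp hn
  refine ⟨n.primeFactors, n.factorization, fun p hp => ⟨Nat.prime_of_mem_primeFactors hp,
    (Nat.prime_of_mem_primeFactors hp).factorization_pos_of_dvd hn0
      (Nat.dvd_of_mem_primeFactors hp)⟩, ?_⟩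
  rw [← sigA_apply, (sigA_mult c).multiplicative_factorization _ hn0]
  exact prod_congr rfl fun p hp => by
    beta_reduce
    rw [sigA_apply, sigmaC_prime_pow c p _ (Nat.prime_of_mem_primeFactors hp)]

theorem norm_geom_le (z : ℂ) (hz : ‖z‖ ≤ 1 / 2) (k : ℕ) : ‖∑ j ∈ range k, z ^ j‖ ≤ 2 := by
  refine (norm_sum_le _ _).trans ((sum_le_sum fun j _ => ?_).trans (sum_geometric_two_le k))
  rw [norm_pow]
  exact pow_le_pow_left₀ (norm_nonneg _) hz j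

theorem fk_eq (z : ℂ) (k : ℕ) : fk z k = 1 + z * ∑ j ∈ range k, z ^ j := by
  rw [fk, sum_range_succ', mul_sum, add_comm]
  simp [pow_succ']

theorem fk_succ (z : ℂ) (k : ℕ) : fk z (k + 1) = 1 + z * fk z k := fk_eq z (k + 1)

theorem norm_fk_sub (z : ℂ) (hz : ‖z‖ ≤ 1 / 2) (k : ℕ) : ‖fk z k - 1‖ ≤ 2 * ‖z‖ := by
  rw [fk_eq, add_sub_cancel_left, norm_mul, mul_comm]
  exact mul_le_mul_of_nonneg_right (norm_geom_le z hz k) (norm_nonneg _)

theorem norm_fk_ge (z : ℂ) (hz : ‖z‖ ≤ 1 / 2) (k : ℕ) : 1 - 2 * ‖z‖ ≤ ‖fk z k‖ := by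
  have h1 := norm_fk_sub z hz k
  have h2 := norm_sub_norm_le (1 : ℂ) (fk z k)
  rw [norm_sub_rev, norm_one] at h2
  linarith

theorem fk_ne_zero (z : ℂ) (hz : ‖z‖ ≤ 1 / 4) (k : ℕ) : fk z k ≠ 0 := by
  have := norm_fk_ge z (by linarith) k
  intro h
  rw [h, norm_zero] at this
  linarith

theorem norm_log_fk (z : ℂ) (hz : ‖z‖ ≤ 1 / 4) (k : ℕ) (hk : 1 ≤ k) :
    ‖Complex.log (fk z k) - z‖ ≤ 6 * ‖z‖ ^ 2 := by
  obtain ⟨k, rfl⟩ := Nat.exists_eq_add_of_le' hk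
  have h0 := norm_nonneg z
  have h1 := norm_fk_sub z (by linarith) (k + 1)
  have h2 := norm_fk_sub z (by linarith) k
  set ζ := fk z (k + 1) - 1 with hζ
  have h3 : ‖ζ - z‖ ≤ 2 * ‖z‖ ^ 2 := by
    have : ζ - z = z * (fk z k - 1) := by rw [hζ, fk_succ]; ring
    rw [this, norm_mul]; nlinarith
  have h4 := Complex.norm_log_one_add_sub_self_le (z := ζ) (by linarith)
  have h5 : (1 - ‖ζ‖)⁻¹ ≤ 2 := by
    rw [inv_le_comm₀ (by linarith) (by norm_num)]; linarith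
  have h6 : ‖ζ‖ ^ 2 ≤ 4 * ‖z‖ ^ 2 := by nlinarith [norm_nonneg ζ]
  have h7 : ‖ζ‖ ^ 2 * (1 - ‖ζ‖)⁻¹ / 2 ≤ 4 * ‖z‖ ^ 2 := by nlinarith [sq_nonneg ‖ζ‖]
  have e : Complex.log (fk z (k + 1)) - z = (Complex.log (1 + ζ) - ζ) + (ζ - z) := by
    rw [hζ]; ring_nf
  rw [e]
  exact (norm_add_le _ _).trans (by linarith)

theorem re_fk_ge (z : ℂ) (hz : ‖z‖ ≤ 1 / 2) (h1 : 7 / 8 * ‖z‖ ≤ z.re) (k : ℕ) (hk : 1 ≤ k) :
    1 + 3 / 8 * ‖z‖ ≤ ‖fk z k‖ := by
  refine le_trans ?_ (Complex.re_le_norm _)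
  have h0 := norm_nonneg z
  obtain ⟨k, rfl⟩ := Nat.exists_eq_add_of_le' hk
  rcases k with - | k
  · simp [fk, sum_range_succ]; linarith
  · have e : fk z (k + 1 + 1) = 1 + z + z ^ 2 + z ^ 3 * ∑ j ∈ range k, z ^ j := by
      rw [fk_succ, fk_succ, fk_eq]; ring
    have h2 : 0 ≤ (z ^ 2).re := by
      have := Complex.sq_norm z
      rw [Complex.normSq_apply] at this
      rw [sq, Complex.mul_re]; nlinarith
    have h3 : ‖z ^ 3 * ∑ j ∈ range k, z ^ j‖ ≤ ‖z‖ / 2 := by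
      rw [norm_mul, norm_pow]
      have := mul_le_mul_of_nonneg_left (norm_geom_le z hz k) (pow_nonneg h0 3)
      nlinarith [mul_le_mul_of_nonneg_left hz h0, sq_nonneg ‖z‖]
    have h4 := abs_le.mp ((Complex.abs_re_le_norm _).trans h3)
    rw [e]
    simp only [Complex.add_re, Complex.one_re]
    linarith [h4.1]

theorem one_sub_sum_le_prod {ι : Type} (S : Finset ι) (x f : ι → ℝ) (hx : ∀ i ∈ S, 0 ≤ x i)
    (hf : ∀ i ∈ S, 1 - x i ≤ f i) (hf0 : ∀ i ∈ S, 0 ≤ f i) : 1 - ∑ i ∈ S, x i ≤ ∏ i ∈ S, f i := by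
  classical
  induction S using Finset.induction_on with
  | empty => simp
  | insert a S ha ih =>
    rw [sum_insert ha, prod_insert ha]
    have h1 := ih (fun i hi => hx i (mem_insert_of_mem hi)) (fun i hi => hf i (mem_insert_of_mem hi))
      (fun i hi => hf0 i (mem_insert_of_mem hi))
    have h2 := hx a (mem_insert_self _ _)
    have h3 := hf a (mem_insert_self _ _)
    have h4 := hf0 a (mem_insert_self _ _)
    have h5 : 0 ≤ ∑ i ∈ S, x i := sum_nonneg fun i hi => hx i (mem_insert_of_mem hi)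
    have h6 : 0 ≤ ∏ i ∈ S, f i := prod_nonneg fun i hi => hf0 i (mem_insert_of_mem hi)
    by_cases h7 : 1 - x a ≤ 0
    · nlinarith [mul_nonneg h4 h6]
    · nlinarith [mul_le_mul h3 h1, mul_le_mul_of_nonneg_right h3 h6]

theorem rpow_step (s : ℝ) (hs : 1 < s) (n : ℕ) (hn : 1 ≤ n) :
    (s - 1) * ((n + 1 : ℕ) : ℝ) ^ (-s) ≤ (n : ℝ) ^ (1 - s) - ((n + 1 : ℕ) : ℝ) ^ (1 - s) := by
  have h0 : (0 : ℝ) < n := by exact_mod_cast hn
  set N : ℝ := ((n + 1 : ℕ) : ℝ) with hN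
  have hN1 : N = n + 1 := by rw [hN]; push_cast; rfl
  have hN0 : 0 < N := by linarith
  have h1 : (n : ℝ) ^ (1 - s) = N ^ (1 - s) * Real.exp ((1 - s) * Real.log (n / N)) := by
    rw [Real.rpow_def_of_pos h0, Real.rpow_def_of_pos hN0, ← Real.exp_add,
      Real.log_div h0.ne' hN0.ne']
    congr 1; ring
  have h2 : Real.log (n / N) ≤ -(1 / N) := by
    have := Real.log_le_sub_one_of_pos (div_pos h0 hN0)
    have e : (n : ℝ) / N - 1 = -(1 / N) := by rw [hN1]; field_simp; ring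
    linarith
  have h3 : 1 + (s - 1) * (1 / N) ≤ Real.exp ((1 - s) * Real.log (n / N)) := by
    have := Real.add_one_le_exp ((1 - s) * Real.log (n / N))
    nlinarith
  have h4 : N ^ (-s) = N ^ (1 - s) * (1 / N) := by
    rw [show -s = (1 - s) + (-1) by ring, Real.rpow_add hN0, Real.rpow_neg_one, one_div]
  have h5 : 0 < N ^ (1 - s) := Real.rpow_pos_of_pos hN0 _
  rw [h1, h4]
  nlinarith

theorem tail_le (s : ℝ) (hs : 1 < s) (x : ℝ) (hx : 1 ≤ x) (S : Finset ℕ) (hS : ∀ n ∈ S, x < n) :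
    ∑ n ∈ S, (n : ℝ) ^ (-s) ≤ (1 + 1 / (s - 1)) * x ^ (1 - s) := by
  set m := ⌊x⌋₊ + 1 with hm
  have hmx : x < m := by rw [hm]; push_cast; exact Nat.lt_floor_add_one x
  have hm1 : 1 ≤ m := by omega
  have h1 : ∀ N, (s - 1) * ∑ n ∈ range N, ((m + n + 1 : ℕ) : ℝ) ^ (-s)
      ≤ (m : ℝ) ^ (1 - s) - ((m + N : ℕ) : ℝ) ^ (1 - s) := by
    intro N
    induction N with
    | zero => simp
    | succ N ih =>
      rw [sum_range_succ, mul_add]
      have := rpow_step s hs (m + N) (by omega)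
      rw [← add_assoc]
      linarith
  obtain ⟨N, hN⟩ := S.bddAbove
  have h2 : S ⊆ insert m ((range N).image fun n => m + n + 1) := by
    intro n hn
    have h3 : m ≤ n := by
      rw [hm]
      exact Nat.succ_le_of_lt ((Nat.floor_lt (by linarith)).mpr (hS n hn))
    have h4 : n ≤ N := hN hn
    rw [mem_insert, mem_image]
    by_cases h5 : n = m
    · exact Or.inl h5
    · exact Or.inr ⟨n - m - 1, mem_range.mpr (by omega), by omega⟩
  have h3 : ∑ n ∈ S, (n : ℝ) ^ (-s)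
      ≤ (m : ℝ) ^ (-s) + ∑ n ∈ range N, ((m + n + 1 : ℕ) : ℝ) ^ (-s) := by
    refine (sum_le_sum_of_subset_of_nonneg h2 fun n _ _ => by positivity).trans ?_
    rw [sum_insert (by simp; omega), sum_image (fun a _ b _ h => by simpa using h)]
  have hx0 : 0 < x := by linarith
  have h4 : (m : ℝ) ^ (1 - s) ≤ x ^ (1 - s) :=
    Real.rpow_le_rpow_of_nonpos hx0 hmx.le (by linarith)
  have h5 : (m : ℝ) ^ (-s) ≤ (m : ℝ) ^ (1 - s) :=
    Real.rpow_le_rpow_of_exponent_le (by linarith) (by linarith)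
  have h6 := h1 N
  have h7 : (0 : ℝ) ≤ ((m + N : ℕ) : ℝ) ^ (1 - s) := by positivity
  have h8 : ∑ n ∈ range N, ((m + n + 1 : ℕ) : ℝ) ^ (-s) ≤ 1 / (s - 1) * x ^ (1 - s) := by
    rw [one_div, ← div_eq_inv_mul, le_div_iff₀ (by linarith)]
    linarith
  linarith

theorem greedy {ι : Type} (B : Finset ι) (u : ι → ℂ) (g : ι → ℝ) (hg : ∀ p, 0 ≤ g p) (E ρ : ℝ)
    (hE : 0 ≤ E) (h : ∀ r : ℂ, E < ‖r‖ → ∃ I ⊆ B, ρ ≤ ∑ p ∈ I, g p ∧ ∀ p ∈ I, ‖r - u p‖ ≤ ‖r‖ - g p)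
    (w : ℂ) (hw : ‖w‖ ≤ ρ) : ∃ S ⊆ B, ‖w - ∑ p ∈ S, u p‖ ≤ E := by
  classical
  obtain ⟨S, hS, hmax⟩ := exists_max_image
    (B.powerset.filter fun S => ‖w - ∑ p ∈ S, u p‖ ≤ ‖w‖ - ∑ p ∈ S, g p) card ⟨∅, by simp⟩
  rw [mem_filter, mem_powerset] at hS
  refine ⟨S, hS.1, ?_⟩
  by_contra hc
  push Not at hc
  obtain ⟨I, hI, h1, h2⟩ := h _ hc
  by_cases h3 : I ⊆ S
  · have := sum_le_sum_of_subset_of_nonneg h3 (fun p _ _ => hg p)
    linarith [hS.2]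
  · obtain ⟨p, hp, hpS⟩ := not_subset.mp h3
    have := hmax (insert p S) (by
      rw [mem_filter, mem_powerset, sum_insert hpS, sum_insert hpS]
      refine ⟨insert_subset (hI hp) hS.1, ?_⟩
      have := h2 p hp
      rw [sub_sub, add_comm] at this
      linarith [hS.2])
    rw [card_insert_of_notMem hpS] at this
    omega

theorem fill {ι : Type} [DecidableEq ι] (B : ℕ → Finset ι)
    (hB : ∀ i j, i ≠ j → Disjoint (B i) (B j)) (u : ι → ℂ) (ρ : ℕ → ℝ)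
    (h : ∀ j (w : ℂ), ‖w‖ ≤ ρ j → ∃ S ⊆ B j, ‖w - ∑ p ∈ S, u p‖ ≤ ρ (j + 1))
    (w : ℂ) (hw : ‖w‖ ≤ ρ 0) (j : ℕ) :
    ∃ S : Finset ι, (∀ p ∈ S, ∃ i < j, p ∈ B i) ∧ ‖w - ∑ p ∈ S, u p‖ ≤ ρ j := by
  induction j with
  | zero => exact ⟨∅, by simp, by simpa using hw⟩
  | succ j ih =>
    obtain ⟨S, hS, h1⟩ := ih
    obtain ⟨S', hS', h2⟩ := h j _ h1
    refine ⟨S ∪ S', fun p hp => ?_, ?_⟩
    · rcases mem_union.mp hp with hp | hp
      · obtain ⟨i, hi, hp⟩ := hS p hp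
        exact ⟨i, by omega, hp⟩
      · exact ⟨j, by omega, hS' hp⟩
    · rwa [sum_union (disjoint_left.mpr fun p hp hp' => by
        obtain ⟨i, hi, hp⟩ := hS p hp
        exact disjoint_left.mp (hB i j hi.ne) hp (hS' hp')), ← sub_sub]

theorem mem_closure_of_fill (V : Set ℂ) (g w : ℂ) (ρ : ℕ → ℝ) (hρ : Tendsto ρ atTop (𝓝 0))
    (h : ∀ j, ∃ v : ℂ, g * Complex.exp v ∈ V ∧ ‖w - v‖ ≤ ρ j) : g * Complex.exp w ∈ closure V := by
  choose v hv1 hv2 using h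
  refine mem_closure_of_tendsto (b := atTop) (f := fun j => g * Complex.exp (v j)) ?_
    (Eventually.of_forall hv1)
  refine ((Complex.continuous_exp.tendsto w).comp ?_).const_mul g
  rw [tendsto_iff_norm_sub_tendsto_zero]
  exact squeeze_zero (fun _ => norm_nonneg _) (fun j => by rw [norm_sub_rev]; exact hv2 j) hρ

/-- the primes in `(y, y']` -/
noncomputable def pr (y y' : ℝ) : Finset ℕ := (Ioc ⌊y⌋₊ ⌊y'⌋₊).filter Nat.Prime

theorem mem_pr {y y' : ℝ} (hy : 0 ≤ y) (hy' : 0 ≤ y') {p : ℕ} :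
    p ∈ pr y y' ↔ p.Prime ∧ y < p ∧ (p : ℝ) ≤ y' := by
  rw [pr, mem_filter, mem_Ioc, Nat.floor_lt hy, Nat.le_floor_iff hy']; tauto

theorem theta_sub (y y' : ℝ) (h : y ≤ y') :
    Chebyshev.theta y' - Chebyshev.theta y = ∑ p ∈ pr y y', Real.log p := by
  rw [Chebyshev.theta, Chebyshev.theta, pr, sum_filter, sum_filter, sum_filter,
    ← sum_Ioc_consecutive _ (Nat.zero_le _) (Nat.floor_mono h)]
  ring

theorem theta_lower (γ : ℝ) (hγ : 1 < γ) :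
    ∃ y0 : ℝ, 1 < y0 ∧ ∀ y, y0 ≤ y → (γ - 1) / 2 * y ≤ ∑ p ∈ pr y (γ * y), Real.log p := by
  have h1 := Pool.Agent.Shared.PNTAP.theta_pnt
  have h2 : Tendsto (fun y : ℝ => γ * (Chebyshev.theta (γ * y) / (γ * y)) - Chebyshev.theta y / y)
      atTop (𝓝 (γ * 1 - 1)) :=
    ((h1.comp (tendsto_id.const_mul_atTop (by linarith))).const_mul γ).sub h1
  obtain ⟨y0, hy0⟩ := eventually_atTop.mp (h2.eventually (lt_mem_nhds
    (show (γ - 1) / 2 < γ * 1 - 1 by linarith)))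
  refine ⟨max y0 2, lt_max_of_lt_right one_lt_two, fun y hy => ?_⟩
  have h3 := hy0 y ((le_max_left _ _).trans hy)
  have h4 : 0 < y := by have := (le_max_right _ _).trans hy; linarith
  rw [← theta_sub y _ (by nlinarith)]
  have e : γ * (Chebyshev.theta (γ * y) / (γ * y)) - Chebyshev.theta y / y
      = (Chebyshev.theta (γ * y) - Chebyshev.theta y) / y := by field_simp
  rw [e, lt_div_iff₀ h4] at h3
  exact h3.le

theorem mass_lower (γ y s Y : ℝ) (hγ : 1 < γ) (hy : 1 < y) (hs : 1 ≤ s) (hY : γ * y ≤ Y)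
    (h : (γ - 1) / 2 * y ≤ ∑ p ∈ pr y (γ * y), Real.log p) :
    (γ - 1) / (2 * γ) * Y ^ (1 - s) / Real.log Y ≤ ∑ p ∈ pr y (γ * y), (p : ℝ) ^ (-s) := by
  have h1 : 1 < γ * y := by nlinarith
  have h2 : 0 < Real.log Y := Real.log_pos (by linarith)
  rw [div_le_iff₀ h2, sum_mul]
  have h3 : Y ^ (1 - s) ≤ (γ * y) ^ (1 - s) :=
    Real.rpow_le_rpow_of_nonpos (by linarith) hY (by linarith)
  have h4 : (γ * y) ^ (1 - s) = (γ * y) * (γ * y) ^ (-s) := by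
    rw [sub_eq_add_neg, Real.rpow_add (by linarith), Real.rpow_one]
  have h5 : 0 < (γ * y) ^ (-s) := Real.rpow_pos_of_pos (by linarith) _
  calc (γ - 1) / (2 * γ) * Y ^ (1 - s) ≤ (γ - 1) / (2 * γ) * ((γ * y) * (γ * y) ^ (-s)) := by
        rw [← h4]; exact mul_le_mul_of_nonneg_left h3 (div_nonneg (by linarith) (by linarith))
    _ = (γ - 1) / 2 * y * (γ * y) ^ (-s) := by field_simp
    _ ≤ (∑ p ∈ pr y (γ * y), Real.log p) * (γ * y) ^ (-s) := mul_le_mul_of_nonneg_right h h5.le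
    _ ≤ _ := by
        rw [sum_mul]
        refine sum_le_sum fun p hp => ?_
        obtain ⟨-, a1, a2⟩ := (mem_pr (by linarith) (by linarith)).mp hp
        rw [mul_comm]
        exact mul_le_mul (Real.rpow_le_rpow_of_nonpos (by linarith) a2 (by linarith))
          (Real.log_le_log (by linarith) (a2.trans hY)) (Real.log_nonneg (by linarith))
          (by positivity)

theorem cpow_eq (s t : ℝ) (p : ℕ) (hp : 0 < p) :
    (p : ℂ) ^ ((-s : ℝ) + (t : ℝ) * Complex.I)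
      = (((p : ℝ) ^ (-s) : ℝ) : ℂ) * Complex.exp ((t * Real.log p : ℝ) * Complex.I) := by
  have h0 : (0 : ℝ) < p := by exact_mod_cast hp
  rw [Complex.cpow_def_of_ne_zero (by exact_mod_cast hp.ne'), Real.rpow_def_of_pos h0,
    Complex.ofReal_exp, ← Complex.exp_add, ← Complex.natCast_log]
  congr 1
  push_cast; ring

end Pool.Agent.Lib.MP_3ba922_nt
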