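import Mathlib

set_option autoImplicit false

namespace Pool.Agent.Lib.MP_3ba922_nt

/-- the complex divisor function -/
noncomputable def sigmaC (c : ℂ) (n : ℕ) : ℂ := ∑ d ∈ n.divisors, (d : ℂ) ^ c

/-- the largest radius of an open disk about `1` inside the closure of the values -/
noncomputable def rad (c : ℂ) : ℝ :=
  sSup {R : ℝ | 0 ≤ R ∧ Metric.ball (1 : ℂ) R ⊆ closure (sigmaC c '' {n | 1 ≤ n})}

end Pool.Agent.Lib.MP_3ba922_nt
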