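import Pool.Agent.Lib.MP_3ba922_nt.Asym

/-! Tools for the behaviour near the line `re c = -1`. -/

set_option autoImplicit false

namespace Pool.Agent.Lib.MP_3ba922_nt

open Finset Filter Topology Real

theorem ivt {ι : Type} (A A1 A2 : Finset ι) (x : ι → ℝ) (d τ : ℝ) (hd0 : 0 ≤ d)
    (hd : ∀ p ∈ A, |x p| ≤ d) (h1 : A1 ⊆ A) (h1' : ∑ p ∈ A1, x p ≤ τ) (h2 : A2 ⊆ A)
    (h2' : τ ≤ ∑ p ∈ A2, x p) : ∃ S ⊆ A, τ - d ≤ ∑ p ∈ S, x p ∧ ∑ p ∈ S, x p ≤ τ := by
  classical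
  obtain ⟨S, hS, hmax⟩ := exists_max_image (A.powerset.filter fun S => ∑ p ∈ S, x p ≤ τ)
    (fun S => ∑ p ∈ S, x p) ⟨A1, by simp [h1, h1']⟩
  rw [mem_filter, mem_powerset] at hS
  refine ⟨S, hS.1, ?_, hS.2⟩
  by_contra hc
  have a1 : ∀ p ∈ A, p ∉ S → x p ≤ 0 := fun p hp hpS => by
    have := hmax (insert p S) (by
      rw [mem_filter, mem_powerset, sum_insert hpS]
      exact ⟨insert_subset hp hS.1, by linarith [(abs_le.mp (hd p hp)).2]⟩)
    rw [sum_insert hpS] at this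
    linarith
  have a2 : ∀ p ∈ S, 0 ≤ x p := fun p hp => by
    have e := add_sum_erase S x hp
    have := hmax (S.erase p) (by
      rw [mem_filter, mem_powerset]
      exact ⟨(erase_subset _ _).trans hS.1, by linarith [(abs_le.mp (hd p (hS.1 hp))).1]⟩)
    linarith
  have a3 := sum_le_sum_of_subset_of_nonneg (f := x) (inter_subset_right (s₁ := A2) (s₂ := S))
    fun p hp _ => a2 p hp
  have a4 : ∑ p ∈ A2 \ S, x p ≤ 0 :=
    sum_nonpos fun p hp => a1 p (h2 (mem_sdiff.mp hp).1) (mem_sdiff.mp hp).2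
  have a5 := sum_inter_add_sum_sdiff A2 S x
  linarith

theorem third_le_fk (z : ℂ) (hz : ‖z‖ ≤ 1 / 2) (k : ℕ) : 1 / 3 ≤ ‖fk z k‖ := by
  have h1 : ‖1 - z‖ * ‖fk z k‖ = ‖1 - z ^ (k + 1)‖ := by rw [← norm_mul, fk, mul_neg_geom_sum]
  have h2 := norm_sub_norm_le (1 : ℂ) (z ^ (k + 1))
  have h3 := norm_sub_le (1 : ℂ) z
  have h4 : ‖z ^ (k + 1)‖ ≤ ‖z‖ := by
    rw [norm_pow]; exact pow_le_of_le_one (norm_nonneg _) (by linarith) (by omega)
  rw [norm_one] at h2 h3
  nlinarith [norm_nonneg (fk z k)]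

theorem zz_le_inv (s t : ℝ) (hs : 1 ≤ s) (p : ℕ) (y : ℝ) (hy : 1 ≤ y) (hp : y ≤ p) :
    ‖zz s t p‖ ≤ 1 / y := by
  rw [norm_zz]
  calc (p : ℝ) ^ (-s) ≤ (p : ℝ) ^ (-1 : ℝ) :=
        Real.rpow_le_rpow_of_exponent_le (by linarith) (by linarith)
    _ ≤ 1 / y := by rw [Real.rpow_neg_one, one_div]; exact inv_anti₀ (by linarith) hp

theorem sec_log (s t η : ℝ) (p k : ℕ) (hk : 1 ≤ k) (hη : η ≤ 1 / 2) (hz : (p : ℝ) ^ (-s) ≤ η / 12)
    (h1 : η ≤ cos (t * log p)) (h2 : cos (t * log p) ≤ 2 * η) (h3 : 1 / 2 ≤ sin (t * log p)) :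
    η / 2 * (p : ℝ) ^ (-s) ≤ (Complex.log (fk (zz s t p) k)).re ∧
      (Complex.log (fk (zz s t p) k)).re ≤ 12 * η * (Complex.log (fk (zz s t p) k)).im ∧
      (p : ℝ) ^ (-s) / 4 ≤ (Complex.log (fk (zz s t p) k)).im := by
  have a0 : (0 : ℝ) ≤ (p : ℝ) ^ (-s) := by positivity
  have a1 := norm_log_fk (zz s t p) (by rw [norm_zz]; linarith) k hk
  have a2 := re_zz s t 0 p
  have a3 := im_zz s t 0 p
  simp only [neg_zero, Complex.ofReal_zero, zero_mul, Complex.exp_zero, mul_one, sub_zero] at a2 a3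
  rw [norm_zz] at a1
  have a4 := abs_le.mp ((Complex.abs_re_le_norm _).trans a1)
  have a5 := abs_le.mp ((Complex.abs_im_le_norm _).trans a1)
  rw [Complex.sub_re, a2] at a4
  rw [Complex.sub_im, a3] at a5
  have b1 := mul_le_mul_of_nonneg_left hz a0
  have b2 := mul_le_mul_of_nonneg_left h1 a0
  have b3 := mul_le_mul_of_nonneg_left h2 a0
  have b4 := mul_le_mul_of_nonneg_left h3 a0
  have b5 := mul_le_mul_of_nonneg_left hη a0
  have b6 : (p : ℝ) ^ (-s) / 4 ≤ (Complex.log (fk (zz s t p) k)).im := by linarith [a5.1]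
  have b7 := mul_le_mul_of_nonneg_left b6 (show 0 ≤ η by linarith)
  have b8 := mul_nonneg a0 (show 0 ≤ η by linarith)
  exact ⟨by linarith [a4.1], by linarith [a4.2], b6⟩

theorem big_sector (t η P K : ℝ) (ht : 0 < t) (hη : 0 < η) (hη' : η ≤ 1 / 4) :
    ∃ U : Finset ℕ, (∀ p ∈ U, p.Prime ∧ P < p ∧ η < cos (t * log p) ∧ cos (t * log p) < 2 * η ∧
      1 / 2 < sin (t * log p)) ∧ K < ∑ p ∈ U, (p : ℝ) ^ (-(1 : ℝ)) := by
  have hpi := pi_gt_three
  set θ := arccos (3 / 2 * η) with hθ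
  have hθ0 : 0 ≤ θ := arccos_nonneg _
  have hθ1 : θ ≤ π := arccos_le_pi _
  have hc : cos θ = 3 / 2 * η := cos_arccos (by linarith) (by linarith)
  have hsn : 1 / 2 < sin θ := by
    have := sin_sq_add_cos_sq θ
    have h0 := sin_nonneg_of_nonneg_of_le_pi hθ0 hθ1
    rw [hc] at this
    by_contra h
    nlinarith
  obtain ⟨β, hβ, hβ'⟩ := Metric.eventually_nhds_iff.mp
    (((continuous_cos.tendsto θ).eventually (lt_mem_nhds (show η < cos θ by linarith))).and
    (((continuous_cos.tendsto θ).eventually (gt_mem_nhds (show cos θ < 2 * η by linarith))).and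
    ((continuous_sin.tendsto θ).eventually (lt_mem_nhds hsn))))
  set b := min (β / 2) 1 with hb
  have hb0 : 0 < b := by positivity
  have hb1 : b ≤ 1 := min_le_right _ _
  have hb2 : b ≤ β / 2 := min_le_left _ _
  set γ := exp (b / t) with hγ
  have hγ1 : 1 < γ := one_lt_exp_iff.mpr (by positivity)
  obtain ⟨y0, hy1, hy⟩ := theta_lower γ hγ1
  obtain ⟨n0, hn0⟩ := exists_nat_ge (max y0 P * t)
  set y : ℕ → ℝ := fun n => exp ((θ + (n0 + n : ℕ) * (2 * π)) / t) with hyd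
  have hyy : ∀ n, max y0 P ≤ y n := fun n => by
    refine le_trans ?_ ((le_add_of_nonneg_right zero_le_one).trans (add_one_le_exp _))
    rw [le_div_iff₀ ht]
    push_cast
    nlinarith [Nat.cast_nonneg (α := ℝ) n0, Nat.cast_nonneg (α := ℝ) n]
  have hγy : ∀ n, γ * y n = exp ((θ + b + (n0 + n : ℕ) * (2 * π)) / t) := fun n => by
    rw [hγ, hyd, ← exp_add]; congr 1; ring
  set c := (γ - 1) / (2 * γ) * (t / (2 * π * (n0 + 1))) with hcd
  have hc0 : 0 < c := by have := sub_pos.mpr hγ1; positivity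
  have key : ∀ N, ∃ U : Finset ℕ, (∀ p ∈ U, (p.Prime ∧ P < p ∧ η < cos (t * log p) ∧
      cos (t * log p) < 2 * η ∧ 1 / 2 < sin (t * log p)) ∧ (p : ℝ) ≤ y N) ∧
      c * ∑ n ∈ range N, (1 / (n + 1) : ℝ) ≤ ∑ p ∈ U, (p : ℝ) ^ (-(1 : ℝ)) := by
    intro N
    induction N with
    | zero => exact ⟨∅, by simp, by simp⟩
    | succ N ih =>
      obtain ⟨U, h1, h2⟩ := ih
      have a0 : 1 < y N := hy1.trans_le ((le_max_left _ _).trans (hyy N))
      have a1 : γ * y N ≤ y (N + 1) := by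
        rw [hγy, hyd, exp_le_exp]
        refine div_le_div_of_nonneg_right ?_ ht.le
        push_cast; linarith
      have a2 : y N ≤ γ * y N := by nlinarith
      refine ⟨U ∪ pr (y N) (γ * y N), fun p hp => ?_, ?_⟩
      · rcases mem_union.mp hp with hp | hp
        · exact ⟨(h1 p hp).1, (h1 p hp).2.trans (a2.trans a1)⟩
        · obtain ⟨b0, b1, b2⟩ := (mem_pr (by linarith) (by linarith)).mp hp
          have b3 := (Real.le_log_iff_exp_le (by linarith)).mpr b1.le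
          have b4 := (Real.log_le_iff_le_exp (by linarith)).mpr (b2.trans (hγy N).le)
          rw [div_le_iff₀ ht] at b3
          rw [le_div_iff₀ ht] at b4
          have b5 := @hβ' (t * log p - (n0 + N : ℕ) * (2 * π)) (by
            rw [Real.dist_eq, abs_lt]; constructor <;> linarith)
          rw [cos_sub_nat_mul_two_pi, sin_sub_nat_mul_two_pi] at b5
          exact ⟨⟨b0, ((le_max_right _ _).trans (hyy N)).trans_lt b1, b5⟩, b2.trans a1⟩
      · rw [sum_union (disjoint_left.mpr fun p hp hp' => by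
          linarith [(h1 p hp).2, ((mem_pr (by linarith) (by linarith)).mp hp').2.1]),
          sum_range_succ, mul_add]
        refine add_le_add h2 (le_trans ?_ (mass_lower γ (y N) 1 _ hγ1 a0 le_rfl le_rfl
          (hy _ ((le_max_left _ _).trans (hyy N)))))
        have b1 : 0 < θ + b + (n0 + N : ℕ) * (2 * π) := by positivity
        rw [sub_self, Real.rpow_zero, mul_one, hγy, log_exp, hcd, mul_assoc, div_div_eq_mul_div,
          mul_div_assoc]
        refine mul_le_mul_of_nonneg_left ?_ (by have := sub_pos.mpr hγ1; positivity)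
        rw [mul_one_div, div_div]
        refine div_le_div_of_nonneg_left ht.le b1 ?_
        push_cast
        nlinarith [mul_nonneg (Nat.cast_nonneg (α := ℝ) n0) (Nat.cast_nonneg (α := ℝ) N)]
  obtain ⟨N, hN⟩ := ((tendsto_sum_range_one_div_nat_succ_atTop.const_mul_atTop
    hc0).eventually_gt_atTop K).exists
  obtain ⟨U, h1, h2⟩ := key N
  exact ⟨U, fun p hp => (h1 p hp).1, hN.trans_le h2⟩

theorem mass_upper (s y Γ : ℝ) (hs : 1 ≤ s) (hy : 1 < y) (hΓ : 0 ≤ Γ) (S : Finset ℕ)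
    (hS : ∀ p ∈ S, p.Prime ∧ y < p ∧ (p : ℝ) ≤ Γ * y) :
    ∑ p ∈ S, (p : ℝ) ^ (-s) ≤ Γ * log 4 / log y := by
  have h1 := log_pos hy
  have h2 := Chebyshev.theta_le_log4_mul_x (x := Γ * y) (by positivity)
  have h3 : ∑ p ∈ S, log p ≤ Chebyshev.theta (Γ * y) := by
    refine sum_le_sum_of_subset_of_nonneg (fun p hp => ?_) fun p _ _ => log_natCast_nonneg p
    rw [mem_filter, mem_Ioc, Nat.le_floor_iff (by positivity)]
    exact ⟨⟨(hS p hp).1.pos, (hS p hp).2.2⟩, (hS p hp).1⟩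
  rw [le_div_iff₀ h1, sum_mul]
  refine le_of_mul_le_mul_right (le_trans ?_ (h3.trans (h2.trans_eq (by ring))))
    (show 0 < y by linarith)
  rw [sum_mul]
  refine sum_le_sum fun p hp => ?_
  have a1 := zz_le_inv s 0 hs p y hy.le (hS p hp).2.1.le
  rw [norm_zz, le_div_iff₀ (by linarith)] at a1
  have a2 := log_le_log (by linarith) (hS p hp).2.1.le
  nlinarith

end Pool.Agent.Lib.MP_3ba922_nt
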