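import Pool.Agent.Lib.MP_3ba922_nt.Edge1

/-! Sparse filling and the assembly of a prescribed value. -/

set_option autoImplicit false

namespace Pool.Agent.Lib.MP_3ba922_nt

open Finset Filter Topology Real

/-- the sparse filling set -/
def spF (t γ u : ℝ) (p : ℕ) : Prop := ∃ i : ℕ, p ∈ blk t (π / 4) γ (t * (u * 2 ^ i)) 8

theorem mem_sp {t γ v : ℝ} {p : ℕ} (ht : 0 < t) (hγ : 0 < γ) (hγt : γ ≤ exp (π / 4 / t))
    (hp : p ∈ blk t (π / 4) γ (t * v) 8) :
    p.Prime ∧ exp v < p ∧ (p : ℝ) ≤ exp (2 * π / t) * exp v := by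
  have hpi := pi_pos
  obtain ⟨a0, i, hi, a1, a2⟩ := mem_blk hγ hp
  have hi' : (i : ℝ) ≤ 7 := by exact_mod_cast Nat.lt_succ_iff.mp hi
  have hi0 : (0 : ℝ) ≤ i := Nat.cast_nonneg i
  refine ⟨a0, lt_of_le_of_lt (exp_le_exp.mpr ?_) a1, a2.trans
    ((mul_le_mul_of_nonneg_right hγt (exp_pos _).le).trans ?_)⟩
  · rw [le_div_iff₀ ht]; nlinarith
  · rw [← exp_add, ← exp_add, exp_le_exp, ← add_div, div_add' _ _ _ ht.ne']
    exact div_le_div_of_nonneg_right (by nlinarith) ht.le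

theorem sp_mass (s t γ u : ℝ) (hs : 1 ≤ s) (ht : 0 < t) (hγ : 0 < γ) (hγt : γ ≤ exp (π / 4 / t))
    (hu : 0 < u) (S : Finset ℕ) (hS : ∀ p ∈ S, spF t γ u p) :
    ∑ p ∈ S, (p : ℝ) ^ (-s) ≤ 2 * (exp (2 * π / t) * log 4 / u) := by
  classical
  choose! f hf using hS
  have h4 : 0 < log 4 := log_pos (by norm_num)
  rw [← sum_fiberwise_of_maps_to (t := range (S.sup f + 1)) (g := f)
    fun p hp => mem_range.mpr (Nat.lt_succ_of_le (le_sup hp))]
  refine le_trans (sum_le_sum (g := fun i => (1 / 2) ^ i * (exp (2 * π / t) * log 4 / u))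
    fun i _ => ?_) ?_
  · refine (mass_upper s (exp (u * 2 ^ i)) (exp (2 * π / t)) hs
      (one_lt_exp_iff.mpr (by positivity)) (exp_pos _).le _ fun p hp => ?_).trans_eq ?_
    · obtain ⟨h1, rfl⟩ := mem_filter.mp hp
      exact mem_sp ht hγ hγt (hf p h1)
    · rw [log_exp, one_div_pow]; field_simp
  · rw [← sum_mul]
    exact mul_le_mul_of_nonneg_right (sum_geometric_two_le _) (by positivity)

theorem sp_fill (s t γ u y0 : ℝ) (hs : 1 < s) (hs' : s ≤ 9 / 8) (ht : 0 < t) (hγ : 1 < γ)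
    (hγt : γ ≤ exp (π / 4 / t)) (hu : 2 * π / t ≤ u)
    (hy : ∀ y, y0 ≤ y → (γ - 1) / 2 * y ≤ ∑ p ∈ pr y (γ * y), Real.log p)
    (h1 : y0 ≤ exp u) (h2 : exp (-u) ≤ sin (π / 4) / 24) (h3 : (s - 1) * (2 * u) ≤ 1)
    (h4 : ∀ v, u ≤ v → exp (-v / 4) * (2 * v) ≤ sin (π / 4) ^ 2 * (γ - 1) / (8 * γ)) :
    ∃ ρ : ℕ → ℝ, Tendsto ρ atTop (𝓝 0) ∧ ∀ w : ℂ,
      ‖w‖ ≤ sin (π / 4) / 2 * ((γ - 1) / (2 * γ) * exp (-1) / (2 * u)) → ∀ j,
      ∃ S : Finset ℕ, (∀ p ∈ S, spF t γ u p) ∧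
        ‖w - ∑ p ∈ S, Complex.log (fk (zz s t p) 1)‖ ≤ ρ j := by
  have hpi := pi_pos
  have hs0 : 0 < sin (π / 4) := sin_pos_of_pos_of_lt_pi (by linarith) (by linarith)
  have hu0 : 0 < u := lt_of_lt_of_le (by positivity) hu
  have hγ0 := sub_pos.mpr hγ
  have hv : ∀ j : ℕ, u ≤ u * 2 ^ j := fun j =>
    le_mul_of_one_le_right hu0.le (one_le_pow₀ one_le_two)
  let ρ : ℕ → ℝ := fun j => Nat.casesOn j (sin (π / 4) / 2 * ((γ - 1) / (2 * γ) * exp (-1) / (2 * u)))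
    fun j => 2 / sin (π / 4) * exp (-(u * 2 ^ j) * s)
  refine ⟨ρ, ?_, fun w hw j => ?_⟩
  · rw [← tendsto_add_atTop_iff_nat 1, ← mul_zero (2 / sin (π / 4))]
    exact (tendsto_exp_atBot.comp ((tendsto_neg_atTop_atBot.comp
      ((tendsto_pow_atTop_atTop_of_one_lt one_lt_two).const_mul_atTop hu0)).atBot_mul_const
        (by linarith))).const_mul _
  have key := fill (fun j => blk t (π / 4) γ (t * (u * 2 ^ j)) 8) (fun i j hij => ?_)
    (fun p => Complex.log (fk (zz s t p) 1)) ρ (fun j w hw => ?_) w hw j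
  · obtain ⟨S, hS, h⟩ := key
    exact ⟨S, fun p hp => (hS p hp).imp fun i hi => hi.2, h⟩
  · wlog hlt : i < j generalizing i j
    · exact (this j i hij.symm (by omega)).symm
    refine disjoint_left.mpr fun p hp hp' => ?_
    have a1 := (mem_sp ht (by linarith) hγt hp).2.2
    have a2 := (mem_sp ht (by linarith) hγt hp').2.1.trans_le a1
    rw [← exp_add, exp_lt_exp] at a2
    have a3 : (2 : ℝ) ^ (i + 1) ≤ 2 ^ j := pow_le_pow_right₀ one_le_two hlt
    rw [pow_succ] at a3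
    nlinarith [hv i]
  · set v := u * 2 ^ j with hvd
    have hv1 : u ≤ v := hv j
    have e : -(t * v) * s / t = -v * s := by field_simp
    have := block s t (π / 4) γ (t * v) (ρ j) 8 (by linarith) ht (by linarith)
      (by push_cast; ring) (by linarith) (by linarith) hγt
      (by rw [e]; exact (exp_le_exp.mpr (by nlinarith)).trans h2) (fun i hi => ?_) w hw
    · rwa [e] at this
    have hi' : (i : ℝ) ≤ 7 := by exact_mod_cast Nat.lt_succ_iff.mp hi
    have hi0 : (0 : ℝ) ≤ i := Nat.cast_nonneg i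
    have a1 : exp u ≤ exp ((t * v + i * (π / 4)) / t) := by
      rw [exp_le_exp, le_div_iff₀ ht]; nlinarith
    rw [div_le_iff₀ ht] at hu
    have a2 := mass_lower γ _ s (exp (2 * v)) hγ ((one_lt_exp_iff.mpr hu0).trans_le a1)
      hs.le ((mul_le_mul_of_nonneg_right hγt (exp_pos _).le).trans (by
        rw [← exp_add, exp_le_exp, ← add_div, div_le_iff₀ ht]
        nlinarith)) (hy _ (h1.trans a1))
    refine le_trans ?_ (mul_le_mul_of_nonneg_left a2 (by positivity))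
    rw [log_exp, ← exp_mul]
    rcases j with - | j
    · have : v = u := by rw [hvd, pow_zero, mul_one]
      rw [this]
      change sin (π / 4) / 2 * ((γ - 1) / (2 * γ) * exp (-1) / (2 * u)) ≤ _
      gcongr
      linarith
    · change 2 / sin (π / 4) * exp (-(u * 2 ^ j) * s) ≤ _
      have a3 : u * 2 ^ j = v / 2 := by rw [hvd, pow_succ]; ring
      have a4 : exp (-(v / 2) * s) ≤ exp (2 * v * (1 - s)) * exp (-v / 4) := by
        rw [← exp_add, exp_le_exp]; nlinarith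
      rw [a3, ← mul_div_assoc, le_div_iff₀ (by linarith)]
      calc _ ≤ 2 / sin (π / 4) * (exp (2 * v * (1 - s)) * exp (-v / 4)) * (2 * v) := by
            have : 0 ≤ v := by linarith
            gcongr
        _ = 2 / sin (π / 4) * exp (2 * v * (1 - s)) * (exp (-v / 4) * (2 * v)) := by ring
        _ ≤ 2 / sin (π / 4) * exp (2 * v * (1 - s)) * (sin (π / 4) ^ 2 * (γ - 1) / (8 * γ)) :=
            mul_le_mul_of_nonneg_left (h4 v hv1) (by positivity)
        _ = _ := by field_simp; ring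

theorem assemble (s t η μ ρ0 : ℝ) (P : ℕ) (F : ℕ → Prop) (H V : Finset ℕ) (hs : 1 < s)
    (hF : ∀ S : Finset ℕ, (∀ p ∈ S, F p) → ∑ p ∈ S, (p : ℝ) ^ (-s) ≤ μ) (hμ : μ ≤ 1 / 4)
    (hFp : ∀ p, F p → p.Prime)
    (hfill : ∃ ρ : ℕ → ℝ, Tendsto ρ atTop (𝓝 0) ∧ ∀ w : ℂ, ‖w‖ ≤ ρ0 → ∀ j,
      ∃ S : Finset ℕ, (∀ p ∈ S, F p) ∧ ‖w - ∑ p ∈ S, Complex.log (fk (zz s t p) 1)‖ ≤ ρ j)
    (hsec : ∀ p, p ∈ H ∨ p ∈ V → p.Prime ∧ P < p ∧ η ≤ cos (t * log p) ∧
      cos (t * log p) ≤ 2 * η ∧ 1 / 2 ≤ sin (t * log p)) (hHV : Disjoint H V)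
    (hη : 0 < η) (hη' : η ≤ 1 / 2) (hP : 12 / η ≤ P) (hρ : 4 / P + 24 * π * η ≤ ρ0)
    (hH : 2 / η * ((P + 2) * log 3) + μ ≤ ∑ p ∈ H, (p : ℝ) ^ (-s))
    (hV : 8 * π + μ ≤ ∑ p ∈ V, (p : ℝ) ^ (-s)) (g0 v : ℂ)
    (hg : g0 ∈ sigmaC ((-s : ℝ) + (t : ℝ) * Complex.I) '' {n | 1 ≤ n})
    (h1 : ‖g0‖ ≤ (1 - 2 * μ) * ‖v‖) (h2 : ‖v‖ ≤ 2) :
    v ∈ closure (sigmaC ((-s : ℝ) + (t : ℝ) * Complex.I) '' {n | 1 ≤ n}) := by
  classical
  have hpi := pi_pos
  obtain ⟨S0, k0, hk0, rfl⟩ := exists_prod' s t g0 hg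
  obtain ⟨ρ, hρ0, hfill⟩ := hfill
  have hP24 : (24 : ℝ) ≤ P := le_trans (by rw [le_div_iff₀ hη]; linarith) hP
  have hPη : 1 / (P : ℝ) ≤ η / 12 := by
    rw [div_le_iff₀ hη] at hP
    rw [div_le_iff₀ (by linarith)]; linarith
  have hz : ∀ p, P < p → (p : ℝ) ^ (-s) ≤ 1 / P := fun p hp => by
    rw [← norm_zz s t p]
    exact zz_le_inv s t hs.le p P (by linarith) (by exact_mod_cast hp.le)
  have hz2 : ∀ p : ℕ, p.Prime → ‖zz s t p‖ ≤ 1 / 2 := fun p hp =>
    zz_le_inv s t hs.le p 2 one_le_two (by exact_mod_cast hp.two_le)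
  set X : ℕ → Prop := fun p => F p ∨ p ∈ H ∨ p ∈ V with hX
  set k : ℕ → ℕ := fun p => if X p then 1 else max 1 (k0 p) with hk
  have hk1 : ∀ p, 1 ≤ k p := fun p => by
    simp only [hk]
    split_ifs
    exacts [le_rfl, le_max_left _ _]
  set f : ℕ → ℂ := fun p => fk (zz s t p) (k p) with hf
  set L : ℕ → ℂ := fun p => Complex.log (f p) with hL
  have hL1 : ∀ p, P < p → ‖L p‖ ≤ 2 / P := fun p hp => by
    have := norm_log_fk_le (zz s t p) (by rw [norm_zz]; linarith [hz p hp]) _ (hk1 p)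
    rw [norm_zz] at this
    rw [div_eq_mul_one_div]
    linarith [hz p hp]
  have hL2 : ∀ p, p ∈ H ∨ p ∈ V → ∀ k, 1 ≤ k → _ := fun p hp k hk =>
    sec_log s t η p k hk hη' ((hz p (hsec p hp).2.1).trans hPη) (hsec p hp).2.2.1
      (hsec p hp).2.2.2.1 (hsec p hp).2.2.2.2
  have hexp : ∀ S : Finset ℕ, (∀ p ∈ S, P < p) → ∏ p ∈ S, f p = Complex.exp (∑ p ∈ S, L p) :=
    fun S hS => exp_sum_log s t S k fun p hp => by linarith [hz p (hS p hp)]
  set S1 := S0.filter fun p => ¬ X p with hS1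
  set Slo := S1.filter fun p => ¬ P < p with hSlo
  set Shi := S1.filter fun p => P < p with hShi
  have hS1p : ∀ p ∈ S1, p.Prime := fun p hp => (hk0 p (mem_filter.mp hp).1).1
  set g := ∏ p ∈ Slo, f p with hgd
  have g1 : (1 / 3 : ℝ) ^ (P + 1) ≤ ‖g‖ := by
    rw [norm_prod]
    refine le_trans (pow_le_pow_of_le_one (by norm_num) (by norm_num) ?_)
      (le_trans (prod_const _).ge (prod_le_prod (fun _ _ => by norm_num) fun p hp =>
        third_le_fk _ (hz2 p (hS1p p (mem_filter.mp hp).1)) _))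
    exact (card_le_card fun p hp => mem_range.mpr (by have := (mem_filter.mp hp).2; omega)).trans
      (card_range _).le
  have g0 : 0 < ‖g‖ := lt_of_lt_of_le (by positivity) g1
  have g2 : ‖g‖ * exp (∑ p ∈ Shi, (L p).re) ≤ ‖v‖ := by
    have a1 : ‖g‖ * exp (∑ p ∈ Shi, (L p).re) = ‖∏ p ∈ S1, fk (zz s t p) (k0 p)‖ := by
      rw [← Complex.re_sum, ← Complex.norm_exp, ← hexp _ fun p hp => (mem_filter.mp hp).2,
        ← norm_mul, mul_comm, prod_filter_mul_prod_filter_not]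
      refine congrArg _ (prod_congr rfl fun p hp => ?_)
      simp only [hf, hk, if_neg (mem_filter.mp hp).2, max_eq_right (hk0 p (mem_filter.mp hp).1).2]
    have a2 := one_sub_sum_le_prod (S0.filter X)
      (fun p => if F p then 2 * (p : ℝ) ^ (-s) else 0) (fun p => ‖fk (zz s t p) (k0 p)‖)
      (fun p _ => by split_ifs <;> positivity) (fun p hp => by
        obtain ⟨b1, b2⟩ := mem_filter.mp hp
        split_ifs with h
        · rw [← norm_zz s t p]; exact norm_fk_ge _ (hz2 p (hk0 p b1).1) _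
        · have b3 := (hL2 p (b2.resolve_left h) _ (hk0 p b1).2).1
          have b4 := third_le_fk _ (hz2 p (hk0 p b1).1) (k0 p)
          rw [Complex.log_re] at b3
          rw [sub_zero, ← log_nonneg_iff (by linarith)]
          exact le_trans (by positivity) b3) (fun p _ => norm_nonneg _)
    rw [sum_ite, sum_const_zero, add_zero, ← mul_sum, ← norm_prod] at a2
    have a3 := hF ((S0.filter X).filter F) fun p hp => (mem_filter.mp hp).2
    rw [← prod_filter_mul_prod_filter_not S0 X, norm_mul] at h1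
    rw [a1]
    refine le_of_mul_le_mul_left (le_trans ?_ h1) (by linarith)
    exact mul_le_mul_of_nonneg_right (by linarith) (norm_nonneg _)
  have v0 : 0 < ‖v‖ := lt_of_lt_of_le (by positivity) g2
  have hmass : ∀ U : Finset ℕ, ∑ p ∈ U, (p : ℝ) ^ (-s) - μ
      ≤ ∑ p ∈ U.filter (fun p => ¬ F p), (p : ℝ) ^ (-s) := fun U => by
    have a1 := hF (U.filter F) fun p hp => (mem_filter.mp hp).2
    linarith [sum_filter_add_sum_filter_not U F fun p => (p : ℝ) ^ (-s)]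
  set w := Complex.log (v / g) with hw
  have hwr : w.re = log ‖v‖ - log ‖g‖ := by
    rw [hw, Complex.log_re, norm_div, log_div v0.ne' g0.ne']
  have hA : ∀ p ∈ Shi ∪ H.filter (fun p => ¬ F p), p.Prime ∧ P < p ∧ ¬ F p ∧ p ∉ V := fun p hp => by
    rcases mem_union.mp hp with hp | hp
    · obtain ⟨b1, b2⟩ := mem_filter.mp hp
      have b3 := (mem_filter.mp b1).2
      exact ⟨hS1p p b1, b2, fun h => b3 (Or.inl h), fun h => b3 (Or.inr (Or.inr h))⟩
    · obtain ⟨b1, b2⟩ := mem_filter.mp hp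
      exact ⟨(hsec p (Or.inl b1)).1, (hsec p (Or.inl b1)).2.1, b2, disjoint_left.mp hHV b1⟩
  obtain ⟨A, hA1, hA2, hA3⟩ := ivt (Shi ∪ H.filter fun p => ¬ F p) Shi (H.filter fun p => ¬ F p)
    (fun p => (L p).re) (2 / P) w.re (by positivity)
    (fun p hp => (Complex.abs_re_le_norm _).trans (hL1 p (hA p hp).2.1)) subset_union_left
    (by
      have := log_le_log (by positivity) g2
      rw [log_mul g0.ne' (exp_pos _).ne', log_exp] at this
      linarith) subset_union_right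
    (by
      have a1 : η / 2 * ∑ p ∈ H.filter (fun p => ¬ F p), (p : ℝ) ^ (-s)
          ≤ ∑ p ∈ H.filter (fun p => ¬ F p), (L p).re := by
        rw [mul_sum]
        exact sum_le_sum fun p hp => (hL2 p (Or.inl (mem_filter.mp hp).1) _ (hk1 p)).1
      have a2 := mul_le_mul_of_nonneg_left ((le_sub_iff_add_le.mpr hH).trans (hmass H))
        (show 0 ≤ η / 2 by linarith)
      rw [← mul_assoc, show η / 2 * (2 / η) = 1 by field_simp] at a2
      have a3 := log_le_log (by positivity) g1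
      rw [log_pow, one_div, log_inv] at a3
      have a4 := log_le_log v0 (h2.trans (show (2 : ℝ) ≤ 3 by norm_num))
      push_cast at a3
      linarith)
  set n := toIcoDiv two_pi_pos 0 (w.im - ∑ p ∈ A, (L p).im) with hn
  have hθ := sub_toIcoDiv_zsmul_mem_Ico two_pi_pos 0 (w.im - ∑ p ∈ A, (L p).im)
  rw [← hn, zero_add, zsmul_eq_mul] at hθ
  obtain ⟨B, hB1, hB2, hB3⟩ := ivt (V.filter fun p => ¬ F p) ∅ (V.filter fun p => ¬ F p)
    (fun p => (L p).im) (2 / P) (w.im - ∑ p ∈ A, (L p).im - n * (2 * π)) (by positivity)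
    (fun p hp => (Complex.abs_im_le_norm _).trans
      (hL1 p (hsec p (Or.inr (mem_filter.mp hp).1)).2.1)) (empty_subset _) hθ.1 subset_rfl
    (by
      have a1 : (∑ p ∈ V.filter (fun p => ¬ F p), (p : ℝ) ^ (-s)) / 4
          ≤ ∑ p ∈ V.filter (fun p => ¬ F p), (L p).im := by
        rw [sum_div]
        exact sum_le_sum fun p hp => (hL2 p (Or.inr (mem_filter.mp hp).1) _ (hk1 p)).2.2
      linarith [hmass V, hθ.2])
  have hBV : ∀ p ∈ B, p ∈ V := fun p hp => (mem_filter.mp (hB1 hp)).1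
  have hB4 : 0 ≤ ∑ p ∈ B, (L p).re := sum_nonneg fun p hp =>
    le_trans (by positivity) (hL2 p (Or.inr (hBV p hp)) _ (hk1 p)).1
  have hB5 : ∑ p ∈ B, (L p).re ≤ 12 * η * ∑ p ∈ B, (L p).im := by
    rw [mul_sum]
    exact sum_le_sum fun p hp => (hL2 p (Or.inr (hBV p hp)) _ (hk1 p)).2.1
  have hB6 := mul_le_mul_of_nonneg_left (hB3.trans hθ.2.le) (show 0 ≤ 12 * η by linarith)
  set w' := w - ∑ p ∈ A, L p - ∑ p ∈ B, L p - n * (2 * π * Complex.I) with hw'
  have hw1 : ‖w'‖ ≤ ρ0 := by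
    have e1 : w'.re = w.re - ∑ p ∈ A, (L p).re - ∑ p ∈ B, (L p).re := by simp [hw']
    have e2 : w'.im = w.im - ∑ p ∈ A, (L p).im - ∑ p ∈ B, (L p).im - n * (2 * π) := by simp [hw']
    have e3 : (0 : ℝ) ≤ 2 / P := by positivity
    have e4 : (4 : ℝ) / P = 2 / P + 2 / P := by ring
    refine (Complex.norm_le_abs_re_add_abs_im _).trans (le_trans (add_le_add
      (b := 2 / P + 24 * π * η) (d := 2 / P) (abs_le.mpr ⟨?_, ?_⟩) (abs_le.mpr ⟨?_, ?_⟩)) ?_) <;>
      linarith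
  have hAP : ∀ p ∈ A, P < p := fun p hp => (hA p (hA1 hp)).2.1
  have hBP : ∀ p ∈ B, P < p := fun p hp => (hsec p (Or.inr (hBV p hp))).2.1
  have d1 : Disjoint A B := disjoint_left.mpr fun p hp hp' => (hA p (hA1 hp)).2.2.2 (hBV p hp')
  have d2 : Disjoint Slo (A ∪ B) := disjoint_left.mpr fun p hp hp' =>
    (mem_filter.mp hp).2 ((mem_union.mp hp').elim (hAP p) (hBP p))
  have hT : ∀ p ∈ Slo ∪ (A ∪ B), p.Prime ∧ ¬ F p := fun p hp => by
    rcases mem_union.mp hp with hp | hp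
    · have b1 := (mem_filter.mp hp).1
      exact ⟨hS1p p b1, fun h => (mem_filter.mp b1).2 (Or.inl h)⟩
    · rcases mem_union.mp hp with hp | hp
      · exact ⟨(hA p (hA1 hp)).1, (hA p (hA1 hp)).2.2.1⟩
      · exact ⟨(hsec p (Or.inr (hBV p hp))).1, (mem_filter.mp (hB1 hp)).2⟩
  have e : v = (∏ p ∈ Slo ∪ (A ∪ B), f p) * Complex.exp w' := by
    rw [prod_union d2, prod_union d1, hexp A hAP, hexp B hBP, ← hgd, ← Complex.exp_add, mul_assoc,
      ← Complex.exp_add, hw', show ∀ a b c d : ℂ, a + b + (c - a - b - d) = c - d by intros; ring,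
      Complex.exp_sub, Complex.exp_int_mul_two_pi_mul_I, div_one, hw,
      Complex.exp_log (div_ne_zero (norm_pos_iff.mp v0) (norm_pos_iff.mp g0)),
      mul_div_cancel₀ _ (norm_pos_iff.mp g0)]
  rw [e]
  refine mem_closure_of_fill _ _ w' ρ hρ0 fun j => ?_
  obtain ⟨S, hS, h⟩ := hfill w' hw1 j
  refine ⟨_, ?_, h⟩
  have e2 : ∏ p ∈ S, fk (zz s t p) 1 = ∏ p ∈ S, f p :=
    prod_congr rfl fun p hp => by simp only [hf, hk, if_pos (show X p from Or.inl (hS p hp))]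
  rw [← exp_sum_log s t S (fun _ => 1) fun p hp => by
    simpa using (hF {p} (by simpa using hS p hp)).trans hμ, e2,
    ← prod_union (disjoint_left.mpr fun p hp hp' => (hT p hp).2 (hS p hp'))]
  exact prod_mem' s t _ (fun p hp => (mem_union.mp hp).elim (fun h => (hT p h).1)
    fun h => hFp p (hS p h)) k

end Pool.Agent.Lib.MP_3ba922_nt
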