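import Pool.Agent.Lib.MP_3ba922_nt.Edge2

/-! The radius against the least modulus, near the line `re c = -1`. -/

set_option autoImplicit false

namespace Pool.Agent.Lib.MP_3ba922_nt

open Finset Filter Topology Real

noncomputable def low (c : ℂ) : ℝ := ⨅ n : ℕ, ‖sigmaC c (n + 1)‖

theorem low_bdd (c : ℂ) : BddBelow (Set.range fun n : ℕ => ‖sigmaC c (n + 1)‖) :=
  ⟨0, by rintro _ ⟨n, rfl⟩; exact norm_nonneg _⟩

theorem low_le (c v : ℂ) (hv : v ∈ sigmaC c '' {n | 1 ≤ n}) : low c ≤ ‖v‖ := by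
  obtain ⟨n, hn, rfl⟩ := hv
  obtain ⟨n, rfl⟩ := Nat.exists_eq_add_of_le' hn
  exact ciInf_le (low_bdd c) n

theorem le_low (c : ℂ) (a : ℝ) (h : ∀ v ∈ sigmaC c '' {n | 1 ≤ n}, a ≤ ‖v‖) : a ≤ low c :=
  le_ciInf fun n => h _ ⟨n + 1, Nat.le_add_left 1 n, rfl⟩

theorem exists_lt_low (c : ℂ) (a : ℝ) (h : low c < a) :
    ∃ v ∈ sigmaC c '' {n | 1 ≤ n}, ‖v‖ < a := by
  by_contra hc
  push Not at hc
  exact absurd (le_low c a hc) (not_le.mpr h)

theorem low_le_one (c : ℂ) : low c ≤ 1 := by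
  simpa [sigmaC] using low_le c (sigmaC c 1) ⟨1, le_refl 1, rfl⟩

theorem low_abs (c : ℂ) : low ((c.re : ℝ) + (|c.im| : ℝ) * Complex.I) = low c := by
  rcases abs_choice c.im with h | h <;> rw [h]
  · rw [Complex.re_add_im]
  · have e : ((c.re : ℝ) + (-c.im : ℝ) * Complex.I : ℂ) = (starRingEnd ℂ) c := by
      apply Complex.ext <;> simp
    simp only [e, low, sigmaC_conj, Complex.norm_conj]

theorem ball_le (c : ℂ) (h0 : 0 < low c) (R : ℝ)
    (h : Metric.ball (1 : ℂ) R ⊆ closure (sigmaC c '' {n | 1 ≤ n})) : R ≤ 1 - low c := by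
  by_contra hc
  have h1 := low_le_one c
  have h2 : max (1 - R) 0 < low c := max_lt (by linarith) h0
  have h3 := le_max_left (1 - R) 0
  have h4 := le_max_right (1 - R) 0
  set x := (max (1 - R) 0 + low c) / 2 with hx
  have h5 : (x : ℂ) ∈ Metric.ball (1 : ℂ) R := by
    rw [mem_ball_iff_norm, ← Complex.ofReal_one, ← Complex.ofReal_sub, Complex.norm_real,
      Real.norm_eq_abs, abs_lt]
    constructor <;> linarith
  have h6 := closure_minimal (t := {v : ℂ | low c ≤ ‖v‖}) (fun v hv => low_le c v hv)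
    (isClosed_le continuous_const continuous_norm) (h h5)
  rw [Set.mem_ofPred_eq, Complex.norm_real, Real.norm_of_nonneg (by linarith)] at h6
  linarith

theorem ev_sector (t0 η P K : ℝ) (ht : 0 < t0) (hη : 0 < η) (hη' : η ≤ 1 / 4) :
    ∃ U : Finset ℕ, (∀ p ∈ U, p.Prime ∧ P < p) ∧ ∀ᶠ q : ℝ × ℝ in 𝓝 (1, t0),
      (∀ p ∈ U, η ≤ cos (q.2 * log p) ∧ cos (q.2 * log p) ≤ 2 * η ∧ 1 / 2 ≤ sin (q.2 * log p)) ∧
      K ≤ ∑ p ∈ U, (p : ℝ) ^ (-q.1) := by
  obtain ⟨U, h1, h2⟩ := big_sector t0 η P K ht hη hη'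
  refine ⟨U, fun p hp => ⟨(h1 p hp).1, (h1 p hp).2.1⟩, Eventually.and ?_ ?_⟩
  · refine (eventually_all_finset U).mpr fun p hp => ?_
    have c1 : Continuous fun q : ℝ × ℝ => cos (q.2 * log p) := by fun_prop
    have c2 : Continuous fun q : ℝ × ℝ => sin (q.2 * log p) := by fun_prop
    exact ((c1.tendsto _).eventually (le_mem_nhds (h1 p hp).2.2.1)).and
      (((c1.tendsto _).eventually (ge_mem_nhds (h1 p hp).2.2.2.1)).and
      ((c2.tendsto _).eventually (le_mem_nhds (h1 p hp).2.2.2.2)))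
  · have c1 : Continuous fun q : ℝ × ℝ => ∑ p ∈ U, (p : ℝ) ^ (-q.1) :=
      continuous_finsetSum _ fun p hp => continuous_const.rpow (by fun_prop)
        fun _ => Or.inl (by exact_mod_cast (h1 p hp).1.ne_zero)
    exact (c1.tendsto _).eventually (le_mem_nhds h2)

theorem edge (t0 ε : ℝ) (ht : 0 < t0) (hε : 0 < ε) : ∀ᶠ q : ℝ × ℝ in 𝓝 (1, t0), 1 < q.1 →
    Metric.ball (1 : ℂ) (1 - (1 + ε) * low ((-q.1 : ℝ) + (q.2 : ℝ) * Complex.I))
      ⊆ closure (sigmaC ((-q.1 : ℝ) + (q.2 : ℝ) * Complex.I) '' {n | 1 ≤ n}) := by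
  have hpi := pi_pos
  have hs0 : 0 < sin (π / 4) := sin_pos_of_pos_of_lt_pi (by linarith) (by linarith)
  set γ := exp (π / 4 / (2 * t0)) with hγ
  have hγ1 : 1 < γ := one_lt_exp_iff.mpr (by positivity)
  have hγ0 := sub_pos.mpr hγ1
  obtain ⟨y0, -, hy⟩ := theta_lower γ hγ1
  set μ := ε / (4 * (1 + ε)) with hμ
  have hμ0 : 0 < μ := by positivity
  have hμ1 : μ ≤ 1 / 4 := by rw [hμ, div_le_iff₀ (by positivity)]; linarith
  have hμ2 : (1 - 2 * μ) * (1 + ε) = 1 + ε / 2 := by rw [hμ]; field_simp; ring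
  have t1 : Tendsto (fun v : ℝ => exp (-v / 4) * (2 * v)) atTop (𝓝 0) := by
    have := ((tendsto_pow_mul_exp_neg_atTop_nhds_zero 1).comp
      (tendsto_id.atTop_div_const (show (0 : ℝ) < 4 by norm_num))).const_mul 8
    rw [mul_zero] at this
    refine this.congr fun b => ?_
    simp only [Function.comp, id, neg_div]
    ring
  have t2 : Tendsto (fun u : ℝ => 2 * (exp (2 * π / (t0 / 2)) * log 4 / u)) atTop (𝓝 0) := by
    simpa using (tendsto_id.const_div_atTop (exp (2 * π / (t0 / 2)) * log 4)).const_mul 2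
  obtain ⟨u, u1, u2, u3, u4, u5⟩ := ((eventually_ge_atTop (2 * π / (t0 / 2))).and
    ((tendsto_exp_atTop.eventually_ge_atTop y0).and
    ((tendsto_exp_neg_atTop_nhds_zero.eventually (ge_mem_nhds
      (show 0 < sin (π / 4) / 24 by positivity))).and
    ((eventually_forall_ge_atTop.mpr (t1.eventually (ge_mem_nhds
      (show 0 < sin (π / 4) ^ 2 * (γ - 1) / (8 * γ) by positivity)))).and (t2.eventually (ge_mem_nhds hμ0)))))).exists
  have hu0 : 0 < u := lt_of_lt_of_le (by positivity) u1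
  set ρ0 := sin (π / 4) / 2 * ((γ - 1) / (2 * γ) * exp (-1) / (2 * u)) with hρ0
  have hρ : 0 < ρ0 := by positivity
  set η := min (1 / 4) (ρ0 / (48 * π)) with hη
  have hη0 : 0 < η := by positivity
  have hη1 : η ≤ 1 / 4 := min_le_left _ _
  have hη2 : η ≤ ρ0 / (48 * π) := min_le_right _ _
  obtain ⟨P, hP⟩ := exists_nat_ge (max (12 / η) (8 / ρ0))
  have hP1 := (le_max_left _ _).trans hP
  have hP2 := (le_max_right _ _).trans hP
  have hP3 : 4 / P + 24 * π * η ≤ ρ0 := by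
    have a0 : (0 : ℝ) < P := lt_of_lt_of_le (by positivity) hP2
    rw [div_le_iff₀ hρ] at hP2
    rw [le_div_iff₀ (by positivity)] at hη2
    have : 4 / (P : ℝ) ≤ ρ0 / 2 := by rw [div_le_iff₀ a0]; linarith
    linarith
  obtain ⟨V, hV1, hV2⟩ := ev_sector t0 η P (8 * π + μ) ht hη0 hη1
  obtain ⟨H, hH1, hH2⟩ := ev_sector t0 η (max P (V.sup id) : ℕ) (2 / η * ((P + 2) * log 3) + μ)
    ht hη0 hη1
  have c1 : Continuous fun q : ℝ × ℝ => (q.1 - 1) * (2 * u) := by fun_prop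
  filter_upwards [hV2, hH2, (continuous_fst.tendsto _).eventually
      (ge_mem_nhds (show (1 : ℝ) < 9 / 8 by norm_num)),
    (continuous_snd.tendsto _).eventually (ge_mem_nhds (show t0 < 2 * t0 by linarith)),
    (continuous_snd.tendsto _).eventually (le_mem_nhds (show t0 / 2 < t0 by linarith)),
    (c1.tendsto _).eventually (ge_mem_nhds (show (1 - 1) * (2 * u) < 1 by simp))]
    with q e1 e2 e3 e4 e5 e6 hs v hv
  obtain ⟨s, t⟩ := q
  dsimp only at *
  have ht1 : 0 < t := by linarith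
  have hγt : γ ≤ exp (π / 4 / t) :=
    exp_le_exp.mpr (div_le_div_of_nonneg_left (by linarith) ht1 e4)
  have hΓ : 2 * π / t ≤ 2 * π / (t0 / 2) := div_le_div_of_nonneg_left (by linarith) (by linarith) e5
  set m := low ((-s : ℝ) + (t : ℝ) * Complex.I) with hm
  have hm0 : 0 ≤ m := le_low _ 0 fun _ _ => norm_nonneg _
  rw [mem_ball_iff_norm] at hv
  have a1 := norm_sub_norm_le (1 : ℂ) v
  have a2 := norm_sub_norm_le v 1
  rw [norm_one] at a1 a2
  rw [norm_sub_rev] at a1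
  have a3 : 0 ≤ ε * m := by positivity
  obtain ⟨g, hg, hg'⟩ := exists_lt_low _ ((1 - 2 * μ) * ‖v‖) (by
    have := mul_lt_mul_of_pos_left (show (1 + ε) * m < ‖v‖ by linarith)
      (show 0 < 1 - 2 * μ by linarith)
    rw [← mul_assoc, hμ2] at this
    linarith)
  have hHP : ∀ p ∈ H, max P (V.sup id) < p := fun p hp => by exact_mod_cast (hH1 p hp).2
  refine assemble s t η μ ρ0 P (spF t γ u) H V hs
    (fun S hS => (sp_mass s t γ u hs.le ht1 (by linarith) hγt hu0 S hS).trans (le_trans ?_ u5)) hμ1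
    (fun p hp => hp.elim fun i hi => (mem_sp ht1 (by linarith) hγt hi).1)
    (sp_fill s t γ u y0 hs e3 ht1 hγ1 hγt (hΓ.trans u1) hy u2 u3 e6 u4)
    (fun p hp => hp.elim
      (fun h => ⟨(hH1 p h).1, (le_max_left _ _).trans_lt (hHP p h), e2.1 p h⟩)
      (fun h => ⟨(hV1 p h).1, by exact_mod_cast (hV1 p h).2, e1.1 p h⟩))
    (disjoint_left.mpr fun p hp hp' =>
      absurd ((le_sup (f := id) hp').trans (le_max_right P _)) (not_le.mpr (hHP p hp)))
    hη0 (by linarith) hP1 hP3 e2.2 e1.2 g v hg hg'.le (by linarith)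
  have h4 : 0 < log 4 := log_pos (by norm_num)
  gcongr

end Pool.Agent.Lib.MP_3ba922_nt
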