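import Pool.Agent.Lib.MP_3ba922_nt.Edge3

/-! The size of the least modulus near the line `re c = -1`. -/

set_option autoImplicit false

namespace Pool.Agent.Lib.MP_3ba922_nt

open Finset Filter Topology Real

noncomputable def PS (s t : ℝ) (f : ℝ → ℝ) : ℝ :=
  ∑' p : Nat.Primes, ((p : ℕ) : ℝ) ^ (-s) * f (t * log (p : ℕ))

noncomputable def K0 : ℝ := ∑' p : Nat.Primes, ((p : ℕ) : ℝ) ^ (-2 : ℝ)

theorem sum_rp (s : ℝ) (hs : 1 < s) : Summable fun p : Nat.Primes => ((p : ℕ) : ℝ) ^ (-s) :=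
  Nat.Primes.summable_rpow.mpr (by linarith)

theorem sum_PS (s t : ℝ) (hs : 1 < s) (f : ℝ → ℝ) (K : ℝ) (hf : ∀ x, |f x| ≤ K) :
    Summable fun p : Nat.Primes => ((p : ℕ) : ℝ) ^ (-s) * f (t * log (p : ℕ)) := by
  refine Summable.of_norm_bounded ((sum_rp s hs).mul_right K) fun p => ?_
  rw [norm_mul, Real.norm_of_nonneg (by positivity)]
  exact mul_le_mul_of_nonneg_left (hf _) (by positivity)

theorem zz_sq (s t : ℝ) (hs : 1 ≤ s) (p : ℕ) (hp : 0 < p) :
    ‖zz s t p‖ ^ 2 ≤ (p : ℝ) ^ (-2 : ℝ) := by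
  have h1 : (1 : ℝ) ≤ p := by exact_mod_cast hp
  have := zz_le_inv s t hs p p h1 le_rfl
  rw [Real.rpow_neg (by linarith), Real.rpow_two, ← inv_pow, ← one_div]
  exact pow_le_pow_left₀ (norm_nonneg _) this 2

theorem re_zz' (s t : ℝ) (p : ℕ) : (zz s t p).re = (p : ℝ) ^ (-s) * cos (t * log p) := by
  simpa using re_zz s t 0 p

theorem zeta_cos (s τ : ℝ) (hs : 1 < s) :
    |PS s τ cos - log ‖riemannZeta (-((-s : ℝ) + (τ : ℝ) * Complex.I))‖| ≤ K0 := by
  have h1 := riemannZeta_eulerProduct_exp_log (s := -((-s : ℝ) + (τ : ℝ) * Complex.I))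
    (by simpa using hs)
  have h2 : ∀ p : Nat.Primes, ‖-Complex.log (1 - zz s τ p) - zz s τ p‖
      ≤ ((p : ℕ) : ℝ) ^ (-2 : ℝ) := fun p => by
    have a1 := zz_le_inv s τ hs.le p 2 one_le_two (by exact_mod_cast p.2.two_le)
    have a2 := Complex.norm_log_one_add_sub_self_le (z := -zz s τ p) (by rw [norm_neg]; linarith)
    have a3 : (1 - ‖zz s τ p‖)⁻¹ ≤ 2 := by
      rw [inv_le_comm₀ (by linarith) (by norm_num)]; linarith
    rw [norm_neg, ← sub_eq_add_neg, sub_neg_eq_add] at a2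
    rw [← norm_neg, neg_sub, sub_neg_eq_add, add_comm]
    nlinarith [zz_sq s τ hs.le p p.2.pos, sq_nonneg ‖zz s τ p‖]
  have h3 := Summable.of_norm_bounded (sum_rp 2 one_lt_two) h2
  have h4 : Summable fun p : Nat.Primes => zz s τ p :=
    Summable.of_norm_bounded (sum_rp s hs) fun p => (norm_zz s τ p).le
  have h5 := tsum_of_norm_bounded (sum_rp 2 one_lt_two).hasSum h2
  have h6 : ∑' p : Nat.Primes, -Complex.log (1 - (p : ℂ) ^ (-(-((-s : ℝ) + (τ : ℝ) * Complex.I))))
      = ∑' p : Nat.Primes, (-Complex.log (1 - zz s τ p) - zz s τ p)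
        + ∑' p : Nat.Primes, zz s τ p := by
    rw [← h3.tsum_add h4]
    exact tsum_congr fun p => by rw [neg_neg, cpow_eq s τ p p.2.pos, sub_add_cancel, zz]
  rw [← h1, Complex.norm_exp, log_exp, h6, Complex.add_re, Complex.re_tsum h4]
  simp only [re_zz', PS]
  rw [sub_add_cancel_right, abs_neg]
  exact (Complex.abs_re_le_norm _).trans h5

theorem log_low (s t : ℝ) (hs : 1 < s) : 0 < low ((-s : ℝ) + (t : ℝ) * Complex.I) ∧
    |-log (low ((-s : ℝ) + (t : ℝ) * Complex.I)) - PS s t fun x => max 0 (-cos x)| ≤ 18 * K0 := by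
  have hb : ∀ x, |max 0 (-cos x)| ≤ 1 := fun x => by
    rw [abs_of_nonneg (le_max_left _ _)]
    exact max_le zero_le_one (by linarith [neg_one_le_cos x])
  have hsum := sum_PS s t hs _ 1 hb
  have hK := sum_rp 2 one_lt_two
  have hK0 : 0 ≤ K0 := tsum_nonneg fun _ => by positivity
  have h1 : exp (-(PS s t (fun x => max 0 (-cos x)) + 18 * K0))
      ≤ low ((-s : ℝ) + (t : ℝ) * Complex.I) := by
    refine le_low _ _ fun v hv => ?_
    obtain ⟨S, k, hk, rfl⟩ := exists_prod' s t v hv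
    have a1 : ∀ p ∈ S, exp (-((p : ℝ) ^ (-s) * max 0 (-cos (t * log p)) + 18 * (p : ℝ) ^ (-2 : ℝ)))
        ≤ ‖fk (zz s t p) (k p)‖ := fun p hp => by
      have b0 := (hk p hp).1
      have b1 := third_le_fk _ (zz_le_inv s t hs.le p 2 one_le_two (by exact_mod_cast b0.two_le))
        (k p)
      have b2 : (0 : ℝ) ≤ (p : ℝ) ^ (-s) := by positivity
      have b3 : (0 : ℝ) ≤ (p : ℝ) ^ (-2 : ℝ) := by positivity
      rw [← le_log_iff_exp_le (by linarith)]
      by_cases h : 4 ≤ p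
      · have b4 := norm_log_fk _ (zz_le_inv s t hs.le p 4 (by norm_num) (by exact_mod_cast h)) _
          (hk p hp).2
        have b5 := (abs_le.mp ((Complex.abs_re_le_norm _).trans b4)).1
        rw [Complex.sub_re, Complex.log_re, re_zz'] at b5
        linarith [zz_sq s t hs.le p b0.pos,
          mul_le_mul_of_nonneg_left (le_max_right 0 (-cos (t * log p))) b2]
      · have b4 : (3 : ℝ) ^ (-2 : ℝ) ≤ (p : ℝ) ^ (-2 : ℝ) :=
          Real.rpow_le_rpow_of_nonpos (by exact_mod_cast b0.pos)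
            (by exact_mod_cast Nat.lt_succ_iff.mp (not_le.mp h)) (by norm_num)
        rw [Real.rpow_neg (by norm_num), Real.rpow_two] at b4
        have b5 := log_le_log (by norm_num) b1
        rw [one_div, log_inv] at b5
        linarith [log_le_sub_one_of_pos (show (0 : ℝ) < 3 by norm_num),
          mul_nonneg b2 (le_max_left 0 (-cos (t * log p)))]
    rw [norm_prod]
    refine le_trans ?_ (prod_le_prod (fun _ _ => (exp_pos _).le) a1)
    rw [← exp_sum, exp_le_exp, sum_neg_distrib, neg_le_neg_iff,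
      ← sum_subtype_of_mem _ fun p hp => (hk p hp).1, PS, K0, ← tsum_mul_left,
      ← hsum.tsum_add (hK.mul_left 18)]
    exact (hsum.add (hK.mul_left 18)).sum_le_tsum (show Finset Nat.Primes from S.subtype Nat.Prime)
      fun p _ => by positivity
  have h0 := (exp_pos _).trans_le h1
  refine ⟨h0, abs_le.mpr ⟨?_, by linarith [(le_log_iff_exp_le h0).mpr h1]⟩⟩
  have h2 : PS s t (fun x => max 0 (-cos x)) ≤ K0 - log (low ((-s : ℝ) + (t : ℝ) * Complex.I)) := by
    refine hsum.tsum_le_of_sum_le fun T => ?_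
    classical
    have a1 := low_le _ _ (prod_mem' s t (T.map (Function.Embedding.subtype Nat.Prime))
      (fun p hp => by
        obtain ⟨q, -, rfl⟩ := mem_map.mp hp
        exact q.2) fun p => if cos (t * log p) < 0 then 1 else 0)
    rw [prod_map, norm_prod] at a1
    have a2 := a1.trans (prod_le_prod (g := fun p : Nat.Primes => exp (((p : ℕ) : ℝ) ^ (-2 : ℝ)
      - ((p : ℕ) : ℝ) ^ (-s) * max 0 (-cos (t * log (p : ℕ))))) (fun _ _ => norm_nonneg _)
      fun p _ => ?_)
    · rw [← exp_sum, ← log_le_iff_le_exp h0, sum_sub_distrib] at a2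
      have a3 : _ ≤ K0 := hK.sum_le_tsum T fun p _ => by positivity
      linarith
    change ‖fk (zz s t (p : ℕ)) (if cos (t * log (p : ℕ)) < 0 then 1 else 0)‖ ≤ _
    have b3 : (0 : ℝ) ≤ ((p : ℕ) : ℝ) ^ (-2 : ℝ) := by positivity
    split_ifs with h
    · refine (pow_le_pow_iff_left₀ (norm_nonneg _) (exp_pos _).le two_ne_zero).mp ?_
      rw [← exp_nat_mul, max_eq_right (by linarith)]
      refine le_trans ?_ (add_one_le_exp _)
      have b1 := zz_sq s t hs.le p p.2.pos
      have b2 := re_zz' s t p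
      rw [Complex.sq_norm, Complex.normSq_apply] at b1 ⊢
      simp only [fk, sum_range_succ, range_zero, sum_empty, pow_zero, pow_one, zero_add,
        Complex.add_re, Complex.add_im, Complex.one_re, Complex.one_im]
      push_cast
      linarith
    · rw [max_eq_left (by linarith)]
      simp [fk]
  linarith

variable (t0 : ℝ)

def Good (f : ℝ → ℝ) : Prop := Continuous f ∧ (∃ K, ∀ x, |f x| ≤ K) ∧
  Tendsto (fun q : ℝ × ℝ => PS q.1 q.2 f / -log (q.1 - 1)) (𝓝[{q | 1 < q.1}] (1, t0))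
    (𝓝 ((∫ x in (-(π / 2))..(3 * π / 2), f x) / (2 * π)))

theorem D_top : Tendsto (fun q : ℝ × ℝ => -log (q.1 - 1)) (𝓝[{q | 1 < q.1}] (1, t0)) atTop := by
  refine tendsto_neg_atBot_atTop.comp (tendsto_log_nhdsGT_zero.comp ?_)
  refine tendsto_nhdsWithin_iff.mpr ⟨?_, eventually_nhdsWithin_of_forall fun q hq =>
    Set.mem_Ioi.mpr (sub_pos.mpr hq)⟩
  have c : Continuous fun q : ℝ × ℝ => q.1 - 1 := by fun_prop
  simpa using (c.tendsto (1, t0)).mono_left nhdsWithin_le_nhds

theorem near {α : Type} {l : Filter α} {a b D : α → ℝ} {K L : ℝ} (hD : Tendsto D l atTop)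
    (h : ∀ᶠ q in l, |a q - b q| ≤ K) (hb : Tendsto (fun q => b q / D q) l (𝓝 L)) :
    Tendsto (fun q => a q / D q) l (𝓝 L) := by
  have h1 : Tendsto (fun q => (a q - b q) / D q) l (𝓝 0) := by
    refine squeeze_zero_norm' ?_ (hD.const_div_atTop K)
    filter_upwards [h, hD.eventually_gt_atTop 0] with q h1 h2
    rw [norm_div, Real.norm_of_nonneg h2.le]
    exact div_le_div_of_nonneg_right h1 h2.le
  simpa [sub_div] using h1.add hb

variable {t0}

theorem Good.add {f g : ℝ → ℝ} (hf : Good t0 f) (hg : Good t0 g) : Good t0 fun x => f x + g x := by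
  obtain ⟨f1, ⟨K, f2⟩, f3⟩ := hf
  obtain ⟨g1, ⟨K', g2⟩, g3⟩ := hg
  refine ⟨f1.add g1, ⟨K + K', fun x => (abs_add_le _ _).trans (add_le_add (f2 x) (g2 x))⟩, ?_⟩
  rw [intervalIntegral.integral_add (f1.intervalIntegrable _ _) (g1.intervalIntegrable _ _), add_div]
  refine (f3.add g3).congr' (eventually_nhdsWithin_of_forall fun q hq => ?_)
  simp only [PS, mul_add]
  rw [(sum_PS _ _ hq f K f2).tsum_add (sum_PS _ _ hq g K' g2), add_div]

theorem Good.smul {f : ℝ → ℝ} (hf : Good t0 f) (a : ℝ) : Good t0 fun x => a * f x := by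
  obtain ⟨f1, ⟨K, f2⟩, f3⟩ := hf
  refine ⟨continuous_const.mul f1, ⟨|a| * K, fun x => ?_⟩, ?_⟩
  · rw [abs_mul]; exact mul_le_mul_of_nonneg_left (f2 x) (abs_nonneg a)
  rw [intervalIntegral.integral_const_mul, mul_div_assoc]
  refine (f3.const_mul a).congr fun q => ?_
  simp only [PS, mul_left_comm _ a]
  rw [tsum_mul_left, mul_div_assoc]

theorem good_cos (ht : 0 < t0) (n : ℤ) : Good t0 fun x => cos (n * x) := by
  have hpi := pi_pos
  refine ⟨by fun_prop, ⟨1, fun x => abs_cos_le_one _⟩, near (D_top t0) (K := K0)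
    (b := fun q => log ‖riemannZeta (-((-q.1 : ℝ) + (n * q.2 : ℝ) * Complex.I))‖)
    (eventually_nhdsWithin_of_forall fun q hq => ?_) ?_⟩
  · simpa only [PS, mul_assoc] using zeta_cos q.1 (n * q.2) hq
  have c : Continuous fun q : ℝ × ℝ => -(((-q.1 : ℝ) : ℂ) + (n * q.2 : ℝ) * Complex.I) := by
    fun_prop
  have c1 := (c.tendsto (1, t0)).mono_left (nhdsWithin_le_nhds (s := {q | 1 < q.1}))
  by_cases hn : n = 0
  · subst hn
    have a1 : Tendsto (fun q : ℝ × ℝ => -(((-q.1 : ℝ) : ℂ) + (((0 : ℤ) : ℝ) * q.2 : ℝ) * Complex.I))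
        (𝓝[{q | 1 < q.1}] (1, t0)) (𝓝[≠] 1) := by
      refine tendsto_nhdsWithin_iff.mpr ⟨by simpa using c1,
        eventually_nhdsWithin_of_forall fun q hq h => ?_⟩
      have := congrArg Complex.re h
      simp at this
      exact absurd this (ne_of_gt hq)
    have a2 := ((riemannZeta_residue_one.comp a1).norm.log (by simp)).div_atTop (D_top t0)
    have e : (∫ x in (-(π / 2))..(3 * π / 2), cos (((0 : ℤ) : ℝ) * x)) / (2 * π) = 0 + 1 := by
      simp; field_simp; ring
    rw [e]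
    refine (a2.add_const 1).congr' ?_
    filter_upwards [self_mem_nhdsWithin, (D_top t0).eventually_gt_atTop 0] with q hq hD
    have b1 : (0 : ℝ) < q.1 - 1 := sub_pos.mpr hq
    have b2 : ‖-(((-q.1 : ℝ) : ℂ) + (((0 : ℤ) : ℝ) * q.2 : ℝ) * Complex.I) - 1‖ = q.1 - 1 := by
      rw [← Real.norm_of_nonneg b1.le, ← Complex.norm_real]
      congr 1
      simp
    rw [Function.comp, norm_mul, b2, log_mul b1.ne' (norm_ne_zero_iff.mpr
      (riemannZeta_ne_zero_of_one_le_re (by simpa using hq.le))), div_add_one hD.ne']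
    congr 1
    ring
  · have hn' : (n : ℝ) ≠ 0 := by exact_mod_cast hn
    have a1 : -(((-(1 : ℝ) : ℝ) : ℂ) + (n * t0 : ℝ) * Complex.I) ≠ 1 := fun h => by
      have := congrArg Complex.im h
      simp [hn, ht.ne'] at this
    have a2 := ((((differentiableAt_riemannZeta a1).continuousAt.tendsto.comp c1).norm).log
      (norm_ne_zero_iff.mpr (riemannZeta_ne_zero_of_one_le_re (by simp)))).div_atTop (D_top t0)
    have e : (∫ x in (-(π / 2))..(3 * π / 2), cos (n * x)) / (2 * π) = 0 := by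
      rw [intervalIntegral.integral_comp_mul_left _ hn', integral_cos,
        show n * (3 * π / 2) = n * -(π / 2) + n * (2 * π) by ring, sin_add_int_mul_two_pi]
      simp
    rw [e]
    exact a2

theorem good_pow (ht : 0 < t0) (k : ℕ) : ∀ n : ℤ, Good t0 fun x => cos x ^ k * cos (n * x) := by
  induction k with
  | zero => simpa using good_cos ht
  | succ k ih =>
    intro n
    convert ((ih (n + 1)).add (ih (n - 1))).smul (1 / 2) using 2 with x
    push_cast
    rw [add_mul, sub_mul, one_mul, cos_add, cos_sub]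
    ring

theorem good_poly (ht : 0 < t0) (Q : Polynomial ℝ) : Good t0 fun x => Q.eval (cos x) := by
  induction Q using Polynomial.induction_on' with
  | add p q hp hq => simpa using hp.add hq
  | monomial k a => simpa using (good_pow ht k 0).smul a

theorem PS_low (ht : 0 < t0) :
    Tendsto (fun q : ℝ × ℝ => PS q.1 q.2 (fun x => max 0 (-cos x)) / -log (q.1 - 1))
      (𝓝[{q | 1 < q.1}] (1, t0)) (𝓝 (1 / π)) := by
  have hpi := pi_pos
  have hc : Continuous fun x => max 0 (-cos x) := by fun_prop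
  have hb : ∀ x, |max 0 (-cos x)| ≤ 1 := fun x => by
    rw [abs_of_nonneg (le_max_left _ _)]
    exact max_le zero_le_one (by linarith [neg_one_le_cos x])
  have hI : ∫ x in (-(π / 2))..(3 * π / 2), max 0 (-cos x) = 2 := by
    rw [← intervalIntegral.integral_add_adjacent_intervals (b := π / 2)
      (hc.intervalIntegrable _ _) (hc.intervalIntegrable _ _),
      intervalIntegral.integral_congr (g := fun _ => 0) (fun x hx => by
        rw [Set.uIcc_of_le (by linarith)] at hx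
        exact max_eq_left (by linarith [cos_nonneg_of_mem_Icc hx])),
      intervalIntegral.integral_congr (a := π / 2) (g := fun x => -cos x) (fun x hx => by
        rw [Set.uIcc_of_le (by linarith)] at hx
        exact max_eq_right
          (by linarith [cos_nonpos_of_pi_div_two_le_of_le hx.1 (by linarith [hx.2])])),
      intervalIntegral.integral_neg, integral_cos, show 3 * π / 2 = π / 2 + π by ring, sin_add_pi,
      sin_pi_div_two]
    norm_num
  have h1 := (good_poly ht 1).2.2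
  have e1 : (∫ x in (-(π / 2))..(3 * π / 2), Polynomial.eval (cos x) 1) / (2 * π) = 1 := by
    simp; field_simp; ring
  rw [e1] at h1
  refine Metric.tendsto_nhds.mpr fun ε hε => ?_
  obtain ⟨Q, hQ⟩ := exists_polynomial_near_of_continuousOn (-1) 1 (fun y => max 0 (-y))
    (by fun_prop) (ε / 4) (by linarith)
  have hQ' : ∀ x, |Q.eval (cos x) - max 0 (-cos x)| ≤ ε / 4 := fun x =>
    (hQ _ ⟨neg_one_le_cos x, cos_le_one x⟩).le
  obtain ⟨g1, ⟨K, g2⟩, g3⟩ := good_poly ht Q
  have h2 : |(∫ x in (-(π / 2))..(3 * π / 2), Q.eval (cos x)) / (2 * π) - 1 / π| ≤ ε / 4 := by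
    have := intervalIntegral.norm_integral_le_of_norm_le_const (a := -(π / 2)) (b := 3 * π / 2)
      (f := fun x => Q.eval (cos x) - max 0 (-cos x)) (C := ε / 4) fun x _ => hQ' x
    rw [intervalIntegral.integral_sub (g1.intervalIntegrable _ _) (hc.intervalIntegrable _ _), hI,
      show 3 * π / 2 - -(π / 2) = 2 * π by ring, abs_of_pos two_pi_pos] at this
    rw [show 1 / π = 2 / (2 * π) by field_simp, ← sub_div, abs_div, abs_of_pos two_pi_pos,
      div_le_iff₀ two_pi_pos]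
    exact this
  filter_upwards [self_mem_nhdsWithin, (D_top t0).eventually_gt_atTop 0,
    Metric.tendsto_nhds.mp g3 (ε / 4) (by linarith), h1.eventually (gt_mem_nhds one_lt_two)]
    with q hq hD a1 a2
  have a3 : |PS q.1 q.2 (fun x => Q.eval (cos x)) - PS q.1 q.2 fun x => max 0 (-cos x)|
      ≤ ε / 4 * PS q.1 q.2 fun x => Polynomial.eval (cos x) 1 := by
    simp only [PS, Polynomial.eval_one, mul_one]
    rw [← (sum_PS _ _ hq _ K g2).tsum_sub (sum_PS _ _ hq _ 1 hb), ← tsum_mul_left]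
    refine (Real.norm_eq_abs _).ge.trans
      (tsum_of_norm_bounded ((sum_rp _ hq).mul_left _).hasSum fun p => ?_)
    rw [← mul_sub, norm_mul, Real.norm_of_nonneg (by positivity), mul_comm]
    exact mul_le_mul_of_nonneg_right (hQ' _) (by positivity)
  have a4 := div_le_div_of_nonneg_right a3 hD.le
  rw [mul_div_assoc, ← abs_of_pos hD, ← abs_div, abs_of_pos hD, sub_div] at a4
  rw [Real.dist_eq] at a1 ⊢
  have a5 := mul_lt_mul_of_pos_left a2 (show 0 < ε / 4 by linarith)
  rw [abs_lt] at a1 ⊢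
  rw [abs_le] at a4 h2
  constructor <;> linarith [a1.1, a1.2, a4.1, a4.2, h2.1, h2.2]

theorem ratio (ht : 0 < t0) : Tendsto (fun q : ℝ × ℝ =>
    (1 - rad ((-q.1 : ℝ) + (q.2 : ℝ) * Complex.I)) / low ((-q.1 : ℝ) + (q.2 : ℝ) * Complex.I))
    (𝓝[{q | 1 < q.1}] (1, t0)) (𝓝 1) := by
  refine Metric.tendsto_nhds.mpr fun ε hε => ?_
  filter_upwards [self_mem_nhdsWithin,
    (edge t0 (ε / 2) ht (by linarith)).filter_mono nhdsWithin_le_nhds] with q hq h
  have h0 := (log_low q.1 q.2 hq).1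
  have h1 := ball_le _ h0
  have h2 : rad ((-q.1 : ℝ) + (q.2 : ℝ) * Complex.I) ≤ _ :=
    Real.sSup_le (fun R hR => h1 R hR.2) (sub_nonneg.mpr (low_le_one _))
  have h3 : 1 - (1 + ε / 2) * low ((-q.1 : ℝ) + (q.2 : ℝ) * Complex.I)
      ≤ rad ((-q.1 : ℝ) + (q.2 : ℝ) * Complex.I) := by
    rcases le_total 0 (1 - (1 + ε / 2) * low ((-q.1 : ℝ) + (q.2 : ℝ) * Complex.I)) with h4 | h4
    · exact le_csSup ⟨_, fun R hR => h1 R hR.2⟩ ⟨h4, h hq⟩
    · exact h4.trans (Real.sSup_nonneg fun R hR => hR.1)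
  rw [Real.dist_eq, abs_lt, lt_sub_iff_add_lt, sub_lt_iff_lt_add, lt_div_iff₀ h0, div_lt_iff₀ h0]
  constructor <;> nlinarith [mul_pos hε h0]

theorem expo (ht : 0 < t0) : Tendsto (fun q : ℝ × ℝ =>
    log (1 - rad ((-q.1 : ℝ) + (q.2 : ℝ) * Complex.I)) / log (q.1 - 1))
    (𝓝[{q | 1 < q.1}] (1, t0)) (𝓝 (1 / π)) := by
  have h1 := ratio ht
  refine (near (a := fun q : ℝ × ℝ => -log (1 - rad ((-q.1 : ℝ) + (q.2 : ℝ) * Complex.I)))
    (K := 1 + 18 * K0) (D_top t0) ?_ (PS_low ht)).congr fun q => neg_div_neg_eq _ _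
  filter_upwards [self_mem_nhdsWithin, h1.eventually (lt_mem_nhds one_pos),
    Metric.tendsto_nhds.mp (h1.log one_ne_zero) 1 one_pos] with q hq a1 a2
  obtain ⟨h0, h2⟩ := log_low q.1 q.2 hq
  rw [log_one, Real.dist_eq, sub_zero,
    log_div ((div_pos_iff_of_pos_right h0).mp a1).ne' h0.ne', abs_lt] at a2
  rw [abs_le] at h2 ⊢
  constructor <;> linarith [a2.1, a2.2, h2.1, h2.2]

end Pool.Agent.Lib.MP_3ba922_nt
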