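import Pool.Agent.Lib.MP_3ba922_nt.Edge4

set_option autoImplicit false

namespace Pool.Agent.Lib.MP_3ba922_nt

open Filter Topology

/-- passage from the complex parameter to the pair of real parameters -/
theorem tendsto_param (c₀ : ℂ) (h1 : c₀.re = -1) :
    Tendsto (fun c : ℂ => (-c.re, |c.im|)) (𝓝[{c : ℂ | c.re < -1}] c₀)
      (𝓝[{q : ℝ × ℝ | 1 < q.1}] (1, |c₀.im|)) := by
  refine tendsto_nhdsWithin_iff.mpr ⟨?_, eventually_nhdsWithin_of_forall fun c hc =>
    show 1 < -c.re from lt_neg_of_lt_neg hc⟩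
  have c : Continuous fun c : ℂ => (-c.re, |c.im|) := by fun_prop
  simpa [h1] using (c.tendsto c₀).mono_left nhdsWithin_le_nhds

end Pool.Agent.Lib.MP_3ba922_nt
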