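import Pool.Agent.Lib.MP_3ba922_nt.Gap

/-! Filling a disk about `1`: a lower bound for the radius. -/

set_option autoImplicit false

namespace Pool.Agent.Lib.MP_3ba922_nt

open Finset Filter Topology Real

theorem step (r z u e : ℂ) (σ : ℝ) (hσ : 0 < σ) (hσ1 : σ ≤ 1) (he : ‖e‖ = 1) (hr : r * e = ‖r‖)
    (h1 : ‖u - z‖ ≤ 6 * ‖z‖ ^ 2) (h2 : ‖z‖ ≤ σ / 24) (h3 : ‖z‖ ≤ σ / 2 * ‖r‖)
    (h4 : σ * ‖z‖ ≤ (z * e).re) : ‖r - u‖ ≤ ‖r‖ - σ / 2 * ‖z‖ := by
  have a0 := norm_nonneg z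
  have a1 := norm_nonneg r
  have a2 : ‖r - z‖ ^ 2 = ‖r‖ ^ 2 + ‖z‖ ^ 2 - 2 * (‖r‖ * (z * e).re) := by
    have : ‖r - z‖ = ‖(‖r‖ : ℂ) - z * e‖ := by rw [← hr, ← sub_mul, norm_mul, he, mul_one]
    have b : ‖z‖ = ‖z * e‖ := by rw [norm_mul, he, mul_one]
    rw [this, b, Complex.sq_norm, Complex.sq_norm (z * e), Complex.normSq_apply,
      Complex.normSq_apply]
    simp only [Complex.sub_re, Complex.sub_im, Complex.ofReal_re, Complex.ofReal_im]
    ring
  have a3 : σ * ‖z‖ ≤ ‖r‖ := by nlinarith [mul_le_mul_of_nonneg_right hσ1 a0, mul_le_mul_of_nonneg_right hσ1 a1]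
  have a4 : ‖r - z‖ ≤ ‖r‖ - 3 / 4 * σ * ‖z‖ := by
    refine (pow_le_pow_iff_left₀ (norm_nonneg _) (by nlinarith) two_ne_zero).mp ?_
    nlinarith [mul_le_mul_of_nonneg_left h4 a1, mul_le_mul_of_nonneg_left h3 a0,
      sq_nonneg (σ * ‖z‖)]
  have a5 := norm_sub_le (r - z) (u - z)
  rw [sub_sub_sub_cancel_right] at a5
  nlinarith [mul_le_mul_of_nonneg_left h2 a0]

theorem dir (r : ℂ) (A : ℝ) :
    ∃ θ, A ≤ θ ∧ θ < A + 2 * π ∧ r * Complex.exp ((-θ : ℝ) * Complex.I) = ‖r‖ := by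
  have h := toIcoMod_mem_Ico two_pi_pos A r.arg
  refine ⟨_, h.1, h.2, ?_⟩
  rw [← self_sub_toIcoDiv_zsmul]
  generalize toIcoDiv two_pi_pos A r.arg = n
  have e : Complex.exp (r.arg * Complex.I)
      * Complex.exp ((-(r.arg - n • (2 * π)) : ℝ) * Complex.I) = 1 := by
    rw [← Complex.exp_add, ← Complex.exp_int_mul_two_pi_mul_I n, zsmul_eq_mul]
    congr 1; push_cast; ring
  calc _ = (‖r‖ * Complex.exp (r.arg * Complex.I)) * _ := by rw [Complex.norm_mul_exp_arg_mul_I]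
    _ = _ := by rw [mul_assoc, e, mul_one]

theorem sector (M : ℕ) (κ φ : ℝ) (hκ : 0 < κ) (hM : M * κ = π + 4 * κ) (h4 : 4 * κ ≤ π) (r : ℂ) :
    ∃ i < M, ∃ θ : ℝ, r * Complex.exp ((-θ : ℝ) * Complex.I) = ‖r‖ ∧
      θ - π / 2 + κ ≤ φ + i * κ ∧ φ + i * κ ≤ θ + π / 2 - 2 * κ := by
  obtain ⟨θ, h1, h2, h3⟩ := dir r (φ - π / 2 + 2 * κ)
  by_cases h : θ - π / 2 + κ ≤ φ
  · refine ⟨0, Nat.pos_of_ne_zero fun h0 => ?_, θ, h3, by simpa using h, by simp; linarith⟩
    rw [h0, Nat.cast_zero] at hM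
    linarith
  · have a0 : 0 ≤ (θ - π / 2 + κ - φ) / κ := div_nonneg (by linarith) hκ.le
    have a1 := Nat.le_ceil ((θ - π / 2 + κ - φ) / κ)
    have a2 := Nat.ceil_lt_add_one a0
    rw [div_le_iff₀ hκ] at a1
    rw [← sub_lt_iff_lt_add, lt_div_iff₀ hκ] at a2
    refine ⟨⌈(θ - π / 2 + κ - φ) / κ⌉₊, ?_, θ, h3, by linarith, by linarith⟩
    exact_mod_cast lt_of_mul_lt_mul_right (show (⌈(θ - π / 2 + κ - φ) / κ⌉₊ : ℝ) * κ < M * κ by
      linarith) hκ.le

/-- a block of `M` sectors of primes -/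
noncomputable def blk (t κ γ φ : ℝ) (M : ℕ) : Finset ℕ :=
  (range M).biUnion fun i => pr (exp ((φ + i * κ) / t)) (γ * exp ((φ + i * κ) / t))

theorem block (s t κ γ φ ρ : ℝ) (M : ℕ) (hs : 0 < s) (ht : 0 < t) (hκ : 0 < κ)
    (hM : M * κ = π + 4 * κ) (h4 : 4 * κ ≤ π) (hγ : 0 < γ) (hγt : γ ≤ exp (κ / t))
    (hz : exp (-φ * s / t) ≤ sin κ / 24)
    (hρ : ∀ i < M, ρ ≤ sin κ / 2 *
      ∑ p ∈ pr (exp ((φ + i * κ) / t)) (γ * exp ((φ + i * κ) / t)), (p : ℝ) ^ (-s))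
    (w : ℂ) (hw : ‖w‖ ≤ ρ) : ∃ S ⊆ blk t κ γ φ M,
      ‖w - ∑ p ∈ S, Complex.log (fk (zz s t p) 1)‖ ≤ 2 / sin κ * exp (-φ * s / t) := by
  have hpi := pi_pos
  have hs0 : 0 < sin κ := sin_pos_of_pos_of_lt_pi hκ (by linarith)
  have hs1 := sin_le_one κ
  refine greedy _ _ (fun p : ℕ => sin κ / 2 * (p : ℝ) ^ (-s)) (fun p => by positivity) _ ρ
    (by positivity) (fun r hr => ?_) w hw
  obtain ⟨i, hi, θ, h1, h2, h3⟩ := sector M κ φ hκ hM h4 r
  refine ⟨_, subset_biUnion_of_mem _ (mem_range.mpr hi), by rw [← mul_sum]; exact hρ i hi,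
    fun p hp => ?_⟩
  obtain ⟨-, a1, a2⟩ := (mem_pr (exp_pos _).le (by positivity)).mp hp
  have a0 : (0 : ℝ) < p := (exp_pos _).trans a1
  have a3 : φ + i * κ ≤ t * log p := by
    have := (Real.le_log_iff_exp_le a0).mpr a1.le
    rw [div_le_iff₀ ht] at this
    linarith
  have a4 : t * log p ≤ φ + i * κ + κ := by
    have := (Real.log_le_iff_le_exp a0).mpr (a2.trans ((mul_le_mul_of_nonneg_right hγt
      (exp_pos _).le).trans (exp_add _ _).ge))
    rw [← add_div, le_div_iff₀ ht] at this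
    linarith
  have a5 : (p : ℝ) ^ (-s) ≤ exp (-φ * s / t) := by
    rw [Real.rpow_def_of_pos a0, exp_le_exp, le_div_iff₀ ht]
    have : 0 ≤ i * κ := by positivity
    nlinarith
  have a6 : sin κ ≤ cos (t * log p - θ) := by
    rw [← cos_abs, ← cos_pi_div_two_sub]
    exact cos_le_cos_of_nonneg_of_le_pi (abs_nonneg _) (by linarith)
      (abs_le.mpr ⟨by linarith, by linarith⟩)
  rw [← norm_zz s t p] at a5 ⊢
  refine step r _ _ _ _ hs0 hs1 (Complex.norm_exp_ofReal_mul_I _) h1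
    (norm_log_fk _ (by linarith) 1 le_rfl) (by linarith) ?_ ?_
  · rw [div_mul_eq_mul_div, div_lt_iff₀ hs0] at hr
    linarith
  · rw [re_zz, norm_zz, mul_comm]
    exact mul_le_mul_of_nonneg_left a6 (by positivity)

theorem mem_blk {t κ γ φ : ℝ} {M p : ℕ} (hγ : 0 < γ) (hp : p ∈ blk t κ γ φ M) :
    p.Prime ∧ ∃ i < M, exp ((φ + i * κ) / t) < p ∧ (p : ℝ) ≤ γ * exp ((φ + i * κ) / t) := by
  obtain ⟨i, hi, h⟩ := mem_biUnion.mp hp
  obtain ⟨a0, a1, a2⟩ := (mem_pr (exp_pos _).le (by positivity)).mp h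
  exact ⟨a0, i, mem_range.mp hi, a1, a2⟩

theorem ball_sub (V : Set ℂ) (R : ℝ) (hR : R ≤ 1 / 2)
    (h : ∀ w : ℂ, ‖w‖ ≤ 2 * R → Complex.exp w ∈ V) : Metric.ball (1 : ℂ) R ⊆ V := by
  intro v hv
  rw [mem_ball_iff_norm] at hv
  have h1 := Complex.norm_log_one_add_half_le_self (z := v - 1) (by linarith)
  rw [add_sub_cancel] at h1
  have h2 : v ≠ 0 := by
    rintro rfl
    rw [zero_sub, norm_neg, norm_one] at hv
    linarith
  rw [← Complex.exp_log h2]
  exact h _ (by linarith [norm_nonneg (v - 1)])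

theorem blk_disj (t κ γ φ β : ℝ) (M : ℕ) (ht : 0 < t) (hβ : 0 < β) (hκ : (M + 1) * β = κ)
    (hγ : 0 < γ) (hγt : γ ≤ exp (β / t)) (j j' : ℕ) (h : j ≠ j') :
    Disjoint (blk t κ γ (φ + j * (M * β)) M) (blk t κ γ (φ + j' * (M * β)) M) := by
  have key : ∀ j i j' i' : ℕ, ∀ p : ℝ, exp ((φ + j * (M * β) + i * κ) / t) < p →
      p ≤ γ * exp ((φ + j' * (M * β) + i' * κ) / t) →
      j * M + i * (M + 1) ≤ j' * M + i' * (M + 1) := fun j i j' i' p h1 h2 => by
    have := h1.trans_le (h2.trans ((mul_le_mul_of_nonneg_right hγt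
      (exp_pos _).le).trans (exp_add _ _).ge))
    rw [exp_lt_exp, ← add_div, div_lt_div_iff_of_pos_right ht, ← hκ] at this
    have h3 : ((j * M + i * (M + 1) : ℕ) : ℝ) * β < ((j' * M + i' * (M + 1) + 1 : ℕ) : ℝ) * β := by
      push_cast; linarith
    exact Nat.lt_succ_iff.mp (by exact_mod_cast lt_of_mul_lt_mul_right h3 hβ.le)
  refine disjoint_left.mpr fun p hp hp' => h ?_
  obtain ⟨-, i, hi, a1, a2⟩ := mem_blk hγ hp
  obtain ⟨-, i', hi', b1, b2⟩ := mem_blk hγ hp'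
  have e := le_antisymm (key _ _ _ _ _ a1 b2) (key _ _ _ _ _ b1 a2)
  have e1 : i + (j + i) * M = i' + (j' + i') * M := by linarith
  have e2 : i = i' := by
    have := congrArg (· % M) e1
    simpa [Nat.mod_eq_of_lt hi, Nat.mod_eq_of_lt hi'] using this
  subst e2
  exact Nat.eq_of_mul_eq_mul_right (Nat.zero_lt_of_lt hi) (Nat.add_right_cancel e)

theorem fill_lower (s t κ β γ C y0 : ℝ) (M : ℕ) (hs : 1 < s) (ht : 0 < t)
    (hC : 1 + 1 / (s - 1) ≤ C) (hβ : 0 < β) (hκ : (M + 1) * β = κ) (hM : M * κ = π + 4 * κ)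
    (h4 : 4 * κ ≤ π) (hγ : 1 < γ) (hγt : γ ≤ exp (β / t))
    (hy : ∀ y, y0 ≤ y → (γ - 1) / 2 * y ≤ ∑ p ∈ pr y (γ * y), Real.log p)
    (h1 : y0 ≤ exp ((s - 1) / t)) (h2 : exp (-((s - 1) / t)) ≤ sin κ / 24)
    (h3 : exp (-((s - 1) / t) * κ) * (1 + (s - 1) / t * (π + (5 + C) * κ + C * (π + 4 * κ)))
      ≤ sin κ ^ 2 * (γ - 1) / (8 * γ)) :
    Metric.ball (1 : ℂ) (exp (-(π + (5 + C) * κ) * (s * (s - 1)) / t))
      ⊆ closure (sigmaC ((-s : ℝ) + (t : ℝ) * Complex.I) '' {n | 1 ≤ n}) := by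
  have hpi := pi_gt_three
  have hMβ : 0 ≤ M * β := by positivity
  have hκ0 : 0 < κ := by linarith
  have hs0 : 0 < sin κ := sin_pos_of_pos_of_lt_pi hκ0 (by linarith)
  have hs1 := sin_le_one κ
  have hC0 : 1 / (s - 1) ≤ C := by linarith
  have hC1 : 0 < C := (one_div_pos.mpr (by linarith)).trans_le hC0
  have hsC : s ≤ C * (s - 1) := by
    have := mul_le_mul_of_nonneg_right hC (sub_pos.mpr hs).le
    rwa [add_mul, one_div, inv_mul_cancel₀ (sub_pos.mpr hs).ne', one_mul, sub_add_cancel] at this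
  rw [div_le_iff₀ (by linarith)] at hC0
  set b := (s - 1) / t with hb
  have hb0 : 0 < b := div_pos (by linarith) ht
  set φ := (s - 1) * (π + (5 + C) * κ) with hφ
  have hCκ : 0 < C * κ := by positivity
  have hφ1 : s - 1 ≤ φ := le_mul_of_one_le_right (by linarith) (by linarith)
  have hR : -(π + (5 + C) * κ) * (s * (s - 1)) / t = -φ * s / t := by rw [hφ]; ring
  have hz : ∀ ψ, φ ≤ ψ → exp (-ψ * s / t) ≤ sin κ / 24 := fun ψ h => by
    refine le_trans (exp_le_exp.mpr ?_) h2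
    rw [hb, ← neg_div]
    exact div_le_div_of_nonneg_right (by nlinarith) ht.le
  set ρ : ℕ → ℝ := fun j => 2 / sin κ * exp (-(φ + j * (M * β) - M * β) * s / t) with hρ
  rw [hR]
  refine ball_sub _ _ (by linarith [hz φ le_rfl]) fun w hw => ?_
  have hfill := fill (fun j => blk t κ γ (φ + j * (M * β)) M)
    (blk_disj t κ γ φ β M ht hβ hκ (by linarith) hγt)
    (fun p => Complex.log (fk (zz s t p) 1)) ρ (fun j w hw => ?_) w ?_
  · rw [← one_mul (Complex.exp w)]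
    refine mem_closure_of_fill _ 1 w ρ ?_ fun j => ?_
    · rw [hρ, ← mul_zero (2 / sin κ)]
      refine (tendsto_exp_atBot.comp ?_).const_mul _
      have hM0 : 0 < M * β := by
        refine mul_pos (Nat.cast_pos.mpr (Nat.pos_of_ne_zero fun h0 => ?_)) hβ
        rw [h0, Nat.cast_zero] at hM
        linarith
      exact ((tendsto_neg_atTop_atBot.comp (tendsto_atTop_add_const_right _ _
        (tendsto_atTop_add_const_left _ _ (tendsto_natCast_atTop_atTop.atTop_mul_const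
          hM0)))).atBot_mul_const (by linarith)).atBot_div_const ht
    · obtain ⟨S, hS, h⟩ := hfill j
      refine ⟨_, ?_, h⟩
      rw [one_mul, ← exp_sum_log s t S (fun _ => 1) fun p hp => ?_]
      · exact prod_mem' s t S (fun p hp => by
          obtain ⟨i, -, hp⟩ := hS p hp
          exact (mem_blk (by linarith) hp).1) _
      · obtain ⟨i, -, hp⟩ := hS p hp
        obtain ⟨-, l, -, a1, -⟩ := mem_blk (by linarith) hp
        have := Real.rpow_le_rpow_of_nonpos (exp_pos _) a1.le (show -s ≤ 0 by linarith)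
        rw [← exp_mul] at this
        have a2 := hz (φ + i * (M * β) + l * κ) (by
          have : 0 ≤ i * (M * β) + l * κ := by positivity
          linarith)
        rw [show -(φ + i * (M * β) + l * κ) * s / t = (φ + i * (M * β) + l * κ) / t * -s by ring]
          at a2
        linarith
  · have hj : 0 ≤ j * (M * β) := by positivity
    have e : ρ (j + 1) = 2 / sin κ * exp (-(φ + j * (M * β)) * s / t) := by
      rw [hρ]; push_cast; congr 4; ring
    rw [e]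
    refine block s t κ γ _ (ρ j) M (by linarith) ht hκ0 hM h4 (by linarith)
      (hγt.trans (exp_le_exp.mpr (div_le_div_of_nonneg_right (by linarith) ht.le)))
      (hz _ (by linarith)) (fun i hi => ?_) w hw
    have hi' : (i : ℝ) + 1 ≤ M := by exact_mod_cast hi
    have hiκ : 0 ≤ i * κ := by positivity
    set ψ := φ + j * (M * β) with hψ
    have a1 : exp b ≤ exp ((ψ + i * κ) / t) :=
      exp_le_exp.mpr (div_le_div_of_nonneg_right (by linarith) ht.le)
    have a2 := mass_lower γ _ s (exp ((ψ + M * κ) / t)) hγ ((one_lt_exp_iff.mpr hb0).trans_le a1)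
      hs.le ((mul_le_mul_of_nonneg_right hγt (exp_pos _).le).trans (by
        rw [← exp_add, exp_le_exp, ← add_div]
        exact div_le_div_of_nonneg_right (by nlinarith) ht.le)) (hy _ (h1.trans a1))
    refine le_trans ?_ (mul_le_mul_of_nonneg_left a2 (by positivity))
    have a3 : 0 < (ψ + M * κ) / t := div_pos (by linarith) ht
    rw [log_exp, ← exp_mul, ← mul_div_assoc, le_div_iff₀ a3]
    set u := j * (M * β) / t with hu
    have hu0 : 0 ≤ u := by positivity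
    have a4 : (ψ + M * κ) / t ≤ u + b * (π + (5 + C) * κ + C * (π + 4 * κ)) := by
      rw [hu, hb, div_mul_eq_mul_div, ← add_div, hM]
      refine div_le_div_of_nonneg_right ?_ ht.le
      have := mul_le_mul_of_nonneg_right hC0 (show 0 ≤ π + 4 * κ by linarith)
      linarith
    have a5 : exp (-(ψ - M * β) * s / t)
        ≤ exp ((ψ + M * κ) / t * (1 - s)) * (exp (-u) * exp (-b * κ)) := by
      rw [← exp_add, ← exp_add, exp_le_exp, hu, hb, hM, div_mul_eq_mul_div, ← neg_div, ← neg_div,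
        div_mul_eq_mul_div, ← add_div, ← add_div]
      refine div_le_div_of_nonneg_right ?_ ht.le
      have c1 := mul_le_mul_of_nonneg_right hsC hκ0.le
      have c2 := mul_le_mul_of_nonneg_right (show M * β ≤ κ by linarith) (show 0 ≤ s by linarith)
      linarith
    have a6 : exp (-u) * (u + b * (π + (5 + C) * κ + C * (π + 4 * κ)))
        ≤ 1 + b * (π + (5 + C) * κ + C * (π + 4 * κ)) := by
      have c1 : exp (-u) ≤ 1 := exp_le_one_iff.mpr (by linarith)
      have c2 : exp (-u) * u ≤ 1 := by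
        rw [exp_neg, inv_mul_le_iff₀ (exp_pos _)]; linarith [add_one_le_exp u]
      have c3 : 0 ≤ b * (π + (5 + C) * κ + C * (π + 4 * κ)) := by positivity
      linarith [mul_le_mul_of_nonneg_right c1 c3]
    have a7 : exp (-u) * exp (-b * κ) * ((ψ + M * κ) / t) ≤ sin κ ^ 2 * (γ - 1) / (8 * γ) := by
      have c1 := mul_le_mul_of_nonneg_left
        ((mul_le_mul_of_nonneg_left a4 (exp_pos (-u)).le).trans a6) (exp_pos (-b * κ)).le
      linarith
    calc ρ j * ((ψ + M * κ) / t) ≤ 2 / sin κ * (exp ((ψ + M * κ) / t * (1 - s))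
          * (exp (-u) * exp (-b * κ))) * ((ψ + M * κ) / t) :=
          mul_le_mul_of_nonneg_right (mul_le_mul_of_nonneg_left a5 (by positivity)) a3.le
      _ = 2 / sin κ * exp ((ψ + M * κ) / t * (1 - s))
          * (exp (-u) * exp (-b * κ) * ((ψ + M * κ) / t)) := by ring
      _ ≤ 2 / sin κ * exp ((ψ + M * κ) / t * (1 - s)) * (sin κ ^ 2 * (γ - 1) / (8 * γ)) :=
          mul_le_mul_of_nonneg_left a7 (by positivity)
      _ = _ := by field_simp; ring
  · refine hw.trans (mul_le_mul ?_ (exp_le_exp.mpr (div_le_div_of_nonneg_right ?_ ht.le))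
      (exp_pos _).le (by positivity))
    · rw [le_div_iff₀ hs0]; linarith
    · simp only [Nat.cast_zero, zero_mul, add_zero]
      nlinarith

end Pool.Agent.Lib.MP_3ba922_nt
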