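import Pool.Agent.Lib.MP_3ba922_nt.Basic

/-! The gap near `1`: an upper bound for the radius. -/

set_option autoImplicit false

namespace Pool.Agent.Lib.MP_3ba922_nt

open Finset Filter Topology Real

noncomputable def zz (s t : ℝ) (p : ℕ) : ℂ :=
  (((p : ℝ) ^ (-s) : ℝ) : ℂ) * Complex.exp ((t * Real.log p : ℝ) * Complex.I)

theorem norm_zz (s t : ℝ) (p : ℕ) : ‖zz s t p‖ = (p : ℝ) ^ (-s) := by
  rw [zz, norm_mul, Complex.norm_exp_ofReal_mul_I, mul_one, Complex.norm_real,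
    Real.norm_of_nonneg (by positivity)]

theorem im_zz (s t ψ : ℝ) (p : ℕ) : (zz s t p * Complex.exp ((-ψ : ℝ) * Complex.I)).im
    = (p : ℝ) ^ (-s) * sin (t * Real.log p - ψ) := by
  rw [zz, mul_assoc, ← Complex.exp_add, ← add_mul, ← Complex.ofReal_add, Complex.im_ofReal_mul,
    Complex.exp_ofReal_mul_I_im, sub_eq_add_neg]

theorem re_zz (s t ψ : ℝ) (p : ℕ) : (zz s t p * Complex.exp ((-ψ : ℝ) * Complex.I)).re
    = (p : ℝ) ^ (-s) * cos (t * Real.log p - ψ) := by
  rw [zz, mul_assoc, ← Complex.exp_add, ← add_mul, ← Complex.ofReal_add, Complex.re_ofReal_mul,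
    Complex.exp_ofReal_mul_I_re, sub_eq_add_neg]

theorem exists_prod' (s t : ℝ) (z : ℂ)
    (hz : z ∈ sigmaC ((-s : ℝ) + (t : ℝ) * Complex.I) '' {n | 1 ≤ n}) :
    ∃ (S : Finset ℕ) (k : ℕ → ℕ), (∀ p ∈ S, p.Prime ∧ 1 ≤ k p) ∧
      z = ∏ p ∈ S, fk (zz s t p) (k p) := by
  obtain ⟨S, k, h1, h2⟩ := exists_prod _ z hz
  exact ⟨S, k, h1, h2.trans (prod_congr rfl fun p hp => by rw [cpow_eq s t p (h1 p hp).1.pos, zz])⟩

theorem prod_mem' (s t : ℝ) (S : Finset ℕ) (hS : ∀ p ∈ S, p.Prime) (k : ℕ → ℕ) :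
    ∏ p ∈ S, fk (zz s t p) (k p) ∈ sigmaC ((-s : ℝ) + (t : ℝ) * Complex.I) '' {n | 1 ≤ n} := by
  convert prod_mem ((-s : ℝ) + (t : ℝ) * Complex.I) S hS k using 1
  exact prod_congr rfl fun p hp => by rw [cpow_eq s t p (hS p hp).pos, zz]

theorem sin_ge (α θ : ℝ) (h0 : 0 ≤ α) (h1 : α ≤ θ) (h2 : θ ≤ π - α) : sin α ≤ sin θ := by
  have := pi_pos
  by_cases h : θ ≤ π / 2
  · exact sin_le_sin_of_le_of_le_pi_div_two (by linarith) h h1
  · rw [← sin_pi_sub θ]
    exact sin_le_sin_of_le_of_le_pi_div_two (by linarith) (by linarith) (by linarith)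

theorem norm_log_fk_le (z : ℂ) (hz : ‖z‖ ≤ 1 / 6) (k : ℕ) (hk : 1 ≤ k) :
    ‖Complex.log (fk z k)‖ ≤ 2 * ‖z‖ := by
  have h1 := norm_log_fk z (by linarith) k hk
  have h2 := norm_add_le (Complex.log (fk z k) - z) z
  rw [sub_add_cancel] at h2
  nlinarith [norm_nonneg z]

theorem half_plane (s t α C x : ℝ) (hs : 1 < s) (ht : 0 < t) (hC : 1 + 1 / (s - 1) ≤ C)
    (hα : 0 < α) (hα' : α ≤ 1 / 2) (hx : 1 ≤ x) (S : Finset ℕ) (k : ℕ → ℕ)
    (hk : ∀ p ∈ S, 1 ≤ k p) (hz : ∀ p ∈ S, (p : ℝ) ^ (-s) ≤ sin α / 12) (hS : ∀ p ∈ S, x ≤ p) :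
    sin α / 2 * ∑ p ∈ S.filter (fun p : ℕ => (p : ℝ) ≤ x * exp ((π - 2 * α) / t)), (p : ℝ) ^ (-s)
      - 2 * C * (x * exp ((π - 2 * α) / t)) ^ (1 - s)
      ≤ ((∑ p ∈ S, Complex.log (fk (zz s t p) (k p)))
        * Complex.exp ((-(t * Real.log x - α) : ℝ) * Complex.I)).im := by
  have hpi := pi_gt_three
  set y := x * exp ((π - 2 * α) / t) with hy
  have hy1 : 1 ≤ y := by
    have : 1 ≤ exp ((π - 2 * α) / t) := one_le_exp (div_nonneg (by linarith) ht.le)
    nlinarith
  have hs1 := sin_le_one α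
  set e := Complex.exp ((-(t * Real.log x - α) : ℝ) * Complex.I) with he
  have hen : ‖e‖ = 1 := Complex.norm_exp_ofReal_mul_I _
  rw [sum_mul, Complex.im_sum, ← sum_filter_add_sum_filter_not S (fun p : ℕ => (p : ℝ) ≤ y),
    sub_eq_add_neg]
  refine add_le_add ?_ ?_
  · rw [mul_sum]
    refine sum_le_sum fun p hp => ?_
    obtain ⟨hp, hpy⟩ := mem_filter.mp hp
    have a1 := hz p hp
    have a0 : (0 : ℝ) ≤ (p : ℝ) ^ (-s) := by positivity
    have a2 := norm_log_fk (zz s t p) (by rw [norm_zz]; linarith) _ (hk p hp)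
    rw [norm_zz] at a2
    have a3 := im_zz s t (t * Real.log x - α) p
    have a4 : Real.log x ≤ Real.log p := Real.log_le_log (by linarith) (hS p hp)
    have a5 : Real.log p ≤ Real.log x + (π - 2 * α) / t := by
      have := Real.log_le_log (by linarith [hS p hp]) hpy
      rwa [hy, Real.log_mul (by linarith) (exp_pos _).ne', log_exp] at this
    have a6 : t * ((π - 2 * α) / t) = π - 2 * α := by field_simp
    have a7 := sin_ge α (t * Real.log p - (t * Real.log x - α)) hα.le (by nlinarith) (by nlinarith)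
    have a8 : |((Complex.log (fk (zz s t p) (k p)) - zz s t p) * e).im| ≤ 6 * ((p : ℝ) ^ (-s)) ^ 2 :=
      (Complex.abs_im_le_norm _).trans (by rwa [norm_mul, hen, mul_one])
    rw [sub_mul, Complex.sub_im, a3] at a8
    have a9 := (abs_le.mp a8).1
    nlinarith [mul_le_mul_of_nonneg_left a7 a0, mul_le_mul_of_nonneg_left a1 a0]
  · have b1 := tail_le s hs y hy1 (S.filter fun p : ℕ => ¬ (p : ℝ) ≤ y)
      fun n hn => not_le.mp (mem_filter.mp hn).2
    have b2 : 0 ≤ y ^ (1 - s) := by positivity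
    have b3 : ∑ p ∈ S.filter (fun p : ℕ => ¬ (p : ℝ) ≤ y), -(2 * (p : ℝ) ^ (-s))
        ≤ ∑ p ∈ S.filter (fun p : ℕ => ¬ (p : ℝ) ≤ y), (Complex.log (fk (zz s t p) (k p)) * e).im := by
      refine sum_le_sum fun p hp => ?_
      have hp := (mem_filter.mp hp).1
      have a2 := norm_log_fk_le (zz s t p) (by rw [norm_zz]; linarith [hz p hp]) _ (hk p hp)
      rw [norm_zz] at a2
      exact (abs_le.mp ((Complex.abs_im_le_norm _).trans (by rwa [norm_mul, hen, mul_one]))).1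
    rw [sum_neg_distrib, ← mul_sum] at b3
    nlinarith [mul_le_mul_of_nonneg_right hC b2]

theorem exp_lip (W w : ℂ) (hW : ‖W‖ ≤ 1 / 4) (hw : ‖w‖ ≤ 1 / 4) :
    ‖W - w‖ / 4 ≤ ‖Complex.exp W - Complex.exp w‖ := by
  have h1 : ‖W - w‖ ≤ 1 / 2 := (norm_sub_le _ _).trans (by linarith)
  have h2 := Complex.norm_exp_sub_one_le (x := w) (by linarith)
  have h3 := Complex.norm_exp_sub_one_sub_id_le (x := W - w) (by linarith)
  have h4 := norm_sub_norm_le (1 : ℂ) (Complex.exp w)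
  rw [norm_sub_rev, norm_one] at h4
  have h5 := norm_sub_norm_le (W - w) (Complex.exp (W - w) - 1)
  rw [norm_sub_rev (W - w)] at h5
  have e : Complex.exp W - Complex.exp w = Complex.exp w * (Complex.exp (W - w) - 1) := by
    rw [mul_sub, ← Complex.exp_add]; simp
  rw [e, norm_mul]
  have h0 := norm_nonneg (W - w)
  have h6 : ‖W - w‖ / 2 ≤ ‖Complex.exp (W - w) - 1‖ := by nlinarith
  nlinarith

theorem le_of_far (V : Set ℂ) (w : ℂ) (ε R R' : ℝ) (hε : 0 < ε) (h : ∀ v ∈ V, ε ≤ ‖v - w‖)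
    (hw : ‖w - 1‖ ≤ R) (hR : Metric.ball (1 : ℂ) R' ⊆ closure V) : R' ≤ R := by
  by_contra hc
  obtain ⟨v, hv, h1⟩ := Metric.mem_closure_iff.mp
    (hR (mem_ball_iff_norm.mpr (hw.trans_lt (not_le.mp hc)))) ε hε
  have := h v hv
  rw [dist_comm, dist_eq_norm] at h1
  linarith

theorem big_prod (s t C : ℝ) (hs : 1 < s) (ht : 0 < t) (hC : 1 + 1 / (s - 1) ≤ C)
    (S : Finset ℕ) (k : ℕ → ℕ) (hk : ∀ p ∈ S, p.Prime ∧ 1 ≤ k p) (q : ℕ) (hq : q ∈ S)
    (hqt : t * Real.log q ≤ 1 / 2) :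
    (1 + 3 / 8 * (q : ℝ) ^ (-s)) * (1 - 2 * C * exp (-((s - 1) / t) / 2))
      ≤ ‖∏ p ∈ S, fk (zz s t p) (k p)‖ := by
  set y := exp (1 / (2 * t)) with hy
  have hy1 : 1 ≤ y := one_le_exp (by positivity)
  have hz : ∀ p ∈ S, ‖zz s t p‖ ≤ 1 / 2 := fun p hp => by
    have h2 : (2 : ℝ) ≤ p := by exact_mod_cast (hk p hp).1.two_le
    rw [norm_zz]
    calc (p : ℝ) ^ (-s) ≤ (p : ℝ) ^ (-1 : ℝ) :=
          Real.rpow_le_rpow_of_exponent_le (by linarith) (by linarith)
      _ ≤ 1 / 2 := by rw [Real.rpow_neg_one, one_div]; exact inv_anti₀ two_pos h2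
  have h1 : ∀ p ∈ S, t * Real.log p ≤ 1 / 2 →
      1 + 3 / 8 * (p : ℝ) ^ (-s) ≤ ‖fk (zz s t p) (k p)‖ := fun p hp h => by
    rw [← norm_zz s t p]
    refine re_fk_ge _ (hz p hp) ?_ _ (hk p hp).2
    have a1 := re_zz s t 0 p
    have a2 : 0 ≤ t * Real.log p := mul_nonneg ht.le (Real.log_natCast_nonneg p)
    have a3 := one_sub_sq_div_two_le_cos (x := t * Real.log p)
    have a0 : (0 : ℝ) ≤ (p : ℝ) ^ (-s) := by positivity
    simp only [neg_zero, Complex.ofReal_zero, zero_mul, Complex.exp_zero, mul_one, sub_zero] at a1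
    rw [a1, norm_zz, mul_comm]
    exact mul_le_mul_of_nonneg_left (by nlinarith) a0
  rw [norm_prod, ← mul_prod_erase S _ hq]
  have h2 := one_sub_sum_le_prod (S.erase q)
    (fun p => if (p : ℝ) ≤ y then 0 else 2 * (p : ℝ) ^ (-s)) (fun p => ‖fk (zz s t p) (k p)‖)
    (fun p _ => by split_ifs <;> positivity) (fun p hp => by
      have hp := mem_of_mem_erase hp
      split_ifs with h
      · have a1 : Real.log p ≤ 1 / (2 * t) := by
          have := Real.log_le_log (by exact_mod_cast (hk p hp).1.pos) h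
          rwa [hy, log_exp] at this
        have a2 := h1 p hp (by rw [le_div_iff₀ (by positivity)] at a1; linarith)
        have a0 : (0 : ℝ) ≤ (p : ℝ) ^ (-s) := by positivity
        linarith
      · rw [← norm_zz s t p]; exact norm_fk_ge _ (hz p hp) _) (fun p _ => norm_nonneg _)
  rw [sum_ite, sum_const_zero, zero_add, ← mul_sum] at h2
  have b1 := tail_le s hs y hy1 ((S.erase q).filter fun p : ℕ => ¬ (p : ℝ) ≤ y)
    fun n hn => not_le.mp (mem_filter.mp hn).2
  have b2 : y ^ (1 - s) = exp (-((s - 1) / t) / 2) := by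
    rw [hy, ← exp_mul]; congr 1; field_simp; ring
  rw [b2] at b1
  have b3 := mul_le_mul_of_nonneg_right hC (exp_pos (-((s - 1) / t) / 2)).le
  have a0 : (0 : ℝ) ≤ (q : ℝ) ^ (-s) := by positivity
  exact (mul_le_mul_of_nonneg_left (by linarith) (by positivity)).trans
    (mul_le_mul_of_nonneg_right (h1 q hq hqt) (prod_nonneg fun _ _ => norm_nonneg _))

theorem exp_sum_log (s t : ℝ) (S : Finset ℕ) (k : ℕ → ℕ) (hz : ∀ p ∈ S, (p : ℝ) ^ (-s) ≤ 1 / 4) :
    ∏ p ∈ S, fk (zz s t p) (k p) = Complex.exp (∑ p ∈ S, Complex.log (fk (zz s t p) (k p))) := by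
  rw [Complex.exp_sum]
  exact prod_congr rfl fun p hp =>
    (Complex.exp_log (fk_ne_zero _ (by rw [norm_zz]; exact hz p hp) _)).symm

theorem gap (s t α C : ℝ) (hs : 1 < s) (ht : 0 < t) (hC : 1 + 1 / (s - 1) ≤ C)
    (hα : 0 < α) (hα' : α ≤ 1 / 2) (h1 : 24 * C * exp (-((s - 1) / t) * α) ≤ sin α)
    (h2 : 13 * C * exp (-((s - 1) / t) * α) ≤ 3 / 8 * exp (-(2 * C * log (C / (sin α / 12)))))
    (h3 : 2 * (2 * C * log (C / (sin α / 12))) ≤ s / t) (R : ℝ)
    (hR : Metric.ball (1 : ℂ) R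
      ⊆ closure (sigmaC ((-s : ℝ) + (t : ℝ) * Complex.I) '' {n | 1 ≤ n})) :
    R ≤ exp (-(π - 3 * α) * (s * (s - 1)) / t) := by
  have hpi := pi_gt_three
  have hs1 := sin_le_one α
  have hs0 : 0 < sin α := sin_pos_of_pos_of_lt_pi hα (by linarith)
  have hC1 : 1 ≤ C := by have : 0 < 1 / (s - 1) := by have := sub_pos.mpr hs; positivity
                         linarith
  have hsC : s ≤ C * (s - 1) := by
    have := mul_le_mul_of_nonneg_right hC (sub_pos.mpr hs).le
    rwa [add_mul, one_div, inv_mul_cancel₀ (sub_pos.mpr hs).ne', one_mul, sub_add_cancel] at this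
  set b := (s - 1) / t with hb
  have hb0 : 0 < b := div_pos (by linarith) ht
  set E := exp (-b * α) with hE
  have hE0 : 0 < E := exp_pos _
  set X := exp (-(π - 3 * α) * (s * (s - 1)) / t) with hX
  have hX0 : 0 < X := exp_pos _
  set x := exp (b * (π - 3 * α)) with hx
  have hx1 : 1 ≤ x := one_le_exp (mul_nonneg hb0.le (by linarith))
  have hxX : x ^ (-s) = X := by rw [hx, hX, hb, ← exp_mul]; congr 1; field_simp
  have hX1 : X ≤ 1 := by rw [← hxX]; exact Real.rpow_le_one_of_one_le_of_nonpos hx1 (by linarith)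
  have key : ∀ q : ℝ, 1 ≤ q → q ≤ x →
      (q * exp ((π - 2 * α) / t)) ^ (1 - s) ≤ E * q ^ (-s) := fun q hq hqx => by
    have e1 : q ^ (1 - s) = q * q ^ (-s) := by
      rw [sub_eq_add_neg, Real.rpow_add (by linarith), Real.rpow_one]
    have e2 : exp ((π - 2 * α) / t) ^ (1 - s) * x = E := by
      rw [hx, hE, hb, ← exp_mul, ← exp_add]; congr 1; field_simp; ring
    have e3 : 0 ≤ exp ((π - 2 * α) / t) ^ (1 - s) * q ^ (-s) := by positivity
    rw [Real.mul_rpow (by linarith) (exp_pos _).le, e1, ← e2]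
    nlinarith
  set m := 2 * C * E * X with hm
  have hm0 : 0 < m := by positivity
  have hm1 : m ≤ 2 * C * E := mul_le_of_le_one_right (by positivity) hX1
  set w : ℂ := (-(2 * m) : ℝ) * Complex.I * Complex.exp ((t * Real.log x - α : ℝ) * Complex.I)
    with hw
  have hwn : ‖w‖ = 2 * m := by
    rw [hw, norm_mul, norm_mul, Complex.norm_exp_ofReal_mul_I, Complex.norm_I, Complex.norm_real,
      norm_neg, Real.norm_of_nonneg (by linarith), mul_one, mul_one]
  have hwe := Complex.norm_exp_sub_one_le (x := w) (by linarith)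
  refine le_of_far _ (Complex.exp w) (m / 4) X R (by linarith) (fun v hv => ?_)
    (by linarith [mul_le_mul_of_nonneg_right (h1.trans hs1) hX0.le]) hR
  obtain ⟨S, k, hk, rfl⟩ := exists_prod' s t v hv
  have hp2 : ∀ p ∈ S, (2 : ℝ) ≤ p := fun p hp => by exact_mod_cast (hk p hp).1.two_le
  by_cases hA : ∑ p ∈ S, (p : ℝ) ^ (-s) ≤ sin α / 12
  · have hz : ∀ p ∈ S, (p : ℝ) ^ (-s) ≤ sin α / 12 := fun p hp =>
      (single_le_sum (f := fun p : ℕ => (p : ℝ) ^ (-s)) (fun _ _ => by positivity) hp).trans hA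
    rw [exp_sum_log s t S k fun p hp => by linarith [hz p hp]]
    set W := ∑ p ∈ S, Complex.log (fk (zz s t p) (k p)) with hW
    have hWn : ‖W‖ ≤ 2 * ∑ p ∈ S, (p : ℝ) ^ (-s) := by
      rw [mul_sum]
      refine (norm_sum_le _ _).trans (sum_le_sum fun p hp => ?_)
      rw [← norm_zz s t p]
      exact norm_log_fk_le _ (by rw [norm_zz]; linarith [hz p hp]) _ (hk p hp).2
    refine le_trans ?_ (exp_lip W w (by linarith) (by linarith))
    refine div_le_div_of_nonneg_right ?_ (by norm_num)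
    by_cases hB : ∀ p ∈ S, x ≤ p
    · have a1 := half_plane s t α C x hs ht hC hα hα' hx1 S k (fun p hp => (hk p hp).2) hz hB
      have a2 := key x hx1 le_rfl
      have a3 : 0 ≤ sin α / 2 * ∑ p ∈ S.filter
        (fun p : ℕ => (p : ℝ) ≤ x * exp ((π - 2 * α) / t)), (p : ℝ) ^ (-s) := by positivity
      have a4 : (w * Complex.exp ((-(t * Real.log x - α) : ℝ) * Complex.I)).im = -(2 * m) := by
        rw [hw, mul_assoc, ← Complex.exp_add, ← add_mul, ← Complex.ofReal_add, add_neg_cancel]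
        simp
      have a5 := Complex.im_le_norm ((W - w) * Complex.exp ((-(t * Real.log x - α) : ℝ) * Complex.I))
      rw [norm_mul, Complex.norm_exp_ofReal_mul_I, mul_one, sub_mul, Complex.sub_im, a4] at a5
      rw [hxX] at a2
      linarith [mul_le_mul_of_nonneg_left a2 (by linarith : 0 ≤ C)]
    · push Not at hB
      obtain ⟨p, hp, hpx⟩ := hB
      obtain ⟨q, hq, hmin⟩ := exists_min_image S id ⟨p, hp⟩
      have hqx : (q : ℝ) ≤ x := le_trans (by exact_mod_cast hmin p hp) hpx.le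
      have hq1 : (1 : ℝ) ≤ q := by linarith [hp2 q hq]
      have a1 := half_plane s t α C q hs ht hC hα hα' hq1 S k (fun p hp => (hk p hp).2) hz
        fun p hp => by exact_mod_cast hmin p hp
      have a2 := key q hq1 hqx
      have a3 : (q : ℝ) ^ (-s) ≤ ∑ p ∈ S.filter
          (fun p : ℕ => (p : ℝ) ≤ q * exp ((π - 2 * α) / t)), (p : ℝ) ^ (-s) := by
        refine single_le_sum (f := fun p : ℕ => (p : ℝ) ^ (-s)) (fun _ _ => by positivity)
          (mem_filter.mpr ⟨hq, ?_⟩)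
        have : 1 ≤ exp ((π - 2 * α) / t) := one_le_exp (div_nonneg (by linarith) ht.le)
        nlinarith
      have a4 : X ≤ (q : ℝ) ^ (-s) := by
        rw [← hxX]; exact Real.rpow_le_rpow_of_nonpos (by linarith) hqx (by linarith)
      have a5 := Complex.im_le_norm (W * Complex.exp ((-(t * Real.log q - α) : ℝ) * Complex.I))
      rw [norm_mul, Complex.norm_exp_ofReal_mul_I, mul_one] at a5
      have a6 := norm_sub_norm_le W w
      have a7 : 6 * C * E * (q : ℝ) ^ (-s) ≤ sin α / 4 * (q : ℝ) ^ (-s) :=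
        mul_le_mul_of_nonneg_right (by linarith) (by positivity)
      have a8 : C * E * X ≤ C * E * (q : ℝ) ^ (-s) := mul_le_mul_of_nonneg_left a4 (by positivity)
      have a9 := mul_le_mul_of_nonneg_left a3 hs0.le
      have a10 := mul_le_mul_of_nonneg_left a2 (by linarith : 0 ≤ C)
      linarith
  · obtain ⟨q, hq, hmin⟩ := exists_min_image S id
      (nonempty_iff_ne_empty.mpr fun h => hA (by rw [h, sum_empty]; positivity))
    have hq2 := hp2 q hq
    have a1 := tail_le s hs (3 / 4 * q) (by linarith) S fun p hp => by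
      have : (q : ℝ) ≤ p := by exact_mod_cast hmin p hp
      linarith
    have a2 : sin α / 12 ≤ C * (3 / 4 * q : ℝ) ^ (1 - s) :=
      (not_le.mp hA).le.trans (a1.trans (mul_le_mul_of_nonneg_right hC (by positivity)))
    have a3 : (s - 1) * log (3 / 4 * q) ≤ log (C / (sin α / 12)) := by
      have := Real.log_le_log (by positivity) a2
      rw [Real.log_mul (by linarith) (by positivity), Real.log_rpow (by linarith)] at this
      rw [Real.log_div (by linarith) (by positivity)]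
      linarith
    have a4 : log q ≤ 2 * log (3 / 4 * q) := by
      have := Real.log_le_log (by linarith) (show (q : ℝ) ≤ (3 / 4 * q) ^ 2 by nlinarith)
      rwa [Real.log_pow] at this
    have a5 : 0 ≤ log q := Real.log_natCast_nonneg q
    set Λ := 2 * C * log (C / (sin α / 12)) with hΛ
    have a6 : s * log q ≤ Λ := by
      have b1 := mul_le_mul_of_nonneg_right hsC a5
      have b2 := mul_le_mul_of_nonneg_left a4 (by linarith : 0 ≤ C * (s - 1))
      have b3 := mul_le_mul_of_nonneg_left a3 (by linarith : 0 ≤ C)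
      linarith
    have a7 : t * log q ≤ 1 / 2 := by
      rw [le_div_iff₀ ht] at h3
      have b1 := mul_le_mul_of_nonneg_left a6 ht.le
      exact le_of_mul_le_mul_left (a := s) (by linarith) (by linarith)
    have a8 := big_prod s t C hs ht hC S k hk q hq a7
    have a9 : exp (-Λ) ≤ (q : ℝ) ^ (-s) := by
      rw [Real.rpow_def_of_pos (by linarith)]; exact exp_le_exp.mpr (by linarith)
    have a10 : (q : ℝ) ^ (-s) ≤ 1 :=
      Real.rpow_le_one_of_one_le_of_nonpos (by linarith) (by linarith)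
    have a11 : exp (-b / 2) ≤ E :=
      exp_le_exp.mpr (by linarith [mul_le_mul_of_nonneg_left hα' hb0.le])
    have a12 := mul_le_mul_of_nonneg_left a11 (by linarith : 0 ≤ C)
    have a13 := norm_sub_norm_le (∏ p ∈ S, fk (zz s t p) (k p)) (Complex.exp w)
    have a14 := norm_sub_norm_le (Complex.exp w) 1
    rw [norm_one] at a14
    have a15 : 0 ≤ C * exp (-b / 2) := by positivity
    linarith [mul_le_mul_of_nonneg_left a10 a15]

end Pool.Agent.Lib.MP_3ba922_nt
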