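import Pool.Agent.Lib.MP_3ba922_nt.Fill

/-! Weighted prime sums over windows, and rounding in a planar zonotope. -/

set_option autoImplicit false

namespace Pool.Agent.Lib.MP_3ba922_nt

open Finset Filter Topology Real MeasureTheory

/-- weighted mass of the primes in `(y, Y]` -/
noncomputable def Ms (s y Y : ℝ) : ℝ := ∑ p ∈ pr y Y, Real.log p * (p : ℝ) ^ (-s)

/-- the prime number theorem with relative error `η` from `y0` on -/
def Pnt (η y0 : ℝ) : Prop := ∀ x, y0 ≤ x → |Chebyshev.theta x - x| ≤ η * x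

theorem exists_pnt (η : ℝ) (hη : 0 < η) : ∃ y0, 1 ≤ y0 ∧ Pnt η y0 := by
  obtain ⟨y0, hy0⟩ := eventually_atTop.mp
    (Pool.Agent.Shared.PNTAP.theta_pnt.eventually (Metric.closedBall_mem_nhds 1 hη))
  refine ⟨max y0 1, le_max_right _ _, fun x hx => ?_⟩
  have h1 := hy0 x ((le_max_left _ _).trans hx)
  have h2 : 0 < x := lt_of_lt_of_le one_pos ((le_max_right _ _).trans hx)
  rw [Real.dist_eq] at h1
  have e : Chebyshev.theta x - x = (Chebyshev.theta x / x - 1) * x := by field_simp
  rw [e, abs_mul, abs_of_pos h2]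
  exact mul_le_mul_of_nonneg_right h1 h2.le

theorem Ms_est (η y0 s y Y : ℝ) (hP : Pnt η y0) (hη : 0 ≤ η) (hs : 1 < s) (hy0 : y0 ≤ y)
    (hy : 1 ≤ y) (hY : y ≤ Y) :
    |Ms s y Y - (y ^ (1 - s) - Y ^ (1 - s)) / (s - 1)| ≤ η * (2 + s / (s - 1)) * y ^ (1 - s) := by
  have hd : ∀ x : ℝ, 0 < x → HasDerivAt (fun x : ℝ => x ^ (-s)) (-s * x ^ (-s - 1)) x :=
    fun x hx => Real.hasDerivAt_rpow_const (Or.inl hx.ne')
  have hc : ∀ r : ℝ, ContinuousOn (fun x : ℝ => x ^ r) (Set.Icc y Y) := fun r =>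
    continuousOn_id.rpow_const fun x hx => Or.inl (by have := hx.1; simp only [id]; linarith)
  have hint : IntegrableOn (deriv fun x : ℝ => x ^ (-s)) (Set.Icc y Y) := by
    refine ((continuousOn_const.mul (hc (-s - 1))).integrableOn_Icc (μ := volume)).congr_fun
      (fun x hx => ((hd x (by have := hx.1; linarith)).deriv).symm) measurableSet_Icc
  set c : ℕ → ℝ := fun k => if k.Prime then Real.log k else 0 with hcdef
  have hθ : ∀ x : ℝ, ∑ k ∈ Icc 0 ⌊x⌋₊, c k = Chebyshev.theta x := fun x => by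
    rw [Chebyshev.theta_eq_sum_Icc, sum_filter]
  have hA := sum_mul_eq_sub_sub_integral_mul c (f := fun x : ℝ => x ^ (-s)) (by linarith) hY
    (fun x hx => (hd x (by have := hx.1; linarith)).differentiableAt) hint
  have hI := (integrableOn_mul_sum_Icc c (m := 0) (by linarith) hint).mono_set Set.Ioc_subset_Icc_self
  simp only [hθ] at hA hI
  have hM : Ms s y Y = ∑ k ∈ Ioc ⌊y⌋₊ ⌊Y⌋₊, (k : ℝ) ^ (-s) * c k := by
    rw [Ms, pr, sum_filter]
    refine sum_congr rfl fun k _ => ?_
    simp only [hcdef]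
    split_ifs <;> ring
  have hJ : ∫ x in Set.Ioc y Y, x ^ (-s) = (y ^ (1 - s) - Y ^ (1 - s)) / (s - 1) := by
    rw [← intervalIntegral.integral_of_le hY, integral_rpow (Or.inr ⟨by linarith, by
      rw [Set.uIcc_of_le hY]; intro h; have := h.1; linarith⟩)]
    rw [show -s + 1 = 1 - s by ring, div_eq_div_iff (by linarith) (by linarith)]
    ring
  have hI2 : ∀ a : ℝ, IntegrableOn (fun x : ℝ => a * x ^ (-s)) (Set.Ioc y Y) := fun a =>
    ((continuousOn_const.mul (hc (-s))).integrableOn_Icc).mono_set Set.Ioc_subset_Icc_self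
  have hpt : ∀ x ∈ Set.Ioc y Y, |deriv (fun x : ℝ => x ^ (-s)) x * Chebyshev.theta x
      + s * x ^ (-s)| ≤ η * s * x ^ (-s) := fun x hx => by
    have h0 : 0 < x := by have := hx.1; linarith
    have h1 := hP x (by have := hx.1; linarith)
    have e : x ^ (-s) = x ^ (-s - 1) * x := by
      rw [← Real.rpow_add_one h0.ne']; congr 1; ring
    have h2 : 0 < x ^ (-s - 1) := Real.rpow_pos_of_pos h0 _
    rw [(hd x h0).deriv, e, show -s * x ^ (-s - 1) * Chebyshev.theta x + s * (x ^ (-s - 1) * x)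
      = -(s * x ^ (-s - 1)) * (Chebyshev.theta x - x) by ring, abs_mul, abs_neg,
      abs_of_pos (by positivity)]
    have := mul_le_mul_of_nonneg_left h1 (show 0 ≤ s * x ^ (-s - 1) by positivity)
    linarith
  have hU := setIntegral_mono_on hI (hI2 (-s + η * s)) measurableSet_Ioc fun x hx => by
    have := (abs_le.mp (hpt x hx)).2
    linarith
  have hL := setIntegral_mono_on (hI2 (-s - η * s)) hI measurableSet_Ioc fun x hx => by
    have := (abs_le.mp (hpt x hx)).1
    linarith
  rw [integral_const_mul, hJ] at hU hL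
  have e1 : ∀ x : ℝ, 0 < x → x ^ (1 - s) = x ^ (-s) * x := fun x h0 => by
    rw [← Real.rpow_add_one h0.ne']; congr 1; ring
  have hb : ∀ x, y ≤ x → |x ^ (-s) * Chebyshev.theta x - x ^ (1 - s)| ≤ η * y ^ (1 - s) :=
    fun x hx => by
      have h0 : 0 < x := by linarith
      have h1 := hP x (by linarith)
      have h2 : 0 < x ^ (-s) := Real.rpow_pos_of_pos h0 _
      have h3 : x ^ (1 - s) ≤ y ^ (1 - s) :=
        Real.rpow_le_rpow_of_nonpos (by linarith) hx (by linarith)
      rw [e1 x h0, ← mul_sub, abs_mul, abs_of_pos h2]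
      have := mul_le_mul_of_nonneg_left h1 h2.le
      have := mul_le_mul_of_nonneg_left h3 hη
      rw [e1 x h0] at this
      linarith
  have b1 := abs_le.mp (hb y le_rfl)
  have b2 := abs_le.mp (hb Y hY)
  set J := (y ^ (1 - s) - Y ^ (1 - s)) / (s - 1) with hJd
  have j1 : J * (s - 1) = y ^ (1 - s) - Y ^ (1 - s) := div_mul_cancel₀ _ (by linarith)
  have j2 : η * s * J ≤ η * (s / (s - 1)) * y ^ (1 - s) := by
    have : 0 ≤ Y ^ (1 - s) := Real.rpow_nonneg (by linarith) _
    have h : J ≤ y ^ (1 - s) / (s - 1) := div_le_div_of_nonneg_right (by linarith) (by linarith)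
    calc η * s * J ≤ η * s * (y ^ (1 - s) / (s - 1)) :=
          mul_le_mul_of_nonneg_left h (by positivity)
      _ = _ := by ring
  rw [hM, hA, abs_le]
  constructor <;> linarith

theorem round2 {ι : Type} (B : Finset ι) (u : ι → ℂ) (m : ℝ) (hm0 : 0 ≤ m)
    (hm : ∀ i ∈ B, ‖u i‖ ≤ m) (θ : ι → ℝ) (h0 : ∀ i ∈ B, 0 ≤ θ i) (h1 : ∀ i ∈ B, θ i ≤ 1) :
    ∃ S ⊆ B, ‖∑ i ∈ B, (θ i : ℂ) * u i - ∑ i ∈ S, u i‖ ≤ 2 * m := by
  classical
  generalize hn : (B.filter fun i => 0 < θ i ∧ θ i < 1).card = n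
  induction n using Nat.strong_induction_on generalizing θ with
  | _ n ih =>
  set F := B.filter fun i => 0 < θ i ∧ θ i < 1 with hF
  by_cases hc : n ≤ 2
  · refine ⟨B.filter fun i => θ i = 1, filter_subset _ _, ?_⟩
    have e : ∑ i ∈ B, (θ i : ℂ) * u i - ∑ i ∈ B.filter fun i => θ i = 1, u i
        = ∑ i ∈ F, (θ i : ℂ) * u i := by
      rw [hF, sum_filter, sum_filter, ← sum_sub_distrib]
      refine sum_congr rfl fun i hi => ?_
      by_cases a : θ i = 1
      · simp [a]
      · by_cases b : θ i = 0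
        · simp [b]
        · rw [if_neg a, if_pos ⟨lt_of_le_of_ne (h0 i hi) (Ne.symm b), lt_of_le_of_ne (h1 i hi) a⟩,
            sub_zero]
    rw [e]
    refine (norm_sum_le _ _).trans ((sum_le_card_nsmul _ _ m fun i hi => ?_).trans ?_)
    · have hi := (mem_filter.mp hi).1
      rw [norm_mul, Complex.norm_real, Real.norm_of_nonneg (h0 i hi)]
      exact (mul_le_of_le_one_left (norm_nonneg _) (h1 i hi)).trans (hm i hi)
    · rw [hn, nsmul_eq_mul]
      exact mul_le_mul_of_nonneg_right (by exact_mod_cast hc) hm0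
  · have hdep : ¬ LinearIndependent ℝ fun i : F => u i := fun h => by
      have := h.fintype_card_le_finrank
      rw [Fintype.card_coe, Complex.finrank_real_complex] at this
      omega
    obtain ⟨g, hg, i0, hi0⟩ := Fintype.not_linearIndependent_iff.mp hdep
    set c : ι → ℝ := fun i => if h : i ∈ F then g ⟨i, h⟩ else 0 with hcd
    have hc0 : ∀ i, i ∉ F → c i = 0 := fun i hi => dif_neg hi
    have hsum : ∑ i ∈ B, (c i : ℂ) * u i = 0 := by
      rw [← sum_subset (filter_subset _ B : F ⊆ B) fun i _ hi => by rw [hc0 i hi]; simp,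
        ← sum_coe_sort, ← hg]
      exact sum_congr rfl fun i _ => by simp [hcd]
    set r : ι → ℝ := fun i => if 0 < c i then (1 - θ i) / c i else θ i / (-c i) with hr
    obtain ⟨j, hj, hmin⟩ := exists_min_image (F.filter fun i => c i ≠ 0) r
      ⟨i0, mem_filter.mpr ⟨i0.2, by simpa [hcd] using hi0⟩⟩
    obtain ⟨hjF, hjc⟩ := mem_filter.mp hj
    have hjθ := (mem_filter.mp hjF).2
    have hr0 : 0 ≤ r j := by
      simp only [hr]
      split_ifs with h
      · exact div_nonneg (by linarith) h.le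
      · exact div_nonneg hjθ.1.le (by linarith)
    have hb : ∀ i ∈ B, 0 ≤ θ i + r j * c i ∧ θ i + r j * c i ≤ 1 := fun i hi => by
      by_cases a : c i = 0
      · rw [a, mul_zero, add_zero]; exact ⟨h0 i hi, h1 i hi⟩
      · have hiF : i ∈ F := by_contra fun h => a (hc0 i h)
        have b := hmin i (mem_filter.mpr ⟨hiF, a⟩)
        have b0 := h0 i hi
        have b1 := h1 i hi
        by_cases d : 0 < c i
        · rw [show r i = (1 - θ i) / c i from if_pos d, le_div_iff₀ d] at b
          exact ⟨by positivity, by linarith⟩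
        · have d' : 0 < -c i := by
            have := lt_of_le_of_ne (not_lt.mp d) a
            linarith
          rw [show r i = θ i / (-c i) from if_neg d, le_div_iff₀ d'] at b
          exact ⟨by linarith, by nlinarith⟩
    have hlt : (B.filter fun i => 0 < θ i + r j * c i ∧ θ i + r j * c i < 1).card < n := by
      rw [← hn]
      refine card_lt_card ⟨fun i hi => ?_, fun h => ?_⟩
      · by_contra a
        have := mem_filter.mp hi
        rw [hc0 i a, mul_zero, add_zero] at this
        exact a (mem_filter.mpr this)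
      · have a := (mem_filter.mp (h hjF)).2
        by_cases d : 0 < c j
        · rw [show r j = (1 - θ j) / c j from if_pos d, div_mul_cancel₀ _ hjc] at a
          linarith [a.2]
        · rw [show r j = θ j / (-c j) from if_neg d, div_neg, neg_mul, div_mul_cancel₀ _ hjc] at a
          linarith [a.1]
    obtain ⟨S, hS, h⟩ := ih _ hlt (fun i => θ i + r j * c i) (fun i hi => (hb i hi).1)
      (fun i hi => (hb i hi).2) rfl
    refine ⟨S, hS, ?_⟩
    have e : ∑ i ∈ B, ((θ i + r j * c i : ℝ) : ℂ) * u i = ∑ i ∈ B, (θ i : ℂ) * u i := by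
      have : ∀ i, ((θ i + r j * c i : ℝ) : ℂ) * u i = θ i * u i + r j * (c i * u i) := fun i => by
        push_cast; ring
      simp only [this, sum_add_distrib, ← mul_sum, hsum, mul_zero, add_zero]
    rwa [e] at h

end Pool.Agent.Lib.MP_3ba922_nt
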