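import Pool.Agent.Lib.MP_3ba922_nt.Sharp1

/-! The sharp upper bound for the radius near the real axis: auxiliary estimates. -/

set_option autoImplicit false

namespace Pool.Agent.Lib.MP_3ba922_nt

open Finset Filter Topology Real

theorem far_small (s t α C : ℝ) (hs : 1 < s) (ht : 0 < t) (hC : 1 + 1 / (s - 1) ≤ C)
    (hα : 0 < α) (hα' : α ≤ 1 / 2) (h1 : 24 * C * exp (-((s - 1) / t) * α) ≤ sin α)
    (h2 : 13 * C * exp (-((s - 1) / t) * α) ≤ 3 / 8 * exp (-(2 * C * log (C / (sin α / 12)))))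
    (h3 : 2 * (2 * C * log (C / (sin α / 12))) ≤ s / t) (S : Finset ℕ) (k : ℕ → ℕ)
    (hk : ∀ p ∈ S, p.Prime ∧ 1 ≤ k p) (p : ℕ) (hp : p ∈ S)
    (hpx : (p : ℝ) ≤ exp ((s - 1) / t * (π - 3 * α))) :
    C * exp (-((s - 1) / t) * α) * exp (-(π - 3 * α) * (s * (s - 1)) / t)
      ≤ ‖∏ p ∈ S, fk (zz s t p) (k p) - 1‖ := by
  have hpi := pi_gt_three
  have hs1 := sin_le_one α
  have hs0 : 0 < sin α := sin_pos_of_pos_of_lt_pi hα (by linarith)
  have hC1 : 1 ≤ C := by have : 0 < 1 / (s - 1) := by have := sub_pos.mpr hs; positivity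
                         linarith
  have hsC : s ≤ C * (s - 1) := by
    have := mul_le_mul_of_nonneg_right hC (sub_pos.mpr hs).le
    rwa [add_mul, one_div, inv_mul_cancel₀ (sub_pos.mpr hs).ne', one_mul, sub_add_cancel] at this
  set b := (s - 1) / t with hb
  have hb0 : 0 < b := div_pos (by linarith) ht
  set E := exp (-b * α) with hE
  have hE0 : 0 < E := exp_pos _
  set X := exp (-(π - 3 * α) * (s * (s - 1)) / t) with hX
  have hX0 : 0 < X := exp_pos _
  set x := exp (b * (π - 3 * α)) with hx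
  have hx1 : 1 ≤ x := one_le_exp (mul_nonneg hb0.le (by linarith))
  have hxX : x ^ (-s) = X := by rw [hx, hX, hb, ← exp_mul]; congr 1; field_simp
  have hX1 : X ≤ 1 := by rw [← hxX]; exact Real.rpow_le_one_of_one_le_of_nonpos hx1 (by linarith)
  have key : ∀ q : ℝ, 1 ≤ q → q ≤ x →
      (q * exp ((π - 2 * α) / t)) ^ (1 - s) ≤ E * q ^ (-s) := fun q hq hqx => by
    have e1 : q ^ (1 - s) = q * q ^ (-s) := by
      rw [sub_eq_add_neg, Real.rpow_add (by linarith), Real.rpow_one]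
    have e2 : exp ((π - 2 * α) / t) ^ (1 - s) * x = E := by
      rw [hx, hE, hb, ← exp_mul, ← exp_add]; congr 1; field_simp; ring
    have e3 : 0 ≤ exp ((π - 2 * α) / t) ^ (1 - s) * q ^ (-s) := by positivity
    rw [Real.mul_rpow (by linarith) (exp_pos _).le, e1, ← e2]
    nlinarith
  have hp2 : ∀ p ∈ S, (2 : ℝ) ≤ p := fun p hp => by exact_mod_cast (hk p hp).1.two_le
  obtain ⟨q, hq, hmin⟩ := exists_min_image S id ⟨p, hp⟩
  have hq2 := hp2 q hq
  by_cases hA : ∑ p ∈ S, (p : ℝ) ^ (-s) ≤ sin α / 12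
  · have hz : ∀ p ∈ S, (p : ℝ) ^ (-s) ≤ sin α / 12 := fun p hp =>
      (single_le_sum (f := fun p : ℕ => (p : ℝ) ^ (-s)) (fun _ _ => by positivity) hp).trans hA
    rw [exp_sum_log s t S k fun p hp => by linarith [hz p hp]]
    set W := ∑ p ∈ S, Complex.log (fk (zz s t p) (k p)) with hW
    have hWn : ‖W‖ ≤ 2 * ∑ p ∈ S, (p : ℝ) ^ (-s) := by
      rw [mul_sum]
      refine (norm_sum_le _ _).trans (sum_le_sum fun p hp => ?_)
      rw [← norm_zz s t p]
      exact norm_log_fk_le _ (by rw [norm_zz]; linarith [hz p hp]) _ (hk p hp).2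
    have hl := exp_lip W 0 (by linarith) (by simp)
    rw [sub_zero, Complex.exp_zero] at hl
    refine le_trans ?_ hl
    have hqx : (q : ℝ) ≤ x := le_trans (by exact_mod_cast hmin p hp) hpx
    have hq1 : (1 : ℝ) ≤ q := by linarith
    have a1 := half_plane s t α C q hs ht hC hα hα' hq1 S k (fun p hp => (hk p hp).2) hz
      fun p hp => by exact_mod_cast hmin p hp
    have a2 := key q hq1 hqx
    have a3 : (q : ℝ) ^ (-s) ≤ ∑ p ∈ S.filter
        (fun p : ℕ => (p : ℝ) ≤ q * exp ((π - 2 * α) / t)), (p : ℝ) ^ (-s) := by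
      refine single_le_sum (f := fun p : ℕ => (p : ℝ) ^ (-s)) (fun _ _ => by positivity)
        (mem_filter.mpr ⟨hq, ?_⟩)
      have : 1 ≤ exp ((π - 2 * α) / t) := one_le_exp (div_nonneg (by linarith) ht.le)
      nlinarith
    have a4 : X ≤ (q : ℝ) ^ (-s) := by
      rw [← hxX]; exact Real.rpow_le_rpow_of_nonpos (by linarith) hqx (by linarith)
    have a5 := Complex.im_le_norm (W * Complex.exp ((-(t * Real.log q - α) : ℝ) * Complex.I))
    rw [norm_mul, Complex.norm_exp_ofReal_mul_I, mul_one] at a5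
    have a7 : 6 * C * E * (q : ℝ) ^ (-s) ≤ sin α / 4 * (q : ℝ) ^ (-s) :=
      mul_le_mul_of_nonneg_right (by linarith) (by positivity)
    have a8 : C * E * X ≤ C * E * (q : ℝ) ^ (-s) := mul_le_mul_of_nonneg_left a4 (by positivity)
    have a9 := mul_le_mul_of_nonneg_left a3 hs0.le
    have a10 := mul_le_mul_of_nonneg_left a2 (by linarith : 0 ≤ C)
    have a11 : 0 ≤ C * E * X := by positivity
    linarith
  · have a1 := tail_le s hs (3 / 4 * q) (by linarith) S fun p hp => by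
      have : (q : ℝ) ≤ p := by exact_mod_cast hmin p hp
      linarith
    have a2 : sin α / 12 ≤ C * (3 / 4 * q : ℝ) ^ (1 - s) :=
      (not_le.mp hA).le.trans (a1.trans (mul_le_mul_of_nonneg_right hC (by positivity)))
    have a3 : (s - 1) * log (3 / 4 * q) ≤ log (C / (sin α / 12)) := by
      have := Real.log_le_log (by positivity) a2
      rw [Real.log_mul (by linarith) (by positivity), Real.log_rpow (by linarith)] at this
      rw [Real.log_div (by linarith) (by positivity)]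
      linarith
    have a4 : log q ≤ 2 * log (3 / 4 * q) := by
      have := Real.log_le_log (by linarith) (show (q : ℝ) ≤ (3 / 4 * q) ^ 2 by nlinarith)
      rwa [Real.log_pow] at this
    have a5 : 0 ≤ log q := Real.log_natCast_nonneg q
    set Λ := 2 * C * log (C / (sin α / 12)) with hΛ
    have a6 : s * log q ≤ Λ := by
      have b1 := mul_le_mul_of_nonneg_right hsC a5
      have b2 := mul_le_mul_of_nonneg_left a4 (by linarith : 0 ≤ C * (s - 1))
      have b3 := mul_le_mul_of_nonneg_left a3 (by linarith : 0 ≤ C)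
      linarith
    have a7 : t * log q ≤ 1 / 2 := by
      rw [le_div_iff₀ ht] at h3
      have b1 := mul_le_mul_of_nonneg_left a6 ht.le
      exact le_of_mul_le_mul_left (a := s) (by linarith) (by linarith)
    have a8 := big_prod s t C hs ht hC S k hk q hq a7
    have a9 : exp (-Λ) ≤ (q : ℝ) ^ (-s) := by
      rw [Real.rpow_def_of_pos (by linarith)]; exact exp_le_exp.mpr (by linarith)
    have a10 : (q : ℝ) ^ (-s) ≤ 1 :=
      Real.rpow_le_one_of_one_le_of_nonpos (by linarith) (by linarith)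
    have a11 : exp (-b / 2) ≤ E :=
      exp_le_exp.mpr (by linarith [mul_le_mul_of_nonneg_left hα' hb0.le])
    have a12 := mul_le_mul_of_nonneg_left a11 (by linarith : 0 ≤ C)
    have a13 := norm_sub_norm_le (∏ p ∈ S, fk (zz s t p) (k p)) 1
    rw [norm_one] at a13
    have a15 : 0 ≤ C * exp (-b / 2) := by positivity
    have a16 : C * E * X ≤ C * E := mul_le_of_le_one_right (by positivity) hX1
    have a17 : 0 ≤ C * E := by positivity
    linarith [mul_le_mul_of_nonneg_left a10 a15]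

theorem tail_log (η y0 s h K y : ℝ) (hP : Pnt η y0) (hη : 0 ≤ η) (hh : 0 < h) (hs : 1 < s - h)
    (hy0 : y0 ≤ y) (hy : 1 < y)
    (hK : 1 / ((s - 1) * (s - h - 1)) + η * (2 + s / (s - 1)) / h
      + η * (2 + (s - h) / (s - h - 1)) / h ≤ K)
    (S : Finset ℕ) (hS : ∀ q ∈ S, q.Prime ∧ y < q) :
    ∑ q ∈ S, (q : ℝ) ^ (-s) * (log q - log y) ≤ K * y ^ (1 - s) / log y := by
  have hl : 0 < log y := log_pos hy
  obtain ⟨Y, hY1, hY2⟩ : ∃ Y : ℝ, y ≤ Y ∧ ∀ q ∈ S, (q : ℝ) ≤ Y :=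
    ⟨max y (S.sup id : ℕ), le_max_left _ _, fun q hq =>
      le_max_of_le_right (by exact_mod_cast le_sup (f := id) hq)⟩
  have hsub : S ⊆ pr y Y := fun q hq =>
    (mem_pr (by linarith) (by linarith)).mpr ⟨(hS q hq).1, (hS q hq).2, hY2 q hq⟩
  have hyh : 0 < y ^ (-h) := Real.rpow_pos_of_pos (by linarith) _
  have hterm : ∀ q : ℝ, y < q → 0 ≤ q ^ (-s) * (log q - log y) ∧
      q ^ (-s) * (log q - log y) * (h * log y)
        ≤ y ^ (-h) * (log q * q ^ (-(s - h))) - log q * q ^ (-s) := fun q hq => by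
    have q0 : 0 < q := by linarith
    have a1 : log y ≤ log q := log_le_log (by linarith) hq.le
    have a2 : 0 < q ^ (-s) := Real.rpow_pos_of_pos q0 _
    refine ⟨mul_nonneg a2.le (by linarith), ?_⟩
    have a3 : q ^ (-(s - h)) = q ^ (-s) * q ^ h := by rw [← Real.rpow_add q0]; congr 1; ring
    have a4 : h * (log q - log y) + 1 ≤ y ^ (-h) * q ^ h := by
      rw [Real.rpow_def_of_pos (by linarith), Real.rpow_def_of_pos q0, ← exp_add]
      exact le_trans (le_of_eq (by ring)) (add_one_le_exp _)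
    have a5 : 0 ≤ q ^ (-s) * (h * (log q - log y)) :=
      mul_nonneg a2.le (mul_nonneg hh.le (by linarith))
    have a6 := mul_le_mul_of_nonneg_left a1 a5
    have a7 := mul_le_mul_of_nonneg_left a4 (mul_nonneg a2.le (by linarith : 0 ≤ log q))
    rw [a3]
    linarith
  have b1 : (∑ q ∈ S, (q : ℝ) ^ (-s) * (log q - log y)) * (h * log y)
      ≤ y ^ (-h) * Ms (s - h) y Y - Ms s y Y := by
    refine le_trans (mul_le_mul_of_nonneg_right (sum_le_sum_of_subset_of_nonneg hsub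
      fun q hq _ => (hterm q ((mem_pr (by linarith) (by linarith)).mp hq).2.1).1)
      (by positivity)) ?_
    rw [Ms, Ms, sum_mul, mul_sum, ← sum_sub_distrib]
    exact sum_le_sum fun q hq => (hterm q ((mem_pr (by linarith) (by linarith)).mp hq).2.1).2
  have b2 := (abs_le.mp (Ms_est η y0 (s - h) y Y hP hη hs hy0 hy.le hY1)).2
  have b3 := (abs_le.mp (Ms_est η y0 s y Y hP hη (by linarith) hy0 hy.le hY1)).1
  have e1 : y ^ (-h) * y ^ (1 - (s - h)) = y ^ (1 - s) := by
    rw [← Real.rpow_add (by linarith)]; congr 1; ring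
  have e2 : Y ^ (1 - s) ≤ y ^ (-h) * Y ^ (1 - (s - h)) := by
    have : Y ^ (1 - s) = Y ^ (-h) * Y ^ (1 - (s - h)) := by
      rw [← Real.rpow_add (by linarith)]; congr 1; ring
    rw [this]
    exact mul_le_mul_of_nonneg_right (Real.rpow_le_rpow_of_nonpos (by linarith) hY1 (by linarith))
      (Real.rpow_nonneg (by linarith) _)
  have e3 : 0 ≤ Y ^ (1 - s) := Real.rpow_nonneg (by linarith) _
  have e4 : 0 < y ^ (1 - s) := Real.rpow_pos_of_pos (by linarith) _
  have b4 := mul_le_mul_of_nonneg_left b2 hyh.le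
  have e5 : y ^ (-h) * ((y ^ (1 - (s - h)) - Y ^ (1 - (s - h))) / (s - h - 1))
      - (y ^ (1 - s) - Y ^ (1 - s)) / (s - 1) ≤ h * (1 / ((s - 1) * (s - h - 1))) * y ^ (1 - s) := by
    have c1 : Y ^ (1 - s) / (s - 1) ≤ y ^ (-h) * Y ^ (1 - (s - h)) / (s - h - 1) :=
      div_le_div₀ (by linarith) e2 (by linarith) (by linarith)
    have c2 : h * (1 / ((s - 1) * (s - h - 1))) * y ^ (1 - s)
        = y ^ (1 - s) / (s - h - 1) - y ^ (1 - s) / (s - 1) := by
      have : s - 1 ≠ 0 := by linarith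
      have : s - h - 1 ≠ 0 := by linarith
      field_simp; ring
    rw [c2, ← mul_div_assoc, mul_sub, e1, sub_div, sub_div]
    linarith
  have b5 := mul_le_mul_of_nonneg_right (mul_le_mul_of_nonneg_left hK hh.le) e4.le
  have e6 : h * (1 / ((s - 1) * (s - h - 1)) + η * (2 + s / (s - 1)) / h
      + η * (2 + (s - h) / (s - h - 1)) / h) = h * (1 / ((s - 1) * (s - h - 1)))
      + η * (2 + s / (s - 1)) + η * (2 + (s - h) / (s - h - 1)) := by field_simp
  rw [e6] at b5
  rw [le_div_iff₀ hl]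
  refine le_of_mul_le_mul_left (a := h) ?_ hh
  have e7 : y ^ (-h) * (η * (2 + (s - h) / (s - h - 1)) * y ^ (1 - (s - h)))
      = η * (2 + (s - h) / (s - h - 1)) * y ^ (1 - s) := by rw [← e1]; ring
  rw [e7, mul_sub] at b4
  linarith

theorem lin_low (s t ψ x2 D : ℝ) (hs : 1 < s) (ht : 0 < t) (hx2 : 1 ≤ x2) (S T : Finset ℕ)
    (k : ℕ → ℕ) (hk : ∀ p ∈ S, p.Prime ∧ 1 ≤ k p) (hz : ∀ p ∈ S, (p : ℝ) ^ (-s) ≤ 1 / 4)
    (hS : ∀ p ∈ S, x2 < p) (hψ : ∀ p ∈ S, ψ ≤ t * log p)
    (hT : T ⊆ S.filter fun p : ℕ => (p : ℝ) ≤ exp ((ψ + π) / t))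
    (hD : ∑ q ∈ S.filter (fun p : ℕ => ¬ (p : ℝ) ≤ exp ((ψ + π) / t)),
      (q : ℝ) ^ (-s) * (log q - log (exp ((ψ + π) / t))) ≤ D) :
    ∑ p ∈ T, (p : ℝ) ^ (-s) * sin (t * log p - ψ) - t * D - 12 * x2 ^ (1 - 2 * s)
      ≤ ((∑ p ∈ S, Complex.log (fk (zz s t p) (k p)))
        * Complex.exp ((-ψ : ℝ) * Complex.I)).im := by
  set e := Complex.exp ((-ψ : ℝ) * Complex.I) with he
  have hen : ‖e‖ = 1 := Complex.norm_exp_ofReal_mul_I _
  have a1 : ∀ p ∈ S, (p : ℝ) ^ (-s) * sin (t * log p - ψ) - 6 * (p : ℝ) ^ (-(2 * s))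
      ≤ (Complex.log (fk (zz s t p) (k p)) * e).im := fun p hp => by
    have a2 := norm_log_fk (zz s t p) (by rw [norm_zz]; exact hz p hp) _ (hk p hp).2
    rw [norm_zz] at a2
    have a8 : |((Complex.log (fk (zz s t p) (k p)) - zz s t p) * e).im| ≤ 6 * ((p : ℝ) ^ (-s)) ^ 2 :=
      (Complex.abs_im_le_norm _).trans (by rwa [norm_mul, hen, mul_one])
    rw [sub_mul, Complex.sub_im, im_zz, ← Real.rpow_natCast, ← Real.rpow_mul (by positivity)] at a8
    have a9 := (abs_le.mp a8).1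
    rw [show -s * ((2 : ℕ) : ℝ) = -(2 * s) by push_cast; ring] at a9
    linarith
  have a2 := sum_le_sum a1
  rw [← Complex.im_sum, ← sum_mul, sum_sub_distrib, ← mul_sum,
    ← sum_filter_add_sum_filter_not S (fun p : ℕ => (p : ℝ) ≤ exp ((ψ + π) / t))] at a2
  have a3 := tail_le (2 * s) (by linarith) x2 hx2 S hS
  have a4 : 1 + 1 / (2 * s - 1) ≤ 2 := by
    have : 1 / (2 * s - 1) ≤ 1 := by rw [div_le_one (by linarith)]; linarith
    linarith
  have a5 := mul_le_mul_of_nonneg_right a4 (Real.rpow_nonneg (by linarith : 0 ≤ x2) (1 - 2 * s))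
  have a6 : ∑ p ∈ T, (p : ℝ) ^ (-s) * sin (t * log p - ψ) ≤ ∑ p ∈ S.filter
      (fun p : ℕ => (p : ℝ) ≤ exp ((ψ + π) / t)), (p : ℝ) ^ (-s) * sin (t * log p - ψ) := by
    refine sum_le_sum_of_subset_of_nonneg hT fun p hp _ => mul_nonneg (by positivity) ?_
    obtain ⟨hp, hpy⟩ := mem_filter.mp hp
    have := log_le_log (by exact_mod_cast (hk p hp).1.pos) hpy
    rw [log_exp, le_div_iff₀ ht] at this
    exact sin_nonneg_of_nonneg_of_le_pi (by linarith [hψ p hp]) (by linarith)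
  have a7 : -(t * D) ≤ ∑ p ∈ S.filter (fun p : ℕ => ¬ (p : ℝ) ≤ exp ((ψ + π) / t)),
      (p : ℝ) ^ (-s) * sin (t * log p - ψ) := by
    refine le_trans (neg_le_neg (mul_le_mul_of_nonneg_left hD ht.le)) ?_
    rw [mul_sum, ← sum_neg_distrib]
    refine sum_le_sum fun p hp => ?_
    have b1 := log_le_log (exp_pos _) (not_le.mp (mem_filter.mp hp).2).le
    rw [log_exp] at b1 ⊢
    have b2 : t * ((ψ + π) / t) = ψ + π := by field_simp
    have b3 := mul_le_mul_of_nonneg_left b1 ht.le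
    have b4 := sin_le (x := t * log p - ψ - π) (by linarith)
    rw [sin_sub_pi] at b4
    have b5 : (0 : ℝ) ≤ (p : ℝ) ^ (-s) := by positivity
    have b6 := mul_le_mul_of_nonneg_left b4 b5
    have b7 : t * ((p : ℝ) ^ (-s) * (log p - (ψ + π) / t))
        = (p : ℝ) ^ (-s) * (t * log p - ψ - π) := by field_simp; ring
    linarith
  linarith

end Pool.Agent.Lib.MP_3ba922_nt
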