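import Pool.Agent.Lib.MP_3ba922_nt.Sharp2

/-! The sharp upper bound for the radius near the real axis. -/

set_option autoImplicit false

namespace Pool.Agent.Lib.MP_3ba922_nt

open Finset Filter Topology Real

/-- logarithm of the critical size of the single prime -/
noncomputable def uu (s t : ℝ) : ℝ := log (π * s * (s - 1) / t) + (s - 1) * π / t - (s - 1) / s

/-- the asymptotic value of the radius -/
noncomputable def FF (s t : ℝ) : ℝ := t * exp (-s * uu s t) / (s * (s - 1))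

theorem FF_pos (s t : ℝ) (hs : 1 < s) (ht : 0 < t) : 0 < FF s t := by
  have := sub_pos.mpr hs
  unfold FF; positivity

theorem key_id (s t a : ℝ) (hs : 1 < s) (ht : 0 < t) :
    exp (uu s t + a + π / t) ^ (1 - s)
      = exp (-s * uu s t) * (π * s * (s - 1) / t) * exp (-(s - 1) * (a + 1 / s)) := by
  have := sub_pos.mpr hs
  have h : 0 < π * s * (s - 1) / t := by have := pi_pos; positivity
  rw [← exp_mul, ← exp_log h, ← exp_add, ← exp_add]
  congr 1
  have e : log (π * s * (s - 1) / t) = uu s t - (s - 1) * π / t + (s - 1) / s := by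
    rw [uu]; ring
  rw [e]; ring

theorem opt_ineq (s ξ x : ℝ) (hs : 1 < s) (hξ : 0 < ξ) (hξ' : ξ ≤ 1 / 2) :
    exp (-x) * (s * (1 + ξ) - (s - 1 - x) * (1 - ξ)) ≤ exp (4 * s * ξ) := by
  have a1 := add_one_le_exp (x + 4 * s * ξ)
  have a2 : s * (1 + ξ) - (s - 1 - x) * (1 - ξ) ≤ (1 - ξ) * (x + 4 * s * ξ + 1) := by
    have : 0 ≤ s * ξ * (1 - 2 * ξ) := mul_nonneg (by positivity) (by linarith)
    nlinarith
  have a3 := mul_le_mul_of_nonneg_left a1 (by linarith : 0 ≤ 1 - ξ)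
  have a4 : (1 - ξ) * exp (x + 4 * s * ξ) ≤ exp (x + 4 * s * ξ) :=
    mul_le_of_le_one_left (exp_pos _).le (by linarith)
  calc _ ≤ exp (-x) * exp (x + 4 * s * ξ) :=
        mul_le_mul_of_nonneg_left (by linarith) (exp_pos _).le
    _ = _ := by rw [← exp_add]; congr 1; ring

theorem far_large (s t α C η y0 h K ξ : ℝ) (hs : 1 < s) (ht : 0 < t) (hC : 1 + 1 / (s - 1) ≤ C)
    (hα : 0 < α) (hα' : α ≤ 1 / 10) (hP : Pnt η y0) (hη : 0 ≤ η) (hh : 0 < h) (hsh : 1 < s - h)
    (hK : 1 / ((s - 1) * (s - h - 1)) + η * (2 + s / (s - 1)) / h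
      + η * (2 + (s - h) / (s - h - 1)) / h ≤ K)
    (hξ : 0 < ξ) (hξ' : ξ ≤ 1 / 2) (hαξ : 7 * α ^ 2 ≤ ξ)
    (hKξ : K * (s - 1) ^ 2 * π ≤ (1 + ξ) * (π - 5 * α)) (htα : t ≤ α)
    (hL1 : 1 ≤ log (π * s * (s - 1) / t)) (hL2 : log (π * s * (s - 1) / t) ≤ α * (s - 1) / t)
    (hy0 : y0 ≤ exp (1 / t))
    (hE2 : 12 * exp ((s - 1) / t * (π - 3 * α)) ^ (1 - 2 * s) ≤ ξ * FF s t)
    (S : Finset ℕ) (k : ℕ → ℕ) (hk : ∀ p ∈ S, p.Prime ∧ 1 ≤ k p)
    (hz : ∀ p ∈ S, (p : ℝ) ^ (-s) ≤ 1 / 4)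
    (hS : ∀ p ∈ S, exp ((s - 1) / t * (π - 3 * α)) < p) :
    ∃ a : ℝ, |t * a| ≤ 5 * α * s ∧ -(exp (4 * s * ξ) + ξ) * FF s t
      ≤ ((∑ p ∈ S, Complex.log (fk (zz s t p) (k p)))
        * Complex.exp ((-(t * (uu s t + a)) : ℝ) * Complex.I)).im := by
  have hpi := pi_gt_three
  have hσ : 0 < s - 1 := sub_pos.mpr hs
  have hF := FF_pos s t hs ht
  have hσs : (s - 1) / s ≤ 1 := by rw [div_le_one (by linarith)]; linarith
  have hσs0 : 0 ≤ (s - 1) / s := by positivity
  obtain ⟨v, T, hv1, hv2, hv3, hT, hv4⟩ : ∃ (v : ℝ) (T : Finset ℕ), v ≤ (s - 1) / s ∧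
      -(4 * α * (s - 1) / t) ≤ v ∧ (∀ p ∈ S, uu s t + v ≤ log p) ∧ T ⊆ S ∧
      ((T = ∅ ∧ v = (s - 1) / s) ∨ ∃ p : ℕ, T = {p} ∧ log p = uu s t + v) := by
    by_cases hB : ∀ p ∈ S, uu s t + (s - 1) / s ≤ log p
    · refine ⟨_, ∅, le_rfl, ?_, hB, empty_subset _, Or.inl ⟨rfl, rfl⟩⟩
      have : 0 ≤ 4 * α * (s - 1) / t := by positivity
      linarith
    · push Not at hB
      obtain ⟨p, hp, hpx⟩ := hB
      obtain ⟨q, hq, hmin⟩ := exists_min_image S id ⟨p, hp⟩
      have hm : ∀ p ∈ S, log q ≤ log p := fun p hp =>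
        log_le_log (by exact_mod_cast (hk q hq).1.pos) (by exact_mod_cast hmin p hp)
      refine ⟨log q - uu s t, {q}, by linarith [hm p hp], ?_, fun p hp => by linarith [hm p hp],
        singleton_subset_iff.mpr hq, Or.inr ⟨q, rfl, by ring⟩⟩
      have a1 := log_le_log (exp_pos _) (hS q hq).le
      rw [log_exp] at a1
      have a2 : (s - 1) / t * (π - 3 * α) = (s - 1) * π / t - 3 * (α * (s - 1) / t) := by ring
      have a3 : 4 * α * (s - 1) / t = 4 * (α * (s - 1) / t) := by ring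
      rw [uu]; linarith
  set a := s * v / (s - 1) - 1 / s with ha
  have hva : v - a = (s - 1 - s * v) / (s * (s - 1)) := by rw [ha]; field_simp; ring
  have hx0 : 0 ≤ s - 1 - s * v := by
    rw [le_div_iff₀ (by linarith)] at hv1; linarith
  have hva0 : 0 ≤ v - a := by rw [hva]; positivity
  have hs1 : 1 / s ≤ 1 := by rw [div_le_one (by linarith)]; linarith
  have hs0 : 0 < 1 / s := by positivity
  have htv : -(4 * α) ≤ t * (v / (s - 1)) := by
    have := mul_le_mul_of_nonneg_left hv2 (show 0 ≤ t / (s - 1) by positivity)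
    have e1 : t / (s - 1) * -(4 * α * (s - 1) / t) = -(4 * α) := by field_simp
    have e2 : t / (s - 1) * v = t * (v / (s - 1)) := by ring
    linarith
  have hts : t * (1 / s) ≤ α := (mul_le_of_le_one_right ht.le hs1).trans htα
  have hts0 : 0 ≤ t * (1 / s) := by positivity
  have hta : t * a = s * (t * (v / (s - 1))) - t * (1 / s) := by rw [ha]; ring
  have htva : t * (v - a) ≤ 5 * α := by
    have : t * (v - a) = t * (1 / s) - t * (v / (s - 1)) := by rw [ha]; field_simp; ring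
    linarith
  have hαs : α ≤ α * s := le_mul_of_one_le_right hα.le hs.le
  have hta1 : -(5 * α * s) ≤ t * a := by
    have := mul_le_mul_of_nonneg_left htv (by linarith : 0 ≤ s)
    linarith
  have hta2 : t * a ≤ 5 * α * s := by
    have : t * a ≤ t * 1 := mul_le_mul_of_nonneg_left (by linarith) ht.le
    linarith
  refine ⟨a, abs_le.mpr ⟨hta1, hta2⟩, ?_⟩
  set ψ := t * (uu s t + a) with hψ
  have hy : (ψ + π) / t = uu s t + a + π / t := by rw [hψ]; field_simp
  have hly : s / t * (π - 5 * α) ≤ uu s t + a + π / t := by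
    have b1 : -(5 * α * s) / t ≤ a := by rw [div_le_iff₀ ht]; linarith
    have b2 : s / t * (π - 5 * α) = (s - 1) * π / t + π / t + -(5 * α * s) / t := by ring
    rw [uu]; linarith
  have hl0 : 0 < s / t * (π - 5 * α) := mul_pos (by positivity) (by linarith)
  have hl1 : 1 / t ≤ s / t * (π - 5 * α) := by
    rw [div_mul_eq_mul_div]
    exact div_le_div_of_nonneg_right (by nlinarith) ht.le
  have hD := tail_log η y0 s h K (exp ((ψ + π) / t)) hP hη hh hsh
    (hy0.trans (exp_le_exp.mpr (by linarith))) (one_lt_exp_iff.mpr (by linarith)) hK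
    (S.filter fun p : ℕ => ¬ (p : ℝ) ≤ exp ((ψ + π) / t))
    fun q hq => ⟨(hk q (mem_filter.mp hq).1).1, not_le.mp (mem_filter.mp hq).2⟩
  have hlin := lin_low s t ψ _ _ hs ht (one_le_exp (mul_nonneg (by positivity) (by linarith))) S T k
    hk hz hS (fun p hp => mul_le_mul_of_nonneg_left (by linarith [hv3 p hp]) ht.le)
    (fun p hp => mem_filter.mpr ⟨hT hp, by
      rcases hv4 with ⟨rfl, -⟩ | ⟨q, rfl, hq⟩
      · simp at hp
      · rw [mem_singleton.mp hp, ← log_le_iff_le_exp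
          (by exact_mod_cast (hk q (hT (mem_singleton_self q))).1.pos), hy, hq]
        have : v - a ≤ π / t := by rw [le_div_iff₀ ht]; linarith
        linarith⟩) hD
  refine le_trans ?_ hlin
  have hK0 : 0 ≤ K := le_trans (by have := sub_pos.mpr hsh; positivity) hK
  have c1 : t * (K * exp ((ψ + π) / t) ^ (1 - s) / log (exp ((ψ + π) / t)))
      ≤ FF s t * (exp (-(s * v)) * (s * (1 + ξ))) := by
    rw [log_exp, hy, key_id s t a hs ht, show -(s - 1) * (a + 1 / s) = -(s * v) by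
      rw [ha]; field_simp; ring]
    have d1 : K * (π * s * (s - 1) / t) / (uu s t + a + π / t) ≤ (1 + ξ) / (s - 1) := by
      refine (div_le_div_of_nonneg_left (by positivity) hl0 hly).trans ?_
      rw [div_le_div_iff₀ hl0 hσ]
      have := mul_le_mul_of_nonneg_left hKξ (show 0 ≤ s / t by positivity)
      calc _ = s / t * (K * (s - 1) ^ 2 * π) := by ring
        _ ≤ _ := this
        _ = _ := by ring
    calc _ = t * exp (-s * uu s t) * exp (-(s * v))
          * (K * (π * s * (s - 1) / t) / (uu s t + a + π / t)) := by ring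
      _ ≤ t * exp (-s * uu s t) * exp (-(s * v)) * ((1 + ξ) / (s - 1)) :=
          mul_le_mul_of_nonneg_left d1 (by positivity)
      _ = _ := by rw [FF]; field_simp
  have c2 : FF s t * (exp (-(s * v)) * ((s - 1 - s * v) * (1 - ξ)))
      ≤ ∑ p ∈ T, (p : ℝ) ^ (-s) * sin (t * log p - ψ) := by
    rcases hv4 with ⟨rfl, h0⟩ | ⟨q, rfl, hq⟩
    · rw [show s - 1 - s * v = 0 by rw [h0]; field_simp; ring]; simp
    · have q0 : (0 : ℝ) < q := by exact_mod_cast (hk q (hT (mem_singleton_self q))).1.pos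
      rw [sum_singleton, Real.rpow_def_of_pos q0, hq,
        show t * (uu s t + v) - ψ = t * (v - a) by rw [hψ]; ring]
      have d0 : 0 ≤ t * (v - a) := by positivity
      have d1 : t * (v - a) * (1 - ξ) ≤ sin (t * (v - a)) := by
        rcases d0.eq_or_lt with d | d
        · rw [← d]; simp
        · have d2 := (sin_gt_sub_cube d).le
          have d3 : (t * (v - a)) ^ 2 ≤ (5 * α) ^ 2 := pow_le_pow_left₀ d0 htva 2
          have d4 : t * (v - a) * ((t * (v - a)) ^ 2 / 6) ≤ t * (v - a) * ξ :=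
            mul_le_mul_of_nonneg_left (by linarith [sq_nonneg α]) d0
          linarith
      calc _ = exp ((uu s t + v) * -s) * (t * (v - a) * (1 - ξ)) := by
            rw [hva, FF, show (uu s t + v) * -s = -s * uu s t + -(s * v) by ring, exp_add]
            field_simp
        _ ≤ _ := mul_le_mul_of_nonneg_left d1 (exp_pos _).le
  have c3 := mul_le_mul_of_nonneg_left (opt_ineq s ξ (s * v) hs hξ hξ') hF.le
  linarith

theorem upper (s t α C η y0 h K ξ ε : ℝ) (hs : 1 < s) (ht : 0 < t) (hC : 1 + 1 / (s - 1) ≤ C)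
    (hα : 0 < α) (hα' : α ≤ 1 / 10) (hP : Pnt η y0) (hη : 0 ≤ η) (hh : 0 < h) (hsh : 1 < s - h)
    (hK : 1 / ((s - 1) * (s - h - 1)) + η * (2 + s / (s - 1)) / h
      + η * (2 + (s - h) / (s - h - 1)) / h ≤ K)
    (hξ : 0 < ξ) (hξ' : ξ ≤ 1 / 2) (hαξ : 7 * α ^ 2 ≤ ξ)
    (hKξ : K * (s - 1) ^ 2 * π ≤ (1 + ξ) * (π - 5 * α)) (htα : t ≤ α)
    (hL1 : 1 ≤ log (π * s * (s - 1) / t)) (hL2 : log (π * s * (s - 1) / t) ≤ α * (s - 1) / t)
    (hy0 : y0 ≤ exp (1 / t))
    (hE2 : 12 * exp ((s - 1) / t * (π - 3 * α)) ^ (1 - 2 * s) ≤ ξ * FF s t)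
    (h1 : 24 * C * exp (-((s - 1) / t) * α) ≤ sin α)
    (h2 : 13 * C * exp (-((s - 1) / t) * α) ≤ 3 / 8 * exp (-(2 * C * log (C / (sin α / 12)))))
    (h3 : 2 * (2 * C * log (C / (sin α / 12))) ≤ s / t)
    (hε : 0 < ε) (hfin : exp (4 * s * ξ) + 2 * ξ ≤ (1 + ε) * (1 - 13 * α ^ 2 * s ^ 2))
    (hW : C * exp ((s - 1) / t * (π - 3 * α)) ^ (1 - s) ≤ 1 / 8)
    (hF1 : (2 * (1 + ε) + 1) * FF s t
      ≤ C * exp (-((s - 1) / t) * α) * exp (-(π - 3 * α) * (s * (s - 1)) / t))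
    (hF2 : (1 + ε) * FF s t ≤ 1 / 4) (R : ℝ)
    (hR : Metric.ball (1 : ℂ) R
      ⊆ closure (sigmaC ((-s : ℝ) + (t : ℝ) * Complex.I) '' {n | 1 ≤ n})) :
    R ≤ (1 + ε) * FF s t * (1 + (1 + ε) * FF s t) := by
  have hpi := pi_gt_three
  have hF := FF_pos s t hs ht
  set m := (1 + ε) * FF s t with hm
  have hm0 : 0 < m := by positivity
  set w : ℂ := (-m : ℝ) * Complex.I * Complex.exp ((t * uu s t : ℝ) * Complex.I) with hw
  have hwn : ‖w‖ = m := by
    rw [hw, norm_mul, norm_mul, Complex.norm_exp_ofReal_mul_I, Complex.norm_I, Complex.norm_real,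
      norm_neg, Real.norm_of_nonneg hm0.le, mul_one, mul_one]
  have hwe := Complex.norm_exp_sub_one_le (x := w) (by linarith)
  have hwe2 : ‖Complex.exp w - 1‖ ≤ m * (1 + m) := by
    have b1 := Complex.norm_exp_sub_one_sub_id_le (x := w) (by linarith)
    have b2 := norm_add_le (Complex.exp w - 1 - w) w
    rw [sub_add_cancel, hwn] at b2
    rw [hwn] at b1
    linarith
  refine le_of_far _ (Complex.exp w) (ξ * FF s t / 4) _ R (by positivity) (fun v hv => ?_) hwe2 hR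
  obtain ⟨S, k, hk, rfl⟩ := exists_prod' s t v hv
  by_cases hB : ∀ p ∈ S, exp ((s - 1) / t * (π - 3 * α)) < p
  · have hx1 : 1 ≤ exp ((s - 1) / t * (π - 3 * α)) :=
      one_le_exp (mul_nonneg (div_nonneg (by linarith) ht.le) (by linarith))
    have hA : ∑ p ∈ S, (p : ℝ) ^ (-s) ≤ 1 / 8 := (tail_le s hs _ hx1 S hB).trans
      ((mul_le_mul_of_nonneg_right hC (by positivity)).trans hW)
    have hz : ∀ p ∈ S, (p : ℝ) ^ (-s) ≤ 1 / 8 := fun p hp =>
      (single_le_sum (f := fun p : ℕ => (p : ℝ) ^ (-s)) (fun _ _ => by positivity) hp).trans hA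
    rw [exp_sum_log s t S k fun p hp => by linarith [hz p hp]]
    obtain ⟨a, ha, hIm⟩ := far_large s t α C η y0 h K ξ hs ht hC hα hα' hP hη hh hsh hK hξ hξ' hαξ
      hKξ htα hL1 hL2 hy0 hE2 S k hk (fun p hp => by linarith [hz p hp]) hB
    set W := ∑ p ∈ S, Complex.log (fk (zz s t p) (k p)) with hWd
    have hWn : ‖W‖ ≤ 2 * ∑ p ∈ S, (p : ℝ) ^ (-s) := by
      rw [mul_sum]
      refine (norm_sum_le _ _).trans (sum_le_sum fun p hp => ?_)
      rw [← norm_zz s t p]
      exact norm_log_fk_le _ (by rw [norm_zz]; linarith [hz p hp]) _ (hk p hp).2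
    refine le_trans ?_ (exp_lip W w (by linarith) (by linarith))
    refine div_le_div_of_nonneg_right ?_ (by norm_num)
    have a4 : (w * Complex.exp ((-(t * (uu s t + a)) : ℝ) * Complex.I)).im = -m * cos (t * a) := by
      rw [hw, mul_assoc, ← Complex.exp_add, ← add_mul, ← Complex.ofReal_add, mul_assoc,
        Complex.im_ofReal_mul, Complex.I_mul_im, Complex.exp_ofReal_mul_I_re,
        show t * uu s t + -(t * (uu s t + a)) = -(t * a) by ring, cos_neg]
    have a5 := Complex.im_le_norm ((W - w) * Complex.exp ((-(t * (uu s t + a)) : ℝ) * Complex.I))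
    rw [norm_mul, Complex.norm_exp_ofReal_mul_I, mul_one, sub_mul, Complex.sub_im, a4] at a5
    have a6 := one_sub_sq_div_two_le_cos (x := t * a)
    have a7 : (t * a) ^ 2 ≤ (5 * α * s) ^ 2 := sq_le_sq' (abs_le.mp ha).1 (abs_le.mp ha).2
    have a8 : m * (1 - 13 * α ^ 2 * s ^ 2) ≤ m * cos (t * a) :=
      mul_le_mul_of_nonneg_left (by nlinarith [sq_nonneg (α * s)]) hm0.le
    have a9 := mul_le_mul_of_nonneg_right hfin hF.le
    rw [hm] at a8 a5
    linarith
  · push Not at hB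
    obtain ⟨p, hp, hpx⟩ := hB
    have a1 := far_small s t α C hs ht hC hα (by linarith) h1 h2 h3 S k hk p hp hpx
    have a2 := norm_sub_le_norm_sub_add_norm_sub (∏ p ∈ S, fk (zz s t p) (k p)) (Complex.exp w) 1
    have a3 := mul_le_mul_of_nonneg_right hξ' hF.le
    rw [hwn, hm] at hwe
    linarith

end Pool.Agent.Lib.MP_3ba922_nt
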