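import Pool.Agent.Lib.MP_3ba922_nt.Sharp3

/-! The sharp lower bound for the radius near the real axis: auxiliary estimates. -/

set_option autoImplicit false

namespace Pool.Agent.Lib.MP_3ba922_nt

open Finset Filter Topology Real

theorem fill_from (s t κ β γ C y0 φ : ℝ) (M : ℕ) (hs : 1 < s) (ht : 0 < t)
    (hC : 1 + 1 / (s - 1) ≤ C) (hβ : 0 < β) (hκ : (M + 1) * β = κ) (hM : M * κ = π + 4 * κ)
    (h4 : 4 * κ ≤ π) (hγ : 1 < γ) (hγt : γ ≤ exp (β / t))
    (hy : ∀ y, y0 ≤ y → (γ - 1) / 2 * y ≤ ∑ p ∈ pr y (γ * y), Real.log p)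
    (h1 : y0 ≤ exp ((s - 1) / t)) (h2 : exp (-((s - 1) / t)) ≤ sin κ / 24)
    (h3 : exp (-((s - 1) / t) * κ) * (1 + (s - 1) / t * (π + (5 + C) * κ + C * (π + 4 * κ)))
      ≤ sin κ ^ 2 * (γ - 1) / (8 * γ))
    (hφ : (s - 1) * (π + (5 + C) * κ) ≤ φ) (w : ℂ) (hw : ‖w‖ ≤ 2 * exp (-(φ - M * β) * s / t))
    (δ : ℝ) (hδ : 0 < δ) : ∃ S : Finset ℕ, (∀ p ∈ S, p.Prime ∧ exp (φ / t) < p) ∧
      ‖w - ∑ p ∈ S, Complex.log (fk (zz s t p) 1)‖ ≤ δ := by
  have hpi := pi_gt_three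
  have hMβ : 0 ≤ M * β := by positivity
  have hκ0 : 0 < κ := by linarith
  have hs0 : 0 < sin κ := sin_pos_of_pos_of_lt_pi hκ0 (by linarith)
  have hs1 := sin_le_one κ
  have hC0 : 1 / (s - 1) ≤ C := by linarith
  have hC1 : 0 < C := (one_div_pos.mpr (by linarith)).trans_le hC0
  have hsC : s ≤ C * (s - 1) := by
    have := mul_le_mul_of_nonneg_right hC (sub_pos.mpr hs).le
    rwa [add_mul, one_div, inv_mul_cancel₀ (sub_pos.mpr hs).ne', one_mul, sub_add_cancel] at this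
  rw [div_le_iff₀ (by linarith)] at hC0
  set b := (s - 1) / t with hb
  have hb0 : 0 < b := div_pos (by linarith) ht
  have hCκ : 0 < C * κ := by positivity
  have hφ1 : s - 1 ≤ φ := (le_mul_of_one_le_right (by linarith) (by linarith)).trans hφ
  have hz : ∀ ψ, φ ≤ ψ → exp (-ψ * s / t) ≤ sin κ / 24 := fun ψ h => by
    refine le_trans (exp_le_exp.mpr ?_) h2
    rw [hb, ← neg_div]
    exact div_le_div_of_nonneg_right (by nlinarith) ht.le
  set ρ : ℕ → ℝ := fun j => 2 / sin κ * exp (-(φ + j * (M * β) - M * β) * s / t) with hρ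
  have hfill := fill (fun j => blk t κ γ (φ + j * (M * β)) M)
    (blk_disj t κ γ φ β M ht hβ hκ (by linarith) hγt)
    (fun p => Complex.log (fk (zz s t p) 1)) ρ (fun j w hw => ?_) w ?_
  · have hlim : Tendsto ρ atTop (𝓝 0) := by
      rw [hρ, ← mul_zero (2 / sin κ)]
      refine (tendsto_exp_atBot.comp ?_).const_mul _
      have hM0 : 0 < M * β := by
        refine mul_pos (Nat.cast_pos.mpr (Nat.pos_of_ne_zero fun h0 => ?_)) hβ
        rw [h0, Nat.cast_zero] at hM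
        linarith
      exact ((tendsto_neg_atTop_atBot.comp (tendsto_atTop_add_const_right _ _
        (tendsto_atTop_add_const_left _ _ (tendsto_natCast_atTop_atTop.atTop_mul_const
          hM0)))).atBot_mul_const (by linarith)).atBot_div_const ht
    obtain ⟨j, hj⟩ := (hlim.eventually (ge_mem_nhds hδ)).exists
    obtain ⟨S, hS, h⟩ := hfill j
    refine ⟨S, fun p hp => ?_, h.trans hj⟩
    obtain ⟨i, -, hp⟩ := hS p hp
    obtain ⟨a0, l, -, a1, -⟩ := mem_blk (by linarith) hp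
    refine ⟨a0, lt_of_le_of_lt (exp_le_exp.mpr (div_le_div_of_nonneg_right ?_ ht.le)) a1⟩
    have : 0 ≤ i * (M * β) + l * κ := by positivity
    linarith
  · have hj : 0 ≤ j * (M * β) := by positivity
    have e : ρ (j + 1) = 2 / sin κ * exp (-(φ + j * (M * β)) * s / t) := by
      rw [hρ]; push_cast; congr 4; ring
    rw [e]
    refine block s t κ γ _ (ρ j) M (by linarith) ht hκ0 hM h4 (by linarith)
      (hγt.trans (exp_le_exp.mpr (div_le_div_of_nonneg_right (by linarith) ht.le)))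
      (hz _ (by linarith)) (fun i hi => ?_) w hw
    have hi' : (i : ℝ) + 1 ≤ M := by exact_mod_cast hi
    have hiκ : 0 ≤ i * κ := by positivity
    set ψ := φ + j * (M * β) with hψ
    have a1 : exp b ≤ exp ((ψ + i * κ) / t) :=
      exp_le_exp.mpr (div_le_div_of_nonneg_right (by linarith) ht.le)
    have a2 := mass_lower γ _ s (exp ((ψ + M * κ) / t)) hγ ((one_lt_exp_iff.mpr hb0).trans_le a1)
      hs.le ((mul_le_mul_of_nonneg_right hγt (exp_pos _).le).trans (by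
        rw [← exp_add, exp_le_exp, ← add_div]
        exact div_le_div_of_nonneg_right (by nlinarith) ht.le)) (hy _ (h1.trans a1))
    refine le_trans ?_ (mul_le_mul_of_nonneg_left a2 (by positivity))
    have a3 : 0 < (ψ + M * κ) / t := div_pos (by linarith) ht
    rw [log_exp, ← exp_mul, ← mul_div_assoc, le_div_iff₀ a3]
    set u := (ψ - (s - 1) * (π + (5 + C) * κ)) / t with hu
    have hu0 : 0 ≤ u := div_nonneg (by linarith) ht.le
    have a4 : (ψ + M * κ) / t ≤ u + b * (π + (5 + C) * κ + C * (π + 4 * κ)) := by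
      rw [hu, hb, div_mul_eq_mul_div, ← add_div, hM]
      refine div_le_div_of_nonneg_right ?_ ht.le
      have := mul_le_mul_of_nonneg_right hC0 (show 0 ≤ π + 4 * κ by linarith)
      linarith
    have a5 : exp (-(ψ - M * β) * s / t)
        ≤ exp ((ψ + M * κ) / t * (1 - s)) * (exp (-u) * exp (-b * κ)) := by
      rw [← exp_add, ← exp_add, exp_le_exp, hu, hb, hM, div_mul_eq_mul_div, ← neg_div, ← neg_div,
        div_mul_eq_mul_div, ← add_div, ← add_div]
      refine div_le_div_of_nonneg_right ?_ ht.le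
      have c1 := mul_le_mul_of_nonneg_right hsC hκ0.le
      have c2 := mul_le_mul_of_nonneg_right (show M * β ≤ κ by linarith) (show 0 ≤ s by linarith)
      linarith
    have a6 : exp (-u) * (u + b * (π + (5 + C) * κ + C * (π + 4 * κ)))
        ≤ 1 + b * (π + (5 + C) * κ + C * (π + 4 * κ)) := by
      have c1 : exp (-u) ≤ 1 := exp_le_one_iff.mpr (by linarith)
      have c2 : exp (-u) * u ≤ 1 := by
        rw [exp_neg, inv_mul_le_iff₀ (exp_pos _)]; linarith [add_one_le_exp u]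
      have c3 : 0 ≤ b * (π + (5 + C) * κ + C * (π + 4 * κ)) := by positivity
      linarith [mul_le_mul_of_nonneg_right c1 c3]
    have a7 : exp (-u) * exp (-b * κ) * ((ψ + M * κ) / t) ≤ sin κ ^ 2 * (γ - 1) / (8 * γ) := by
      have c1 := mul_le_mul_of_nonneg_left
        ((mul_le_mul_of_nonneg_left a4 (exp_pos (-u)).le).trans a6) (exp_pos (-b * κ)).le
      linarith
    calc ρ j * ((ψ + M * κ) / t) ≤ 2 / sin κ * (exp ((ψ + M * κ) / t * (1 - s))
          * (exp (-u) * exp (-b * κ))) * ((ψ + M * κ) / t) :=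
          mul_le_mul_of_nonneg_right (mul_le_mul_of_nonneg_left a5 (by positivity)) a3.le
      _ = 2 / sin κ * exp ((ψ + M * κ) / t * (1 - s))
          * (exp (-u) * exp (-b * κ) * ((ψ + M * κ) / t)) := by ring
      _ ≤ 2 / sin κ * exp ((ψ + M * κ) / t * (1 - s)) * (sin κ ^ 2 * (γ - 1) / (8 * γ)) :=
          mul_le_mul_of_nonneg_left a7 (by positivity)
      _ = _ := by field_simp; ring
  · refine hw.trans (mul_le_mul ?_ (exp_le_exp.mpr (div_le_div_of_nonneg_right ?_ ht.le))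
      (exp_pos _).le (by positivity))
    · rw [le_div_iff₀ hs0]; linarith
    · simp only [Nat.cast_zero, zero_mul, add_zero]
      exact le_rfl

theorem two_gen (P Q y : ℂ) (μ : ℝ) (hμ : 0 < μ) (h0 : 0 < -y.re) (h1 : -y.re ≤ -P.re)
    (h2 : -y.re ≤ -Q.re) (h3 : |y.im| ≤ μ * -y.re) (h4 : μ * -P.re ≤ -P.im)
    (h5 : μ * -Q.re ≤ Q.im) : ∃ a b : ℝ, 0 ≤ a ∧ a ≤ 1 ∧ 0 ≤ b ∧ b ≤ 1 ∧ y = a * P + b * Q := by
  obtain ⟨h6, h7⟩ := abs_le.mp h3
  have p0 : 0 < -P.re := by linarith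
  have q0 : 0 < -Q.re := by linarith
  have p1 : 0 < -P.im := (mul_pos hμ p0).trans_le h4
  have q1 : 0 < Q.im := (mul_pos hμ q0).trans_le h5
  have m1 := mul_le_mul_of_nonneg_left h1 hμ.le
  have m2 := mul_le_mul_of_nonneg_left h2 hμ.le
  have hD : 0 < -P.re * Q.im + -P.im * -Q.re := by positivity
  refine ⟨(-y.re * Q.im - y.im * -Q.re) / (-P.re * Q.im + -P.im * -Q.re),
    (-P.re * y.im + -P.im * -y.re) / (-P.re * Q.im + -P.im * -Q.re), div_nonneg ?_ hD.le,
    (div_le_one hD).mpr ?_, div_nonneg ?_ hD.le, (div_le_one hD).mpr ?_, ?_⟩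
  · linarith [mul_le_mul_of_nonneg_left h5 h0.le, mul_le_mul_of_nonneg_right h7 q0.le]
  · linarith [mul_le_mul_of_nonneg_right h1 q1.le,
      mul_le_mul_of_nonneg_right (show -y.im ≤ -P.im by linarith) q0.le]
  · linarith [mul_le_mul_of_nonneg_right h4 h0.le, mul_le_mul_of_nonneg_left h6 p0.le]
  · linarith [mul_le_mul_of_nonneg_left h2 p1.le,
      mul_le_mul_of_nonneg_left (show y.im ≤ Q.im by linarith) p0.le]
  · apply Complex.ext
    · simp only [Complex.add_re, Complex.re_ofReal_mul]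
      rw [div_mul_eq_mul_div, div_mul_eq_mul_div, ← add_div, eq_div_iff hD.ne']; ring
    · simp only [Complex.add_im, Complex.im_ofReal_mul]
      rw [div_mul_eq_mul_div, div_mul_eq_mul_div, ← add_div, eq_div_iff hD.ne']; ring

theorem mass_ge (η y0 s y d : ℝ) (hP : Pnt η y0) (hη : 0 ≤ η) (hs : 1 < s) (hy0 : y0 ≤ exp y)
    (hy : 0 ≤ y) (Y : ℝ) (hd : 0 ≤ d) (hY : y + d ≤ Y) :
    exp y ^ (1 - s) * ((1 - exp (-(s - 1) * d)) / (s - 1) - η * (2 + s / (s - 1)))
      ≤ Ms s (exp y) (exp Y) := by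
  have b := (abs_le.mp (Ms_est η y0 s (exp y) (exp Y) hP hη hs hy0 (one_le_exp hy)
    (exp_le_exp.mpr (by linarith)))).1
  have e : exp Y ^ (1 - s) ≤ exp y ^ (1 - s) * exp (-(s - 1) * d) := by
    rw [← exp_mul, ← exp_mul, ← exp_add, exp_le_exp]
    nlinarith
  have c : exp y ^ (1 - s) * ((1 - exp (-(s - 1) * d)) / (s - 1))
      ≤ (exp y ^ (1 - s) - exp Y ^ (1 - s)) / (s - 1) := by
    rw [← mul_div_assoc]
    exact div_le_div_of_nonneg_right (by linarith) (by linarith)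
  linarith

theorem moment (η y0 s y d h m : ℝ) (hP : Pnt η y0) (hη : 0 ≤ η) (hs : 1 < s) (hy0 : y0 ≤ exp y)
    (hy : 0 ≤ y) (Y : ℝ) (hd : 0 ≤ d) (hY : y + d ≤ Y) (hh : 0 < h) (hm : h * m ≤ 1)
    (hG : 1 / (s + h - 1) + η * (2 + (s + h) / (s + h - 1))
      ≤ (1 - h * m) * ((1 - exp (-(s - 1) * d)) / (s - 1) - η * (2 + s / (s - 1)))) :
    0 ≤ ∑ q ∈ pr (exp y) (exp Y), log q * (q : ℝ) ^ (-s) * (log q - y - m) := by
  have b1 := mass_ge η y0 s y d hP hη hs hy0 hy Y hd hY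
  have b2 := (abs_le.mp (Ms_est η y0 (s + h) (exp y) (exp Y) hP hη (by linarith) hy0
    (one_le_exp hy) (exp_le_exp.mpr (by linarith)))).2
  have e1 : exp (y * h) * exp y ^ (1 - (s + h)) = exp y ^ (1 - s) := by
    rw [← exp_mul, ← exp_mul, ← exp_add]; congr 1; ring
  have e2 : (exp y ^ (1 - (s + h)) - exp Y ^ (1 - (s + h))) / (s + h - 1)
      ≤ 1 / (s + h - 1) * exp y ^ (1 - (s + h)) := by
    rw [one_div, ← div_eq_inv_mul]
    exact div_le_div_of_nonneg_right (by linarith [Real.rpow_nonneg (exp_pos Y).le (1 - (s + h))])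
      (by linarith)
  have b3 : exp (y * h) * Ms (s + h) (exp y) (exp Y)
      ≤ exp y ^ (1 - s) * (1 / (s + h - 1) + η * (2 + (s + h) / (s + h - 1))) := by
    rw [← e1, mul_assoc]
    exact mul_le_mul_of_nonneg_left (by linarith) (exp_pos _).le
  have b4 := mul_le_mul_of_nonneg_left hG (Real.rpow_nonneg (exp_pos y).le (1 - s))
  have b5 := mul_le_mul_of_nonneg_left b1 (sub_nonneg.mpr hm)
  have b6 : (1 - h * m) * Ms s (exp y) (exp Y) - exp (y * h) * Ms (s + h) (exp y) (exp Y)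
      ≤ h * ∑ q ∈ pr (exp y) (exp Y), log q * (q : ℝ) ^ (-s) * (log q - y - m) := by
    rw [Ms, Ms, mul_sum, mul_sum, mul_sum, ← sum_sub_distrib]
    refine sum_le_sum fun q hq => ?_
    have q0 : (0 : ℝ) < q := by
      exact_mod_cast ((mem_pr (exp_pos _).le (exp_pos _).le).mp hq).1.pos
    have a1 : exp (y * h) * (q : ℝ) ^ (-(s + h)) = (q : ℝ) ^ (-s) * exp (-(h * (log q - y))) := by
      rw [Real.rpow_def_of_pos q0, Real.rpow_def_of_pos q0, ← exp_add, ← exp_add]; congr 1; ring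
    have a2 := add_one_le_exp (-(h * (log q - y)))
    have a3 : 0 ≤ log q * (q : ℝ) ^ (-s) := mul_nonneg (Real.log_natCast_nonneg q) (by positivity)
    have a4 := mul_le_mul_of_nonneg_left a2 a3
    have a5 : exp (y * h) * (log q * (q : ℝ) ^ (-(s + h)))
        = log q * (q : ℝ) ^ (-s) * exp (-(h * (log q - y))) := by
      rw [mul_left_comm, a1, mul_assoc]
    rw [a5]
    linarith
  exact nonneg_of_mul_nonneg_right (by linarith) hh

theorem term_est (s t ψ V τ : ℝ) (ht : 0 < t) (ht1 : t ≤ 1) (hV : 0 ≤ V) (q : ℕ) (r : ℝ)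
    (hq : (q : ℝ) ^ (-s) ≤ r) (hr : r ≤ 1 / 6) (hτ : t ^ 2 * (V + 1) ^ 3 + 6 * r / t ≤ τ) (v : ℝ)
    (hv : |v| ≤ V + 1) (hψ : t * log q - ψ = t * v + π) (g : ℂ)
    (hg : g = Complex.log (fk (zz s t q) 1) * Complex.exp ((-ψ : ℝ) * Complex.I)) :
    (q : ℝ) ^ (-s) * (1 - τ) ≤ -g.re ∧ -g.re ≤ (q : ℝ) ^ (-s) * (1 + τ) ∧
      |-g.im - (q : ℝ) ^ (-s) * (t * v)| ≤ (q : ℝ) ^ (-s) * (t * τ) := by
  have z0 : (0 : ℝ) ≤ (q : ℝ) ^ (-s) := by positivity
  have a2 := norm_log_fk (zz s t q) (by rw [norm_zz]; linarith) 1 le_rfl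
  rw [norm_zz] at a2
  have hen : ‖Complex.exp ((-ψ : ℝ) * Complex.I)‖ = 1 := Complex.norm_exp_ofReal_mul_I _
  have a3 : ‖(Complex.log (fk (zz s t q) 1) - zz s t q) * Complex.exp ((-ψ : ℝ) * Complex.I)‖
      ≤ (q : ℝ) ^ (-s) * (6 * r) := by
    rw [norm_mul, hen, mul_one]
    nlinarith
  have a4 := abs_le.mp ((Complex.abs_re_le_norm _).trans a3)
  have a5 := abs_le.mp ((Complex.abs_im_le_norm _).trans a3)
  rw [sub_mul, ← hg, Complex.sub_re, re_zz, hψ, cos_add_pi] at a4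
  rw [sub_mul, ← hg, Complex.sub_im, im_zz, hψ, sin_add_pi] at a5
  have r0 : 0 ≤ r := z0.trans hq
  have b1 : 6 * r ≤ 6 * r / t := le_div_self (by linarith) ht ht1
  have b2 : t * (6 * r / t) = 6 * r := by field_simp
  have b3 : |t * v| ≤ t * (V + 1) := by
    rw [abs_mul, abs_of_pos ht]; exact mul_le_mul_of_nonneg_left hv ht.le
  have b4 : (t * v) ^ 2 ≤ t ^ 2 * (V + 1) ^ 3 := by
    have c1 : (t * v) ^ 2 ≤ (t * (V + 1)) ^ 2 := sq_le_sq' (abs_le.mp b3).1 (abs_le.mp b3).2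
    have c2 : (V + 1) ^ 2 ≤ (V + 1) ^ 3 := pow_le_pow_right₀ (by linarith) (by norm_num)
    exact c1.trans (by rw [mul_pow]; exact mul_le_mul_of_nonneg_left c2 (sq_nonneg t))
  have b5 : |sin (t * v) - t * v| ≤ t * (t ^ 2 * (V + 1) ^ 3) := by
    have c0 : ∀ x : ℝ, 0 ≤ x → |sin x - x| ≤ x ^ 3 := fun x hx => by
      rcases hx.eq_or_lt with d | d
      · rw [← d]; simp
      · have := sin_gt_sub_cube d
        have := sin_le hx
        have : 0 ≤ x ^ 3 := by positivity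
        rw [abs_le]; constructor <;> linarith
    have c1 : |sin (t * v) - t * v| ≤ |t * v| ^ 3 := by
      rcases le_total 0 (t * v) with d | d
      · rw [abs_of_nonneg d]; exact c0 _ d
      · have := c0 (-(t * v)) (by linarith)
        rw [sin_neg, show -sin (t * v) - -(t * v) = -(sin (t * v) - t * v) by ring, abs_neg] at this
        rwa [abs_of_nonpos d]
    exact c1.trans ((pow_le_pow_left₀ (abs_nonneg _) b3 3).trans (le_of_eq (by ring)))
  have b6 := one_sub_sq_div_two_le_cos (x := t * v)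
  have b7 := cos_le_one (t * v)
  have b8 : 0 ≤ t ^ 2 * (V + 1) ^ 3 := by positivity
  have b9 := mul_le_mul_of_nonneg_left hτ ht.le
  obtain ⟨b10, b11⟩ := abs_le.mp b5
  refine ⟨?_, ?_, abs_le.mpr ⟨?_, ?_⟩⟩
  · linarith [mul_le_mul_of_nonneg_left
      (show 1 - τ + 6 * r ≤ cos (t * v) by linarith [sq_nonneg (t * v)]) z0]
  · linarith [mul_le_mul_of_nonneg_left (show cos (t * v) + 6 * r ≤ 1 + τ by linarith) z0]
  · linarith [mul_le_mul_of_nonneg_left
      (show t * v - t * τ + 6 * r ≤ sin (t * v) by linarith) z0]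
  · linarith [mul_le_mul_of_nonneg_left
      (show sin (t * v) + 6 * r ≤ t * v + t * τ by linarith) z0]

end Pool.Agent.Lib.MP_3ba922_nt
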