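import Pool.Agent.Lib.MP_3ba922_nt.Sharp4

/-! The sharp lower bound for the radius near the real axis. -/

set_option autoImplicit false

namespace Pool.Agent.Lib.MP_3ba922_nt

open Finset Filter Topology Real

/-- rotated logarithm of a local factor -/
noncomputable def gg (s t ψ : ℝ) (q : ℕ) : ℂ :=
  Complex.log (fk (zz s t q) 1) * Complex.exp ((-ψ : ℝ) * Complex.I)

/-- weighted sum over a window -/
noncomputable def PP (s t ψ L : ℝ) (B : Finset ℕ) : ℂ :=
  ∑ q ∈ B, ((log q / L : ℝ) : ℂ) * gg s t ψ q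

theorem window (s t ψ V τ r L m y Y : ℝ) (hs : 1 < s) (ht : 0 < t) (ht1 : t ≤ 1) (hV : 0 ≤ V)
    (hr : exp (-s * y) ≤ r) (hr1 : r ≤ 1 / 6) (hτ : t ^ 2 * (V + 1) ^ 3 + 6 * r / t ≤ τ)
    (hy : (ψ + π) / t - (V + 1) ≤ y) (hY : Y ≤ (ψ + π) / t + (V + 1)) (hL : Y ≤ L) (hL0 : 0 < L)
    (hm : 0 ≤ m) :
    (1 - τ) * Ms s (exp y) (exp Y) / L ≤ -(PP s t ψ L (pr (exp y) (exp Y))).re ∧
    (0 ≤ ∑ q ∈ pr (exp y) (exp Y), log q * (q : ℝ) ^ (-s)
        * (log q - (ψ + π) / t - (τ + m * (1 + τ))) →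
      t * m * -(PP s t ψ L (pr (exp y) (exp Y))).re ≤ -(PP s t ψ L (pr (exp y) (exp Y))).im) ∧
    (Y ≤ (ψ + π) / t - (τ + m * (1 + τ)) →
      t * m * -(PP s t ψ L (pr (exp y) (exp Y))).re ≤ (PP s t ψ L (pr (exp y) (exp Y))).im) ∧
    ∀ a : ℝ, 0 ≤ a → a ≤ 1 → ∃ S ⊆ pr (exp y) (exp Y),
      ‖a * PP s t ψ L (pr (exp y) (exp Y)) - ∑ q ∈ S, gg s t ψ q‖ ≤ 4 * exp (-s * y) := by
  set B := pr (exp y) (exp Y) with hB
  have hq : ∀ q ∈ B, y ≤ log q ∧ log q ≤ Y ∧ (q : ℝ) ^ (-s) ≤ exp (-s * y) := fun q hq => by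
    obtain ⟨a0, a1, a2⟩ := (mem_pr (exp_pos _).le (exp_pos _).le).mp hq
    have q0 : (0 : ℝ) < q := by exact_mod_cast a0.pos
    have b1 := (le_log_iff_exp_le q0).mpr a1.le
    refine ⟨b1, (log_le_iff_le_exp q0).mpr a2, ?_⟩
    rw [Real.rpow_def_of_pos q0, exp_le_exp]
    nlinarith
  have ht' := fun q (h : q ∈ B) => term_est s t ψ V τ ht ht1 hV q r ((hq q h).2.2.trans hr) hr1 hτ
    (log q - (ψ + π) / t) (abs_le.mpr ⟨by linarith [(hq q h).1], by linarith [(hq q h).2.1]⟩)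
    (by field_simp; ring) (gg s t ψ q) rfl
  have hw : ∀ q : ℕ, 0 ≤ log q / L := fun q => div_nonneg (Real.log_natCast_nonneg q) hL0.le
  have hre : (PP s t ψ L B).re = ∑ q ∈ B, log q / L * (gg s t ψ q).re := by
    rw [PP, Complex.re_sum]; simp only [Complex.re_ofReal_mul]
  have him : (PP s t ψ L B).im = ∑ q ∈ B, log q / L * (gg s t ψ q).im := by
    rw [PP, Complex.im_sum]; simp only [Complex.im_ofReal_mul]
  have htm : 0 ≤ t * m := by positivity
  refine ⟨?_, fun h => ?_, fun h => ?_, fun a a0 a1 => ?_⟩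
  · rw [hre, Ms, mul_sum, sum_div, ← sum_neg_distrib]
    refine sum_le_sum fun q h => ?_
    have := mul_le_mul_of_nonneg_left (ht' q h).1 (hw q)
    calc _ = log q / L * ((q : ℝ) ^ (-s) * (1 - τ)) := by ring
      _ ≤ _ := by linarith
  · have h' := mul_nonneg (show 0 ≤ t / L by positivity) h
    rw [hre, him, ← sub_nonneg]
    refine h'.trans ?_
    rw [mul_sum, ← sum_neg_distrib, ← sum_neg_distrib, mul_sum, ← sum_sub_distrib]
    refine sum_le_sum fun q h => ?_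
    obtain ⟨-, b2, b3⟩ := ht' q h
    have b4 := mul_le_mul_of_nonneg_left b2 htm
    have b5 := mul_le_mul_of_nonneg_left (show (q : ℝ) ^ (-s) * (t * (log q - (ψ + π) / t))
      - (q : ℝ) ^ (-s) * (t * τ) - t * m * ((q : ℝ) ^ (-s) * (1 + τ))
      ≤ -(gg s t ψ q).im - t * m * -(gg s t ψ q).re by linarith [(abs_le.mp b3).1]) (hw q)
    calc _ = log q / L * ((q : ℝ) ^ (-s) * (t * (log q - (ψ + π) / t))
          - (q : ℝ) ^ (-s) * (t * τ) - t * m * ((q : ℝ) ^ (-s) * (1 + τ))) := by ring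
      _ ≤ _ := by linarith
  · rw [hre, him, ← sum_neg_distrib, mul_sum]
    refine sum_le_sum fun q h' => ?_
    obtain ⟨-, b2, b3⟩ := ht' q h'
    have b4 := mul_le_mul_of_nonneg_left b2 htm
    have z0 : (0 : ℝ) ≤ (q : ℝ) ^ (-s) * t := by positivity
    have b6 := mul_le_mul_of_nonneg_left
      (show log q - (ψ + π) / t ≤ -(τ + m * (1 + τ)) by linarith [(hq q h').2.1]) z0
    have b5 := mul_le_mul_of_nonneg_left (show t * m * -(gg s t ψ q).re ≤ (gg s t ψ q).im by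
      linarith [(abs_le.mp b3).2]) (hw q)
    linarith
  · obtain ⟨S, hS, h⟩ := round2 B (gg s t ψ) (2 * exp (-s * y)) (by positivity) (fun q h => by
      rw [gg, norm_mul, Complex.norm_exp_ofReal_mul_I, mul_one]
      have := norm_log_fk_le (zz s t q) (by rw [norm_zz]; linarith [(hq q h).2.2]) 1 le_rfl
      rw [norm_zz] at this
      linarith [(hq q h).2.2]) (fun q => a * (log q / L)) (fun q _ => mul_nonneg a0 (hw q))
      fun q h => mul_le_one₀ a1 (hw q) ((div_le_one hL0).mpr ((hq q h).2.1.trans hL))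
    refine ⟨S, hS, ?_⟩
    rw [PP, mul_sum]
    simp only [Complex.ofReal_mul, mul_assoc] at h
    linarith

theorem represent (s t η y0 δ V τ ξ ε h : ℝ) (hs : 1 < s) (ht : 0 < t) (ht1 : t ≤ 1)
    (hP : Pnt η y0) (hη : 0 ≤ η) (hy0 : y0 ≤ exp (1 / t)) (p : ℕ) (hp0 : 0 < p)
    (hδ : 0 < δ) (hδ1 : δ ≤ 1 / 2) (hp1 : uu s t + δ ≤ log p) (hp2 : log p ≤ uu s t + 2 * δ)
    (hV : 1 ≤ V) (hVt : V + 1 ≤ 2 / t)
    (hτ : t ^ 2 * (V + 1) ^ 3 + 6 * exp (-s * uu s t) / t ≤ τ) (hτ1 : τ ≤ 1)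
    (hξ : 0 < ξ) (hL : log (π * s * (s - 1) / t) + V + 1 ≤ ξ * (s * π / t))
    (hξt : t ≤ ξ * (s * (s - 1))) (hξ2 : 6 * exp (-s * uu s t) * (s * (s - 1)) ≤ ξ * t)
    (hε : 0 < ε) (hε1 : ε ≤ 1) (hn : (1 - ε) * exp (2 * s * δ) + ξ ≤ (1 - ε / 2) * (1 - ξ))
    (hG1 : (1 + ξ) ^ 2 ≤ (1 - τ) * (s - 1) * exp δ
      * ((1 - exp (-(s - 1) * V)) / (s - 1) - η * (2 + s / (s - 1))))
    (hG2 : (1 + ξ) ^ 2 ≤ (1 - τ) * (s - 1) * exp ((s - 1) * V)
      * ((1 - exp (-(s - 1) * 1)) / (s - 1) - η * (2 + s / (s - 1))))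
    (hV2 : τ + (1 - ε / 2) / (s * (s - 1)) * (1 + τ) ≤ V) (hh : 0 < h)
    (hm : h * (1 / s + (τ + (1 - ε / 2) / (s * (s - 1)) * (1 + τ))) ≤ 1)
    (hG : 1 / (s + h - 1) + η * (2 + (s + h) / (s + h - 1))
      ≤ (1 - h * (1 / s + (τ + (1 - ε / 2) / (s * (s - 1)) * (1 + τ))))
        * ((1 - exp (-(s - 1) * V)) / (s - 1) - η * (2 + s / (s - 1))))
    (w : ℂ) (hw : ‖w‖ ≤ (1 - ε) * FF s t) :
    ∃ S : Finset ℕ, (∀ q ∈ S, q.Prime ∧ p < q ∧ (q : ℝ) ≤ exp (log p + π / t + V)) ∧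
      ‖w - Complex.log (fk (zz s t p) 1) - ∑ q ∈ S, Complex.log (fk (zz s t q) 1)‖
        ≤ 8 * exp (-s * (log p + π / t - (V + 1))) := by
  have hpi := pi_gt_three
  have hσ : 0 < s - 1 := sub_pos.mpr hs
  have hss : 0 < s * (s - 1) := by positivity
  have p0 : (0 : ℝ) < p := by exact_mod_cast hp0
  have lp : 0 ≤ log p := Real.log_natCast_nonneg p
  set ψ := t * log p with hψ
  set c := log p + π / t with hc
  have hcψ : (ψ + π) / t = c := by rw [hψ, hc]; field_simp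
  have hs1 : 1 / s ≤ 1 := by rw [div_le_one (by linarith)]; linarith
  have hs0 : 0 < 1 / s := by positivity
  have ht0 : 0 < 1 / t := by positivity
  have hπt : 1 / t + 2 / t ≤ π / t := by
    rw [← add_div]; exact div_le_div_of_nonneg_right (by linarith) ht.le
  set ℓ := exp (-s * uu s t) with hℓ
  have hℓ0 : 0 < ℓ := exp_pos _
  have hℓ1 : ℓ ≤ 1 / 6 := by
    have a1 : 6 * ℓ ≤ 6 * ℓ / t := le_div_self (by linarith) ht ht1
    have a2 : 0 ≤ t ^ 2 * (V + 1) ^ 3 := by positivity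
    linarith
  have hτ0 : 0 ≤ τ := le_trans (by positivity) hτ
  set z := (p : ℝ) ^ (-s) with hz
  set v := log p - uu s t with hv
  have hzv : z = ℓ * exp (-s * v) := by
    rw [hz, Real.rpow_def_of_pos p0, hℓ, ← exp_add, hv]; congr 1; ring
  have hz0 : 0 < z := by positivity
  have s0 : 0 ≤ s := by linarith
  have hv1 : δ ≤ v := by linarith
  have hv2 : v ≤ 2 * δ := by linarith
  have hzℓ : z ≤ ℓ := by
    rw [hzv]
    exact mul_le_of_le_one_right hℓ0.le (exp_le_one_iff.mpr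
      (by linarith [mul_le_mul_of_nonneg_left (hδ.le.trans hv1) s0]))
  have hℓz : ℓ ≤ z * exp (2 * s * δ) := by
    rw [hzv, mul_assoc, ← exp_add]
    exact le_mul_of_one_le_right hℓ0.le 
      (one_le_exp (by linarith [mul_le_mul_of_nonneg_left hv2 s0]))
  set m := (1 - ε / 2) / (s * (s - 1)) with hmd
  have hm0 : 0 < m := div_pos (by linarith) hss
  have hr : ∀ y, log p ≤ y → exp (-s * y) ≤ ℓ := fun y hy => exp_le_exp.mpr
    (by linarith [mul_le_mul_of_nonneg_left (show uu s t ≤ y by linarith) s0])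
  have hL0 : 0 < c + V := by have : 0 < π / t := by positivity
                             linarith
  obtain ⟨P1, P2, -, P4⟩ := window s t ψ V τ ℓ (c + V) m (c - 1 / s) (c + V) hs ht ht1
    (by linarith) (hr _ (by linarith)) hℓ1 hτ (by linarith) (by linarith) le_rfl hL0 hm0.le
  obtain ⟨Q1, -, Q3, Q4⟩ := window s t ψ V τ ℓ (c + V) m (c - (V + 1)) (c - V) hs ht ht1
    (by linarith) (hr _ (by linarith)) hℓ1 hτ (by linarith) (by linarith) (by linarith) hL0 hm0.le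
  have P2' := P2 (by
    have := moment η y0 s (c - 1 / s) V h _ hP hη hs (hy0.trans (exp_le_exp.mpr (by linarith)))
      (by linarith) (c + V) (by linarith) (by linarith) hh hm hG
    refine this.trans (le_of_eq (sum_congr rfl fun q _ => ?_))
    rw [hcψ]; ring)
  have Q3' := Q3 (by linarith)
  have M1 := mass_ge η y0 s (c - 1 / s) V hP hη hs (hy0.trans (exp_le_exp.mpr (by linarith)))
    (by linarith) (c + V) (by linarith) (by linarith)
  have M2 := mass_ge η y0 s (c - (V + 1)) 1 hP hη hs (hy0.trans (exp_le_exp.mpr (by linarith)))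
    (by linarith) (c - V) (by linarith) (by linarith)
  have hA : 0 < s * π / t := by positivity
  have hLξ : c + V ≤ (1 + ξ) * (s * π / t) := by
    have e1 : (s - 1) * π / t + π / t = s * π / t := by ring
    have e2 : 0 ≤ (s - 1) / s := by positivity
    have e3 : log p ≤ log (π * s * (s - 1) / t) + (s - 1) * π / t - (s - 1) / s + 2 * δ := hp2
    linarith
  have big : ∀ a E G N : ℝ, exp (c + a) ^ (1 - s) * G ≤ N →
      E ≤ exp (v - (s - 1) * (a + 1 / s)) → 0 < E → (1 + ξ) ^ 2 ≤ (1 - τ) * (s - 1) * E * G →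
      (1 + ξ) * z ≤ (1 - τ) * N / (c + V) := fun a E G N h1 h2 h3 h4 => by
    have e1 : exp (c + a) ^ (1 - s)
        = z * (s * π / t) * ((s - 1) * exp (v - (s - 1) * (a + 1 / s))) := by
      rw [show c + a = uu s t + (v + a) + π / t by rw [hc, hv]; ring, key_id s t _ hs ht, hzv,
        show -(s - 1) * (v + a + 1 / s) = -s * v + (v - (s - 1) * (a + 1 / s)) by ring, exp_add]
      ring
    have e2 : 0 < (1 - τ) * G := by
      have : 0 < (1 - τ) * G * ((s - 1) * E) := by linarith [pow_pos (by linarith : 0 < 1 + ξ) 2]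
      exact (mul_pos_iff_of_pos_right (mul_pos hσ h3)).mp this
    have e3 := mul_le_mul_of_nonneg_left h2 (mul_pos e2 hσ).le
    have e4 := mul_le_mul_of_nonneg_left h1 (sub_nonneg.mpr hτ1)
    have e5 := mul_le_mul_of_nonneg_left (show (1 + ξ) ^ 2
      ≤ (1 - τ) * G * (s - 1) * exp (v - (s - 1) * (a + 1 / s)) by linarith) (mul_pos hz0 hA).le
    have e6 := mul_le_mul_of_nonneg_left hLξ (show 0 ≤ (1 + ξ) * z by positivity)
    rw [e1] at e4
    rw [le_div_iff₀ hL0]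
    linarith
  have X1 := (big (-(1 / s)) _ _ _ M1 (exp_le_exp.mpr (by rw [hv]; linarith)) (exp_pos _)
    hG1).trans P1
  have X2 := (big (-(V + 1)) _ _ _ M2 (exp_le_exp.mpr (by
    have := mul_le_mul_of_nonneg_left hs1 hσ.le
    linarith)) (exp_pos _) hG2).trans Q1
  set e := Complex.exp ((-ψ : ℝ) * Complex.I) with he
  have hen : ‖e‖ = 1 := Complex.norm_exp_ofReal_mul_I _
  set y := (w - Complex.log (fk (zz s t p) 1)) * e with hy
  have hν : ‖y + zz s t p * e‖ ≤ (1 - ε / 2) * (1 - ξ) * (t * z / (s * (s - 1))) := by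
    have a1 := norm_log_fk (zz s t p) (by rw [norm_zz]; linarith) 1 le_rfl
    rw [norm_zz] at a1
    have a2 : ‖y + zz s t p * e‖ ≤ ‖w‖ + 6 * z ^ 2 := by
      rw [hy, ← add_mul, norm_mul, hen, mul_one, sub_add]
      exact (norm_sub_le _ _).trans (by linarith)
    have a3 : FF s t ≤ exp (2 * s * δ) * (t * z / (s * (s - 1))) := by
      rw [FF, ← mul_div_assoc]
      exact div_le_div_of_nonneg_right (by linarith [mul_le_mul_of_nonneg_left hℓz ht.le]) hss.le
    have a4 : 6 * z ^ 2 ≤ ξ * (t * z / (s * (s - 1))) := by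
      rw [← mul_div_assoc, le_div_iff₀ hss]
      have b1 := mul_le_mul_of_nonneg_right hzℓ hss.le
      have b2 := mul_le_mul_of_nonneg_left (show 6 * (z * (s * (s - 1))) ≤ ξ * t by linarith) hz0.le
      linarith
    have a5 := mul_le_mul_of_nonneg_left a3 (sub_nonneg.mpr hε1)
    have a6 := mul_le_mul_of_nonneg_right hn (show 0 ≤ t * z / (s * (s - 1)) by positivity)
    linarith
  have hξ1 : ξ < 1 := by
    by_contra hc'
    have a1 : (1 - ε / 2) * (1 - ξ) ≤ 0 :=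
      mul_nonpos_of_nonneg_of_nonpos (by linarith) (by linarith [not_lt.mp hc'])
    have a2 : 0 ≤ (1 - ε) * exp (2 * s * δ) := mul_nonneg (by linarith) (exp_pos _).le
    linarith
  have hν1 : (1 - ε / 2) * (1 - ξ) * (t * z / (s * (s - 1))) ≤ ξ * z := by
    have a1 : t * z / (s * (s - 1)) ≤ ξ * z := by
      rw [div_le_iff₀ hss]; linarith [mul_le_mul_of_nonneg_left hξt hz0.le]
    exact (mul_le_of_le_one_left (by positivity)
      (mul_le_one₀ (by linarith) (by linarith) (by linarith))).trans a1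
  have y1 := abs_le.mp ((Complex.abs_re_le_norm _).trans (hν.trans hν1))
  have y2 := (Complex.abs_im_le_norm _).trans hν
  rw [Complex.add_re, re_zz, sub_self, cos_zero, mul_one] at y1
  rw [Complex.add_im, im_zz, sub_self, sin_zero, mul_zero, add_zero] at y2
  obtain ⟨a, b, a0, a1, b0, b1, hab⟩ := two_gen _ _ y (t * m) (by positivity)
    (by linarith [mul_pos (sub_pos.mpr hξ1) hz0, y1.2]) (le_trans (by linarith [y1.1]) X1)
    (le_trans (by linarith [y1.1]) X2) (y2.trans (by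
      have := mul_le_mul_of_nonneg_left (show (1 - ξ) * z ≤ -y.re by linarith [y1.2])
        (show 0 ≤ t * m by positivity)
      refine le_trans (le_of_eq ?_) this
      rw [hmd]; ring)) P2' Q3'
  obtain ⟨S1, hS1, r1⟩ := P4 a a0 a1
  obtain ⟨S2, hS2, r2⟩ := Q4 b b0 b1
  have n1 := fun q (hq : q ∈ S1) => (mem_pr (exp_pos _).le (exp_pos _).le).mp (hS1 hq)
  have n2 := fun q (hq : q ∈ S2) => (mem_pr (exp_pos _).le (exp_pos _).le).mp (hS2 hq)
  have hpe : ∀ x, c - (V + 1) ≤ x → (p : ℝ) ≤ exp x := fun x hx =>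
    (log_le_iff_le_exp p0).mp (by linarith)
  refine ⟨S1 ∪ S2, fun q hq => ?_, ?_⟩
  · rcases mem_union.mp hq with hq | hq
    · exact ⟨(n1 q hq).1, by exact_mod_cast (hpe _ (by linarith)).trans_lt (n1 q hq).2.1,
        (n1 q hq).2.2⟩
    · exact ⟨(n2 q hq).1, by exact_mod_cast (hpe _ le_rfl).trans_lt (n2 q hq).2.1,
        (n2 q hq).2.2.trans (exp_le_exp.mpr (by linarith))⟩
  · have hn' : ∀ x : ℂ, ‖x‖ = ‖x * e‖ := fun x => by rw [norm_mul, hen, mul_one]
    rw [sum_union (disjoint_left.mpr fun q h1 h2 => by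
      have := (n1 q h1).2.1.trans_le (n2 q h2).2.2
      rw [exp_lt_exp] at this
      linarith), hn', sub_mul, add_mul, sum_mul, sum_mul, ← hy, hab]
    have r3 : exp (-s * (c - 1 / s)) ≤ exp (-s * (c - (V + 1))) := exp_le_exp.mpr
      (by linarith [mul_le_mul_of_nonneg_left (show 1 / s ≤ V + 1 by linarith) s0])
    have r4 := norm_add_le (a * PP s t ψ (c + V) (pr (exp (c - 1 / s)) (exp (c + V)))
      - ∑ q ∈ S1, gg s t ψ q) (b * PP s t ψ (c + V) (pr (exp (c - (V + 1))) (exp (c - V)))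
      - ∑ q ∈ S2, gg s t ψ q)
    rw [← add_sub_add_comm] at r4
    exact r4.trans (by linarith)

theorem lower (s t κ β γ C y1 : ℝ) (M : ℕ) (hs : 1 < s) (ht : 0 < t)
    (hC : 1 + 1 / (s - 1) ≤ C) (hβ : 0 < β) (hκ : (M + 1) * β = κ) (hM : M * κ = π + 4 * κ)
    (h4 : 4 * κ ≤ π) (hγ : 1 < γ) (hγt : γ ≤ exp (β / t))
    (hy : ∀ y, y1 ≤ y → (γ - 1) / 2 * y ≤ ∑ p ∈ pr y (γ * y), Real.log p)
    (h1 : y1 ≤ exp ((s - 1) / t)) (h2 : exp (-((s - 1) / t)) ≤ sin κ / 24)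
    (h3 : exp (-((s - 1) / t) * κ) * (1 + (s - 1) / t * (π + (5 + C) * κ + C * (π + 4 * κ)))
      ≤ sin κ ^ 2 * (γ - 1) / (8 * γ))
    (hκs : (s - 1) * ((5 + C) * κ) ≤ π) (V ρ : ℝ) (hV : 0 ≤ V) (hMV : 2 * V + 4 ≤ M * β / t)
    (p : ℕ) (hp : p.Prime) (hp1 : (s - 1) * π / t ≤ log p) (hp2 : (p : ℝ) ^ (-s) ≤ 1 / 4)
    (hrep : ∀ w : ℂ, ‖w‖ ≤ ρ →
      ∃ S : Finset ℕ, (∀ q ∈ S, q.Prime ∧ p < q ∧ (q : ℝ) ≤ exp (log p + π / t + V)) ∧
        ‖w - Complex.log (fk (zz s t p) 1) - ∑ q ∈ S, Complex.log (fk (zz s t q) 1)‖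
          ≤ 8 * exp (-s * (log p + π / t - (V + 1))))
    (R : ℝ) (hR : R ≤ 1 / 2) (hRρ : R * (1 + R) ≤ ρ) :
    Metric.ball (1 : ℂ) R ⊆ closure (sigmaC ((-s : ℝ) + (t : ℝ) * Complex.I) '' {n | 1 ≤ n}) := by
  have hpi := pi_gt_three
  intro v hv
  rw [mem_ball_iff_norm] at hv
  have n0 := norm_nonneg (v - 1)
  have h0 : v ≠ 0 := by
    rintro rfl
    rw [zero_sub, norm_neg, norm_one] at hv
    linarith
  have hw : ‖Complex.log v‖ ≤ ρ := by
    have a1 := Complex.norm_log_one_add_sub_self_le (z := v - 1) (by linarith)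
    have a2 := norm_add_le (Complex.log v - (v - 1)) (v - 1)
    rw [add_sub_cancel] at a1
    rw [sub_add_cancel] at a2
    have a3 : (1 - ‖v - 1‖)⁻¹ ≤ 2 := by
      rw [inv_le_comm₀ (by linarith) two_pos]; linarith
    have a4 := mul_le_mul_of_nonneg_left a3 (sq_nonneg ‖v - 1‖)
    have a5 : ‖v - 1‖ ^ 2 ≤ R ^ 2 := pow_le_pow_left₀ n0 hv.le 2
    linarith
  obtain ⟨S, hS, hr⟩ := hrep _ hw
  have p0 : (0 : ℝ) < p := by exact_mod_cast hp.pos
  have hφ : (t * log p + π + t * V) / t = log p + π / t + V := by field_simp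
  rw [← Complex.exp_log h0, ← one_mul (Complex.exp _)]
  refine mem_closure_of_fill _ 1 _ (fun j => 1 / ((j : ℝ) + 1))
    tendsto_one_div_add_atTop_nhds_zero_nat fun j => ?_
  obtain ⟨T, hT, hr'⟩ := fill_from s t κ β γ C y1 (t * log p + π + t * V) M hs ht hC hβ hκ hM h4 hγ
    hγt hy h1 h2 h3 (by
      rw [div_le_iff₀ ht] at hp1
      linarith [mul_nonneg ht.le hV]) _ (hr.trans (by
      have e : -(t * log p + π + t * V - M * β) * s / t
          = -s * (log p + π / t - (V + 1)) + s * (M * β / t - 2 * V - 1) := by field_simp; ring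
      have a1 := add_one_le_exp (s * (M * β / t - 2 * V - 1))
      have a2 : 1 * 3 ≤ s * (M * β / t - 2 * V - 1) :=
        mul_le_mul hs.le (by linarith) (by norm_num) (by linarith)
      have a3 := mul_le_mul_of_nonneg_left (show 4 ≤ exp (s * (M * β / t - 2 * V - 1)) by linarith)
        (exp_pos (-s * (log p + π / t - (V + 1)))).le
      rw [e, exp_add]
      linarith)) (1 / ((j : ℝ) + 1)) (by positivity)
  rw [hφ] at hT
  have hpT : ∀ q ∈ T, p < q := fun q hq => by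
    have : (p : ℝ) ≤ exp (log p + π / t + V) := (log_le_iff_le_exp p0).mp (by
      have : 0 < π / t := by positivity
      linarith)
    exact_mod_cast this.trans_lt (hT q hq).2
  have hU : ∀ q ∈ S ∪ T, q.Prime ∧ p < q := fun q hq => (mem_union.mp hq).elim
    (fun h => ⟨(hS q h).1, (hS q h).2.1⟩) fun h => ⟨(hT q h).1, hpT q h⟩
  refine ⟨∑ q ∈ insert p (S ∪ T), Complex.log (fk (zz s t q) 1), ?_, ?_⟩
  · rw [one_mul, ← exp_sum_log s t _ (fun _ => 1) fun q hq => ?_]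
    · exact prod_mem' s t _ (fun q hq => (mem_insert.mp hq).elim (fun h => h ▸ hp)
        fun h => (hU q h).1) _
    · rcases mem_insert.mp hq with rfl | h
      · exact hp2
      · exact (Real.rpow_le_rpow_of_nonpos p0 (by exact_mod_cast (hU q h).2.le)
          (by linarith)).trans hp2
  · rwa [sum_insert fun h => lt_irrefl _ (hU p h).2, sum_union (disjoint_left.mpr fun q h h' =>
      lt_irrefl _ ((hS q h).2.2.trans_lt (hT q h').2)), ← sub_sub, ← sub_sub]

end Pool.Agent.Lib.MP_3ba922_nt
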