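import Pool.Agent.Lib.MP_3ba922_nt.Sharp5
import Pool.Agent.Lib.MP_3ba922_nt.Asym

/-! The sharp asymptotic for the radius near the real axis: limits of the parameters. -/

set_option autoImplicit false

namespace Pool.Agent.Lib.MP_3ba922_nt

open Finset Filter Topology Real

/-- approach to the point `(s0, 0)` from above -/
noncomputable def ll (s0 : ℝ) : Filter (ℝ × ℝ) := 𝓝[{q | 0 < q.2}] (s0, 0)

theorem pick (f g : ℝ → ℝ) (hf : ContinuousAt f 0) (hg : ContinuousAt g 0) (h : f 0 < g 0) :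
    ∀ᶠ x in 𝓝[>] (0 : ℝ), f x < g x := (hf.eventually_lt hg h).filter_mono nhdsWithin_le_nhds

variable {s0 : ℝ}

theorem ev_pos : ∀ᶠ q in ll s0, 0 < q.2 := self_mem_nhdsWithin

theorem td (f : ℝ × ℝ → ℝ) (hf : ContinuousAt f (s0, 0)) : Tendsto f (ll s0) (𝓝 (f (s0, 0))) :=
  hf.tendsto.mono_left nhdsWithin_le_nhds

theorem ev_lt (f g : ℝ × ℝ → ℝ) (hf : ContinuousAt f (s0, 0)) (hg : ContinuousAt g (s0, 0))
    (h : f (s0, 0) < g (s0, 0)) : ∀ᶠ q in ll s0, f q < g q :=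
  (hf.eventually_lt hg h).filter_mono nhdsWithin_le_nhds

theorem td_snd : Tendsto (fun q : ℝ × ℝ => q.2) (ll s0) (𝓝[>] 0) :=
  tendsto_nhdsWithin_iff.mpr ⟨td _ continuousAt_snd, ev_pos⟩

theorem td_div (B : ℝ × ℝ → ℝ) (b : ℝ) (hb : 0 < b) (hB : Tendsto B (ll s0) (𝓝 b)) :
    Tendsto (fun q => B q / q.2) (ll s0) atTop :=
  hB.pos_mul_atTop hb (tendsto_inv_nhdsGT_zero.comp td_snd)

theorem small (A B : ℝ × ℝ → ℝ) (a b : ℝ) (hA : Tendsto A (ll s0) (𝓝 a)) (hb : 0 < b)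
    (hB : Tendsto B (ll s0) (𝓝 b)) :
    Tendsto (fun q => A q * (exp (-(B q / q.2)) / q.2)) (ll s0) (𝓝 0) := by
  have h1 := ((tendsto_pow_mul_exp_neg_atTop_nhds_zero 1).comp (td_div B b hb hB)).mul
    (hB.inv₀ hb.ne')
  rw [zero_mul] at h1
  rw [← mul_zero a]
  refine hA.mul (h1.congr' ?_)
  filter_upwards [hB.eventually (lt_mem_nhds hb)] with q hq
  simp only [Function.comp]
  field_simp

theorem td_L (hs : 1 < s0) :
    Tendsto (fun q : ℝ × ℝ => log (π * q.1 * (q.1 - 1) / q.2)) (ll s0) atTop :=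
  tendsto_log_atTop.comp (td_div _ (π * s0 * (s0 - 1))
    (by have := pi_pos; have := sub_pos.mpr hs; positivity)
    (td (fun q => π * q.1 * (q.1 - 1)) (by fun_prop)))

theorem td_tL (hs : 1 < s0) :
    Tendsto (fun q : ℝ × ℝ => q.2 * log (π * q.1 * (q.1 - 1) / q.2)) (ll s0) (𝓝 0) := by
  have hb : 0 < π * s0 * (s0 - 1) := by have := pi_pos; have := sub_pos.mpr hs; positivity
  have hB := td (s0 := s0) (fun q => π * q.1 * (q.1 - 1)) (by fun_prop)
  have h1 := hB.mul ((tendsto_pow_log_div_mul_add_atTop 1 0 1 one_ne_zero).comp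
    (td_div _ _ hb hB))
  rw [mul_zero] at h1
  refine h1.congr' ?_
  filter_upwards [hB.eventually (lt_mem_nhds hb), ev_pos] with q hq ht
  simp only [Function.comp, pow_one, one_mul, add_zero]
  have := hq.ne'
  rw [div_div_eq_mul_div, ← mul_div_assoc, mul_div_cancel_left₀ _ this, mul_comm]

theorem td_tu (hs : 1 < s0) :
    Tendsto (fun q : ℝ × ℝ => q.2 * uu q.1 q.2) (ll s0) (𝓝 ((s0 - 1) * π)) := by
  have h1 := (td_tL hs).add (td (s0 := s0) (fun q => (q.1 - 1) * π - q.2 * ((q.1 - 1) / q.1))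
    (by fun_prop (disch := simp; linarith)))
  simp only [zero_mul, sub_zero, zero_add] at h1
  refine h1.congr' ?_
  filter_upwards [ev_pos] with q ht
  rw [uu]; field_simp; ring

theorem td_ell (hs : 1 < s0) (A : ℝ × ℝ → ℝ) (a : ℝ) (hA : Tendsto A (ll s0) (𝓝 a)) :
    Tendsto (fun q : ℝ × ℝ => A q * (exp (-q.1 * uu q.1 q.2) / q.2)) (ll s0) (𝓝 0) := by
  refine (small A (fun q => q.1 * (q.2 * uu q.1 q.2)) a (s0 * ((s0 - 1) * π)) hA
    (by have := pi_pos; have := sub_pos.mpr hs; positivity)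
    ((td _ continuousAt_fst).mul (td_tu hs))).congr' ?_
  filter_upwards [ev_pos] with q ht
  congr 3; field_simp

theorem td_F (hs : 1 < s0) : Tendsto (fun q : ℝ × ℝ => FF q.1 q.2) (ll s0) (𝓝 0) := by
  refine (td_ell hs _ _ (td (fun q => q.2 * q.2 / (q.1 * (q.1 - 1)))
    (by fun_prop (disch := simp; constructor <;> linarith)))).congr' ?_
  filter_upwards [ev_pos] with q ht
  rw [FF]; field_simp

theorem ev_upper (hs : 1 < s0) (ε : ℝ) (hε : 0 < ε) : ∀ᶠ q in ll s0, ∀ R : ℝ, Metric.ball (1 : ℂ) R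
      ⊆ closure (sigmaC ((-q.1 : ℝ) + (q.2 : ℝ) * Complex.I) '' {n | 1 ≤ n}) →
    R ≤ (1 + ε) * FF q.1 q.2 * (1 + (1 + ε) * FF q.1 q.2) := by
  have hpi := pi_gt_three
  have hσ := sub_pos.mpr hs
  obtain ⟨ξ, ⟨x1, x2⟩, x0⟩ := (((pick (fun x => x) (fun _ => 1 / 2) (by fun_prop) (by fun_prop)
    (by norm_num)).and (pick (fun x => exp (4 * s0 * x) + 2 * x) (fun _ => 1 + ε) (by fun_prop)
    (by fun_prop) (by simpa using hε))).and self_mem_nhdsWithin).exists
  replace x0 : 0 < ξ := x0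
  obtain ⟨α, ⟨⟨⟨⟨a1, a2⟩, a3⟩, a4⟩, a5⟩, a0⟩ := ((((((pick (fun x => x) (fun _ => 1 / 10)
    (by fun_prop) (by fun_prop) (by norm_num)).and (pick (fun x => 7 * x ^ 2) (fun _ => ξ)
    (by fun_prop) (by fun_prop) (by simpa using x0))).and (pick (fun _ => exp (4 * s0 * ξ) + 2 * ξ)
    (fun x => (1 + ε) * (1 - 13 * x ^ 2 * s0 ^ 2)) (by fun_prop) (by fun_prop)
    (by simpa using x2))).and (pick (fun _ => π) (fun x => (1 + ξ) * (π - 5 * x)) (by fun_prop)
    (by fun_prop) (by simp only [mul_zero, sub_zero]; nlinarith))).and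
    (pick (fun x => s0 * ((s0 - 1) * π)) (fun x => (2 * s0 - 1) * ((s0 - 1) * (π - 3 * x)))
    (by fun_prop) (by fun_prop) (by
      simp only [mul_zero, sub_zero]
      exact mul_lt_mul_of_pos_right (by linarith) (by positivity)))).and self_mem_nhdsWithin).exists
  replace a0 : 0 < α := a0
  obtain ⟨h, ⟨b1, b2⟩, b0⟩ := (((pick (fun _ => 1) (fun x => s0 - x) (by fun_prop) (by fun_prop)
    (by simpa using hs)).and (pick (fun x => 1 / ((s0 - 1) * (s0 - x - 1)) * (s0 - 1) ^ 2 * π)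
    (fun _ => (1 + ξ) * (π - 5 * α)) (by fun_prop (disch := simp; linarith)) (by fun_prop) (by
      refine lt_of_eq_of_lt ?_ a4
      simp only [sub_zero]; field_simp))).and self_mem_nhdsWithin).exists
  replace b0 : 0 < h := b0
  obtain ⟨η, c1, c0⟩ := ((pick (fun x => (1 / ((s0 - 1) * (s0 - h - 1)) + x * (2 + s0 / (s0 - 1)) / h
      + x * (2 + (s0 - h) / (s0 - h - 1)) / h) * (s0 - 1) ^ 2 * π)
    (fun _ => (1 + ξ) * (π - 5 * α)) (by fun_prop) (by fun_prop) (by simpa using b2)).and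
    self_mem_nhdsWithin).exists
  replace c0 : 0 < η := c0
  obtain ⟨y0, -, hP⟩ := exists_pnt η c0
  set C := 2 + 1 / (s0 - 1) with hC
  have hC0 : 0 < C := by positivity
  have sα : 0 < sin α := sin_pos_of_pos_of_lt_pi a0 (by linarith)
  have n1 : s0 - 1 ≠ 0 := hσ.ne'
  have n2 : s0 - h - 1 ≠ 0 := by linarith
  have t1 : ∀ (B : ℝ × ℝ → ℝ) (b : ℝ), 0 < b → Tendsto B (ll s0) (𝓝 b) → ∀ K d : ℝ, 0 < d →
      ∀ᶠ q in ll s0, K * exp (-(B q / q.2)) ≤ d := fun B b hb hB K d hd => by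
    have := (tendsto_exp_neg_atTop_nhds_zero.comp (td_div B b hb hB)).const_mul K
    rw [mul_zero] at this
    exact this.eventually (ge_mem_nhds hd)
  have tα := t1 _ _ (mul_pos hσ a0) (td (s0 := s0) (fun q => (q.1 - 1) * α) (by fun_prop))
  filter_upwards [ev_pos, ev_lt (fun _ => 1) (fun q => q.1 - h) (by fun_prop) (by fun_prop) b1,
    ev_lt (fun q => 1 + 1 / (q.1 - 1)) (fun _ => C) (by fun_prop (disch := exact n1)) (by fun_prop)
      (by simp only [hC]; linarith),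
    ev_lt (fun q => (1 / ((q.1 - 1) * (q.1 - h - 1)) + η * (2 + q.1 / (q.1 - 1)) / h
      + η * (2 + (q.1 - h) / (q.1 - h - 1)) / h) * (q.1 - 1) ^ 2 * π)
      (fun _ => (1 + ξ) * (π - 5 * α))
      (by fun_prop (disch := first | exact n1 | exact n2 | exact mul_ne_zero n1 n2)) (by fun_prop) c1,
    ev_lt (fun q => q.2) (fun _ => α) (by fun_prop) (by fun_prop) a0,
    (td_L hs).eventually_ge_atTop 1,
    (td_tL hs).eventually_lt (td (fun q => α * (q.1 - 1)) (by fun_prop)) (mul_pos a0 hσ),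
    (tendsto_exp_atTop.comp (td_div (fun _ => 1) 1 one_pos tendsto_const_nhds)).eventually_ge_atTop y0,
    (small _ _ _ _ (td (fun q => 12 * (q.1 * (q.1 - 1))) (by fun_prop)) (sub_pos.mpr a5)
      ((td (fun q => (2 * q.1 - 1) * ((q.1 - 1) * (π - 3 * α))) (by fun_prop)).sub
        ((td _ continuousAt_fst).mul (td_tu hs)))).eventually (ge_mem_nhds x0),
    tα (24 * C) _ sα,
    tα (13 * C) _ (show 0 < 3 / 8 * exp (-(2 * C * log (C / (sin α / 12)))) by positivity),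
    (td_div _ _ (by linarith) (td _ continuousAt_fst)).eventually_ge_atTop
      (2 * (2 * C * log (C / (sin α / 12)))),
    ev_lt (fun q => exp (4 * q.1 * ξ) + 2 * ξ) (fun q => (1 + ε) * (1 - 13 * α ^ 2 * q.1 ^ 2))
      (by fun_prop) (by fun_prop) a3,
    t1 _ _ (show 0 < (s0 - 1) ^ 2 * (π - 3 * α) from mul_pos (by positivity) (by linarith))
      (td (s0 := s0) (fun q => (q.1 - 1) ^ 2 * (π - 3 * α)) (by fun_prop)) C (1 / 8) (by norm_num),
    (small _ _ _ _ (td (fun q => (2 * (1 + ε) + 1) * (q.2 * q.2) / (q.1 * (q.1 - 1)))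
      (by fun_prop (disch := exact mul_ne_zero (by linarith) n1)))
      (show 0 < s0 * ((s0 - 1) * π) - ((s0 - 1) * α + (π - 3 * α) * (s0 * (s0 - 1))) by
        have : 0 < (s0 - 1) * α * (3 * s0 - 1) := mul_pos (mul_pos hσ a0) (by linarith)
        linarith)
      (((td _ continuousAt_fst).mul (td_tu hs)).sub (td (fun q => (q.1 - 1) * α
        + (π - 3 * α) * (q.1 * (q.1 - 1))) (by fun_prop)))).eventually (ge_mem_nhds hC0),
    ((td_F hs).const_mul (1 + ε)).eventually (ge_mem_nhds (show (1 + ε) * 0 < 1 / 4 by norm_num))]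
    with ⟨s, t⟩ e0 e1 e2 e3 e4 e5 e6 e7 e8 e9 e10 e11 e12 e13 e14 e15
  simp only [Function.comp] at *
  have hs' : 1 < s := by linarith
  have hss : 0 < s * (s - 1) := mul_pos (by linarith) (by linarith)
  refine upper s t α C η y0 h _ ξ ε hs' e0 e2.le a0 a1.le hP c0.le b0 e1 le_rfl x0 x1.le a2.le e3.le
    e4.le e5 (by rw [le_div_iff₀ e0]; linarith) e7 ?_ ?_ ?_ e11 hε e12.le ?_ ?_ e15
  · have := mul_le_mul_of_nonneg_right e8 (FF_pos s t hs' e0).le
    refine le_trans (le_of_eq ?_) this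
    rw [← exp_mul, FF, show (s - 1) / t * (π - 3 * α) * (1 - 2 * s) = -(((2 * s - 1)
      * ((s - 1) * (π - 3 * α)) - s * (t * uu s t)) / t) + -s * uu s t by field_simp; ring, exp_add]
    have := hs'.ne'
    have : s - 1 ≠ 0 := by linarith
    field_simp
  · rwa [show -((s - 1) / t) * α = -((s - 1) * α / t) by ring]
  · rwa [show -((s - 1) / t) * α = -((s - 1) * α / t) by ring]
  · rwa [← exp_mul, show (s - 1) / t * (π - 3 * α) * (1 - s) = -((s - 1) ^ 2 * (π - 3 * α) / t) by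
      ring]
  · have := mul_le_mul_of_nonneg_right e14 (mul_pos (exp_pos (-((s - 1) / t) * α))
      (exp_pos (-(π - 3 * α) * (s * (s - 1)) / t))).le
    rw [mul_assoc C]
    refine le_trans (le_of_eq ?_) this
    rw [FF, show -s * uu s t = -((s * (t * uu s t) - ((s - 1) * α + (π - 3 * α) * (s * (s - 1)))) / t)
      + (-((s - 1) / t) * α + -(π - 3 * α) * (s * (s - 1)) / t) by field_simp; ring, exp_add, exp_add]
    field_simp

end Pool.Agent.Lib.MP_3ba922_nt
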