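import Pool.Agent.Lib.MP_3ba922_nt.Sharp6

/-! The sharp asymptotic for the radius near the real axis. -/

set_option autoImplicit false

namespace Pool.Agent.Lib.MP_3ba922_nt

open Finset Filter Topology Real

variable {s0 : ℝ}

theorem pickV (hs : 1 < s0) (a b : ℝ) (h : a < b) :
    ∀ᶠ V : ℝ in atTop, a < b * (1 - exp (-(s0 - 1) * V)) := by
  have h1 : Tendsto (fun V : ℝ => b * (1 - exp (-(s0 - 1) * V))) atTop (𝓝 (b * (1 - 0))) :=
    (tendsto_const_nhds.sub (tendsto_exp_atBot.comp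
      (tendsto_id.const_mul_atTop_of_neg (by linarith)))).const_mul b
  exact h1.eventually (lt_mem_nhds (by simpa using h))

theorem ev_lower (hs : 1 < s0) (ε : ℝ) (hε : 0 < ε) (hε1 : ε ≤ 1) : ∀ᶠ q in ll s0, ∀ R : ℝ,
    R ≤ 1 / 2 → R * (1 + R) ≤ (1 - ε) * FF q.1 q.2 → Metric.ball (1 : ℂ) R
      ⊆ closure (sigmaC ((-q.1 : ℝ) + (q.2 : ℝ) * Complex.I) '' {n | 1 ≤ n}) := by
  have hpi := pi_gt_three
  have hσ := sub_pos.mpr hs
  have n0 : s0 ≠ 0 := by linarith
  have n1 : s0 - 1 ≠ 0 := hσ.ne'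
  have n3 : s0 * (s0 - 1) ≠ 0 := mul_ne_zero n0 n1
  obtain ⟨δ, ⟨d1, d2⟩, d0⟩ := (((pick (fun x => x) (fun _ => 1 / 2) (by fun_prop) (by fun_prop)
    (by norm_num)).and (pick (fun x => (1 - ε) * exp (2 * s0 * x)) (fun _ => 1 - ε / 2)
    (by fun_prop) (by fun_prop) (by simp; linarith))).and self_mem_nhdsWithin).exists
  replace d0 : 0 < δ := d0
  set m := 1 / s0 + (1 - ε / 2) / (s0 * (s0 - 1)) with hm
  obtain ⟨h, ⟨b1, b2⟩, b0⟩ := (((pick (fun x => x * m) (fun _ => 1) (by fun_prop) (by fun_prop)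
    (by simp)).and (pick (fun x => x * m) (fun _ => ε / (2 * s0)) (by fun_prop) (by fun_prop)
    (by simp only [zero_mul]; positivity))).and self_mem_nhdsWithin).exists
  replace b0 : 0 < h := b0
  have n2 : s0 + h - 1 ≠ 0 := by linarith
  have b3 : 1 / (s0 + h - 1) < (1 - h * m) / (s0 - 1) := by
    rw [div_lt_div_iff₀ (by linarith) hσ]
    have e : (s0 - 1) * m = 1 - ε / (2 * s0) := by rw [hm]; field_simp; ring
    have := mul_lt_mul_of_pos_left b2 b0
    have e2 : (1 - h * m) * (s0 + h - 1) = s0 - 1 + h - h * ((s0 - 1) * m) - h * (h * m) := by ring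
    rw [e2, e]
    linarith
  obtain ⟨V, ⟨⟨⟨v1, v2⟩, v3⟩, v4⟩, v5⟩ := (((((eventually_ge_atTop (1 : ℝ)).and
    (pickV hs 1 (exp δ) (one_lt_exp_iff.mpr d0))).and (pickV hs _ _ b3)).and
    (eventually_gt_atTop ((1 - ε / 2) / (s0 * (s0 - 1))))).and
    (((tendsto_exp_atTop.comp (tendsto_id.const_mul_atTop hσ)).atTop_mul_const
      (show 0 < 1 - exp (-(s0 - 1) * 1) from sub_pos.mpr (exp_lt_one_iff.mpr
        (by linarith)))).eventually_gt_atTop 1)).exists
  obtain ⟨x, ⟨⟨⟨⟨⟨⟨x1, x2⟩, x3⟩, x4⟩, x5⟩, x6⟩, x7⟩, x0⟩ := ((((((((pick (fun x => x) (fun _ => 1)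
    (by fun_prop) (by fun_prop) one_pos).and
    (pick (fun x => (1 - ε) * exp (2 * s0 * δ) + x) (fun x => (1 - ε / 2) * (1 - x))
      (by fun_prop) (by fun_prop) (by simpa using d2))).and
    (pick (fun x => (1 + x) ^ 2) (fun x => (1 - x) * (s0 - 1) * exp δ
      * ((1 - exp (-(s0 - 1) * V)) / (s0 - 1) - x * (2 + s0 / (s0 - 1)))) (by fun_prop) (by fun_prop)
      (by refine lt_of_eq_of_lt (by simp) (v2.trans_eq ?_); simp only [zero_mul, sub_zero]
          field_simp))).and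
    (pick (fun x => (1 + x) ^ 2) (fun x => (1 - x) * (s0 - 1) * exp ((s0 - 1) * V)
      * ((1 - exp (-(s0 - 1) * 1)) / (s0 - 1) - x * (2 + s0 / (s0 - 1)))) (by fun_prop) (by fun_prop)
      (by refine lt_of_eq_of_lt (by simp) (v5.trans_eq ?_)
          simp only [zero_mul, sub_zero, Function.comp, id]
          field_simp))).and
    (pick (fun x => x + (1 - ε / 2) / (s0 * (s0 - 1)) * (1 + x)) (fun _ => V) (by fun_prop)
      (by fun_prop) (by simpa using v4))).and
    (pick (fun x => h * (1 / s0 + (x + (1 - ε / 2) / (s0 * (s0 - 1)) * (1 + x)))) (fun _ => 1)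
      (by fun_prop) (by fun_prop) (by simpa [hm] using b1))).and
    (pick (fun x => 1 / (s0 + h - 1) + x * (2 + (s0 + h) / (s0 + h - 1)))
      (fun x => (1 - h * (1 / s0 + (x + (1 - ε / 2) / (s0 * (s0 - 1)) * (1 + x))))
        * ((1 - exp (-(s0 - 1) * V)) / (s0 - 1) - x * (2 + s0 / (s0 - 1)))) (by fun_prop)
      (by fun_prop) (by
        refine lt_of_eq_of_lt (by simp) (v3.trans_eq ?_)
        simp only [zero_mul, sub_zero, zero_add, add_zero, mul_one, hm]
        ring))).and self_mem_nhdsWithin).exists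
  replace x0 : 0 < x := x0
  obtain ⟨y0, -, hP⟩ := exists_pnt x x0
  obtain ⟨y2, y21, hy2⟩ := theta_lower (exp δ) (one_lt_exp_iff.mpr d0)
  set C := 2 + 1 / (s0 - 1) with hC
  have hC0 : 0 < C := by positivity
  obtain ⟨N, hN⟩ := exists_nat_gt (max 4 ((s0 - 1) * (5 + C)))
  have hN4 : (4 : ℝ) < N := (le_max_left _ _).trans_lt hN
  have hNε := (le_max_right _ _).trans_lt hN
  set κ := π / N with hκ
  have hκ0 : 0 < κ := by positivity
  have hNκ : N * κ = π := by rw [hκ]; field_simp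
  have h4 : 4 * κ ≤ π := by nlinarith
  set β := κ / (N + 5) with hβ
  have hβ0 : 0 < β := by positivity
  have hγ1 : 1 < exp β := one_lt_exp_iff.mpr hβ0
  obtain ⟨y1, -, hy1⟩ := theta_lower _ hγ1
  have sκ : 0 < sin κ := sin_pos_of_pos_of_lt_pi hκ0 (by linarith)
  have t2 : ∀ D : ℝ, Tendsto (fun b : ℝ => exp (-b * κ) * (1 + b * D)) atTop (𝓝 0) := fun D => by
    have := (tendsto_exp_neg_atTop_nhds_zero.comp (tendsto_id.atTop_mul_const hκ0)).add
      (((tendsto_pow_mul_exp_neg_atTop_nhds_zero 1).comp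
      (tendsto_id.atTop_mul_const hκ0)).const_mul (D / κ))
    rw [mul_zero, add_zero] at this
    refine this.congr fun b => ?_
    simp only [Function.comp, id, neg_mul]
    field_simp
  have tb := td_div _ _ hσ (td (s0 := s0) (fun q => q.1 - 1) (by fun_prop))
  filter_upwards [ev_pos, ev_lt (fun _ => 1) (fun q => q.1) (by fun_prop) (by fun_prop) hs,
    ev_lt (fun q => 1 + 1 / (q.1 - 1)) (fun _ => C) (by fun_prop (disch := exact n1)) (by fun_prop)
      (by simp only [hC]; linarith),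
    ev_lt (fun q => q.2) (fun _ => 1) (by fun_prop) (by fun_prop) one_pos,
    (tendsto_exp_atTop.comp (td_div (fun _ => 1) 1 one_pos tendsto_const_nhds)).eventually_ge_atTop y0,
    (td_div (fun _ => 2) 2 two_pos tendsto_const_nhds).eventually_ge_atTop (V + 1),
    ((td (fun q => q.2 ^ 2 * (V + 1) ^ 3) (by fun_prop)).add (td_ell hs (fun _ => 6) 6
      tendsto_const_nhds)).eventually (eventually_le_nhds (b := x) (by simpa using x0)),
    ((td_tL hs).add (td (fun q => q.2 * (V + 1)) (by fun_prop))).eventually_lt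
      (td (fun q => x * (q.1 * π)) (by fun_prop)) (by simp only [zero_mul, add_zero]; positivity),
    ev_lt (fun q => q.2) (fun q => x * (q.1 * (q.1 - 1))) (by fun_prop) (by fun_prop)
      (by simp only; positivity),
    (td_ell hs _ _ (td (fun q => 6 * (q.1 * (q.1 - 1))) (by fun_prop))).eventually (ge_mem_nhds x0),
    ev_lt (fun q => (1 - ε) * exp (2 * q.1 * δ) + x) (fun _ => (1 - ε / 2) * (1 - x))
      (by fun_prop) (by fun_prop) x2,
    ev_lt (fun _ => (1 + x) ^ 2) (fun q => (1 - x) * (q.1 - 1) * exp δ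
      * ((1 - exp (-(q.1 - 1) * V)) / (q.1 - 1) - x * (2 + q.1 / (q.1 - 1)))) (by fun_prop)
      (by fun_prop (disch := exact n1)) x3,
    ev_lt (fun _ => (1 + x) ^ 2) (fun q => (1 - x) * (q.1 - 1) * exp ((q.1 - 1) * V)
      * ((1 - exp (-(q.1 - 1) * 1)) / (q.1 - 1) - x * (2 + q.1 / (q.1 - 1)))) (by fun_prop)
      (by fun_prop (disch := exact n1)) x4,
    ev_lt (fun q => x + (1 - ε / 2) / (q.1 * (q.1 - 1)) * (1 + x)) (fun _ => V)
      (by fun_prop (disch := exact n3)) (by fun_prop) x5,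
    ev_lt (fun q => h * (1 / q.1 + (x + (1 - ε / 2) / (q.1 * (q.1 - 1)) * (1 + x)))) (fun _ => 1)
      (by fun_prop (disch := first | exact n0 | exact n3)) (by fun_prop) x6,
    ev_lt (fun q => 1 / (q.1 + h - 1) + x * (2 + (q.1 + h) / (q.1 + h - 1)))
      (fun q => (1 - h * (1 / q.1 + (x + (1 - ε / 2) / (q.1 * (q.1 - 1)) * (1 + x))))
        * ((1 - exp (-(q.1 - 1) * V)) / (q.1 - 1) - x * (2 + q.1 / (q.1 - 1))))
      (by fun_prop (disch := exact n2))
      (by fun_prop (disch := first | exact n0 | exact n1 | exact n3)) x7,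
    (tendsto_exp_atTop.comp tb).eventually_ge_atTop y1,
    (tendsto_exp_neg_atTop_nhds_zero.comp tb).eventually
      (ge_mem_nhds (show 0 < sin κ / 24 by positivity)),
    ((t2 (π + (5 + C) * κ + C * (π + 4 * κ))).comp tb).eventually (ge_mem_nhds
      (show 0 < sin κ ^ 2 * (exp β - 1) / (8 * exp β) by have := sub_pos.mpr hγ1; positivity)),
    ev_lt (fun q => (q.1 - 1) * (5 + C)) (fun _ => (N : ℝ)) (by fun_prop) (by fun_prop) hNε,
    (td_div (fun _ => ((N + 4 : ℕ) : ℝ) * β) _ (by positivity)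
      tendsto_const_nhds).eventually_ge_atTop (2 * V + 4),
    (td_L hs).eventually_ge_atTop 1,
    (tendsto_exp_atTop.comp (td_div _ _ (by positivity) (td_tu hs))).eventually_ge_atTop y2,
    (td_ell hs _ _ (td _ continuousAt_snd)).eventually (ge_mem_nhds (show (0 : ℝ) < 1 / 4 by norm_num))]
    with ⟨s, t⟩ e0 e1 e2 e3 e4 e5 e6 e7 e8 e9 e10 e11 e12 e13 e14 e15 e16 e17 e18 e19 e20 e21 e22 e23
  simp only [Function.comp] at *
  rw [mul_div_cancel_left₀ _ e0.ne'] at e22
  rw [mul_div_cancel₀ _ e0.ne'] at e23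
  obtain ⟨p, hp⟩ : (pr (exp (uu s t + δ)) (exp δ * exp (uu s t + δ))).Nonempty := by
    refine nonempty_of_sum_ne_zero (f := fun p : ℕ => Real.log p) (ne_of_gt (lt_of_lt_of_le ?_
      (hy2 _ (e22.trans (exp_le_exp.mpr (by linarith))))))
    have := sub_pos.mpr (one_lt_exp_iff.mpr d0)
    positivity
  obtain ⟨p1, p2, p3⟩ := (mem_pr (exp_pos _).le (by positivity)).mp hp
  have p0 : (0 : ℝ) < p := by exact_mod_cast p1.pos
  rw [← exp_add, ← log_le_iff_le_exp p0] at p3
  replace p2 := (le_log_iff_exp_le p0).mpr p2.le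
  refine lower s t κ β (exp β) C y1 (N + 4) e1 e0 e2.le hβ0
    (by rw [hβ]; push_cast; field_simp; ring) (by push_cast; linarith) h4 hγ1
    (exp_le_exp.mpr (le_div_self hβ0.le e0 e3.le)) hy1 e16 e17 e18
    (by linarith [mul_le_mul_of_nonneg_right e19.le hκ0.le]) V _ (by linarith) e20 p p1 ?_ ?_
    (represent s t x y0 δ V x x ε h e1 e0 e3.le hP x0.le e4 p p1.pos d0 d1.le p2 (by linarith) v1 e5
      (by rw [mul_div_assoc]; exact e6) x1.le x0 ?_ e8.le ?_ hε hε1 e10.le e11.le e12.le e13.le b0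
      e14.le e15.le)
  · have : (s - 1) / s ≤ 1 := by rw [div_le_one (by linarith)]; linarith
    rw [uu] at p2
    linarith
  · refine le_trans ?_ e23
    rw [Real.rpow_def_of_pos p0, exp_le_exp]
    linarith [mul_le_mul_of_nonneg_left (show uu s t ≤ log p by linarith) (show 0 ≤ s by linarith)]
  · rw [← mul_div_assoc, le_div_iff₀ e0]
    linarith
  · rw [← mul_div_assoc, div_le_iff₀ e0] at e9
    linarith

theorem sharp (hs : 1 < s0) : Tendsto (fun q : ℝ × ℝ =>
    rad ((-q.1 : ℝ) + (q.2 : ℝ) * Complex.I) / FF q.1 q.2) (ll s0) (𝓝 1) := by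
  refine tendsto_order.mpr ⟨fun a ha => ?_, fun a ha => ?_⟩
  · set ε := min ((1 - a) / 3) (1 / 2) with hε
    have e0 : 0 < ε := lt_min (by linarith) (by norm_num)
    have e1 : ε ≤ (1 - a) / 3 := min_le_left _ _
    have e2 : ε ≤ 1 / 2 := min_le_right _ _
    filter_upwards [ev_pos, ev_lt (fun _ => 1) (fun q => q.1) (by fun_prop) (by fun_prop) hs,
      ev_upper hs 1 one_pos, ev_lower hs ε e0 (by linarith),
      (td_F hs).eventually (ge_mem_nhds e0)] with q ht h1 hU hL hF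
    have F0 := FF_pos q.1 q.2 h1 ht
    have r0 : 0 ≤ (1 - 2 * ε) * FF q.1 q.2 := mul_nonneg (by linarith) F0.le
    have r1 : (1 - 2 * ε) * FF q.1 q.2 ≤ FF q.1 q.2 := mul_le_of_le_one_left F0.le (by linarith)
    have h := le_csSup ⟨_, fun R hR => hU R hR.2⟩ (show (1 - 2 * ε) * FF q.1 q.2 ∈ {R : ℝ | 0 ≤ R ∧
      Metric.ball (1 : ℂ) R ⊆ closure (sigmaC ((-q.1 : ℝ) + (q.2 : ℝ) * Complex.I) '' {n | 1 ≤ n})}
      from ⟨r0, hL _ (by linarith) (by
        linarith [mul_le_mul r1 (r1.trans hF) r0 F0.le])⟩)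
    rw [lt_div_iff₀ F0]
    exact (mul_lt_mul_of_pos_right (by linarith) F0).trans_le h
  · set ε := (a - 1) / 2 with hε
    have e0 : 0 < ε := by linarith
    have t := (((td_F hs).const_mul (1 + ε)).const_add 1).const_mul (1 + ε)
    filter_upwards [ev_pos, ev_lt (fun _ => 1) (fun q => q.1) (by fun_prop) (by fun_prop) hs,
      ev_upper hs ε e0, t.eventually (gt_mem_nhds (a := a) (by simp; linarith))] with q ht h1 hU hF
    have F0 := FF_pos q.1 q.2 h1 ht
    rw [div_lt_iff₀ F0]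
    refine (Real.sSup_le (fun R hR => hU R hR.2) (by positivity)).trans_lt ?_
    linarith [mul_lt_mul_of_pos_right hF F0]

theorem FF_eq (s t : ℝ) (hs : 1 < s) (ht : 0 < t) : FF s t = exp (s - 1) * t ^ (s + 1)
    * exp (-(π * (s * (s - 1))) / t) / (π ^ s * (s * (s - 1)) ^ (s + 1)) := by
  have hσ := sub_pos.mpr hs
  have hss : 0 < s * (s - 1) := by positivity
  have hpi := pi_pos
  have e : -s * uu s t = s - 1 + log t * s + -(π * (s * (s - 1))) / t
      - (log π * s + log (s * (s - 1)) * s) := by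
    rw [uu, log_div (by positivity) ht.ne', mul_assoc, log_mul hpi.ne' hss.ne']
    field_simp; ring
  rw [FF, e, exp_sub, exp_add, exp_add, exp_add, Real.rpow_add_one ht.ne', Real.rpow_add_one hss.ne',
    Real.rpow_def_of_pos ht, Real.rpow_def_of_pos hpi, Real.rpow_def_of_pos hss]
  field_simp

end Pool.Agent.Lib.MP_3ba922_nt
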